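import Mathlib

/-!
# Triangulable dilation surfaces of genus two with one cone point

A triangulable dilation surface is obtained from finitely many Euclidean triangles by gluing their
sides by maps `z ↦ r z + b`, `r > 0`.  For genus `2` and one cone point (of angle `6 π`) there are
`6` triangles, that is `18` sides.
-/

set_option autoImplicit false

open Set Filter Topology

namespace Pool.Agent.R193.DS

/-- Vectors of the plane. -/
abbrev V2 : Type := ℝ × ℝ

/-- The determinant of two plane vectors. -/
def det (a b : V2) : ℝ := a.1 * b.2 - a.2 * b.1

/-- The `18` sides of `6` triangles. -/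
abbrev E : Type := Fin 18

/-- A triangulated dilation surface of genus `2` with one cone point of angle `6 π`.

`nxt h` is the side following the side `h` in its triangle (counterclockwise), `opp h` is the side to
which `h` is glued, and `w h` is the vector of the side `h`.  The vectors of the sides of a triangle
are only relevant up to a common positive factor (see `Relabel`).  The side `h` is glued to the side
`opp h` by the map `z ↦ r z + b` which exchanges beginning and end.  After a turn around a vertex,
the side `nxt (opp h)` comes next to `h` among the sides starting at the same vertex; so the last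
condition says that there is only one vertex.  Then the Euler characteristic is `1 - 9 + 6 = -2`, the
surface is connected and has genus `2`, and the angle at the vertex is `6 π`. -/
@[ext]
structure Surf where
  nxt : E → E
  opp : E → E
  w : E → V2
  nxt3 : ∀ h, nxt (nxt (nxt h)) = h
  nxt_ne : ∀ h, nxt h ≠ h
  opp2 : ∀ h, opp (opp h) = h
  opp_ne : ∀ h, opp h ≠ h
  closed : ∀ h, w h + w (nxt h) + w (nxt (nxt h)) = 0
  pos : ∀ h, 0 < det (w h) (w (nxt h))
  glue : ∀ h, ∃ r : ℝ, 0 < r ∧ w (opp h) = -(r • w h)
  one : ∀ h h', ∃ n : ℕ, (fun x => nxt (opp x))^[n] h = h'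

/-- Two triangulated surfaces are close if they have the same combinatorial pattern and their side
vectors are close. -/
instance : TopologicalSpace Surf :=
  TopologicalSpace.induced (fun D => (D.nxt, D.opp, D.w)) inferInstance

/-- `D'` is obtained from `D` by renaming the sides and rescaling the triangles. -/
def Relabel (D D' : Surf) : Prop :=
  ∃ (φ : Equiv.Perm E) (c : E → ℝ), (∀ h, 0 < c h) ∧ (∀ h, c (D.nxt h) = c h) ∧
    (∀ h, D'.nxt (φ h) = φ (D.nxt h)) ∧ (∀ h, D'.opp (φ h) = φ (D.opp h)) ∧
    ∀ h, D'.w (φ h) = c h • D.w h

/-- `D'` is obtained from `D` by a flip.  The triangles `h, a, b` and `h', c, d` of `D`, drawn in the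
same scale and glued along `h` and `h'`, form a strictly convex quadrilateral with the sides
`a, b, c, d`; in `D'` it is cut by the other diagonal into the triangles `h, d, a` and `h', b, c`. -/
def Flip (D D' : Surf) : Prop :=
  ∃ h a b h' c d : E, D.nxt h = a ∧ D.nxt a = b ∧ D.opp h = h' ∧ D.nxt h' = c ∧ D.nxt c = d ∧
    D.w h' = -D.w h ∧ 0 < det (D.w b) (D.w c) ∧ 0 < det (D.w d) (D.w a) ∧
    D'.opp = D.opp ∧
    D'.nxt h = d ∧ D'.nxt d = a ∧ D'.nxt a = h ∧ D'.nxt h' = b ∧ D'.nxt b = c ∧ D'.nxt c = h' ∧
    (∀ x, x ≠ h → x ≠ a → x ≠ b → x ≠ h' → x ≠ c → x ≠ d → D'.nxt x = D.nxt x) ∧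
    D'.w h = D.w b + D.w c ∧ D'.w h' = -(D.w b + D.w c) ∧
    ∀ x, x ≠ h → x ≠ h' → D'.w x = D.w x

/-- The relation generating isomorphism. -/
def Step (D D' : Surf) : Prop := Relabel D D' ∨ Flip D D'

/-- The space of the triangulable dilation surfaces of genus `2` with one cone point (of angle
`6 π`), up to isomorphism, with the quotient topology: two triangulated surfaces are identified if
they are related by finitely many relabellings and flips.

Why this is the space of isomorphism classes: an isomorphism carries a triangulation by saddle
connections to one which is a relabelling of it, and two triangulations by saddle connections of the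
same surface are related by finitely many flips.  For the second fact (known for flat surfaces,
Tahar, Geometric triangulations and flips) let `e` be an edge of the second triangulation which is
not in the first one.  Develop `e` and the triangles of the first triangulation met by it into the
plane, with `e` horizontal.  Call height of an edge crossed by `e` the difference of the vertical
coordinates of its ends.  Let `f` be the first one, along `e`, among the crossed edges of maximal
height.  The two other vertices of the triangles next to `f` are not above the upper end and not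
below the lower end of `f`, and the one before `f` is strictly between.  So the quadrilateral with
the diagonal `f` is strictly convex and `f` can be flipped.  The number of crossed edges does not
increase, and if the new diagonal is crossed by `e`, its height is smaller.  All vertices which
occur are among those of the first development, so after finitely many flips `e` is an edge.  Edges
of the second triangulation are not crossed by `e`, so they are never removed by these flips.

The side vectors of a triangulation are local coordinates of the stratum, so the topology is the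
usual one. -/
def Moduli : Type := Quot Step

instance : TopologicalSpace Moduli := inferInstanceAs (TopologicalSpace (Quot Step))

/-- The linear map of the plane with the matrix `A`. -/
def lin (A : Matrix.SpecialLinearGroup (Fin 2) ℝ) (z : V2) : V2 :=
  (A 0 0 * z.1 + A 0 1 * z.2, A 1 0 * z.1 + A 1 1 * z.2)

lemma lin_add (A : Matrix.SpecialLinearGroup (Fin 2) ℝ) (z z' : V2) :
    lin A (z + z') = lin A z + lin A z' := by
  ext <;> simp [lin] <;> ring

lemma lin_neg (A : Matrix.SpecialLinearGroup (Fin 2) ℝ) (z : V2) : lin A (-z) = -lin A z := by
  ext <;> simp [lin] <;> ring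

lemma lin_smul (A : Matrix.SpecialLinearGroup (Fin 2) ℝ) (r : ℝ) (z : V2) :
    lin A (r • z) = r • lin A z := by
  ext <;> simp [lin] <;> ring

lemma lin_zero (A : Matrix.SpecialLinearGroup (Fin 2) ℝ) : lin A 0 = 0 := by
  ext <;> simp [lin]

lemma det_lin (A : Matrix.SpecialLinearGroup (Fin 2) ℝ) (z z' : V2) :
    det (lin A z) (lin A z') = det z z' := by
  have h := A.2
  rw [Matrix.det_fin_two] at h
  have h' : A 0 0 * A 1 1 - A 0 1 * A 1 0 = 1 := h
  unfold det lin
  simp only
  linear_combination (z.1 * z'.2 - z.2 * z'.1) * h'

/-- The action of a matrix of determinant one: it is applied to all side vectors. -/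
def act (A : Matrix.SpecialLinearGroup (Fin 2) ℝ) (D : Surf) : Surf where
  nxt := D.nxt
  opp := D.opp
  w h := lin A (D.w h)
  nxt3 := D.nxt3
  nxt_ne := D.nxt_ne
  opp2 := D.opp2
  opp_ne := D.opp_ne
  closed h := by rw [← lin_add, ← lin_add, D.closed h, lin_zero]
  pos h := by rw [det_lin]; exact D.pos h
  glue h := by
    obtain ⟨r, hr, e⟩ := D.glue h
    exact ⟨r, hr, by rw [e, lin_neg, lin_smul]⟩
  one := D.one

lemma act_step (A : Matrix.SpecialLinearGroup (Fin 2) ℝ) (D D' : Surf) (h : Step D D') :
    Step (act A D) (act A D') := by
  rcases h with ⟨φ, c, h1, h2, h3, h4, h5⟩ |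
    ⟨h, a, b, h', c, d, e1, e2, e3, e4, e5, e6, p1, p2, e7, n1, n2, n3, n4, n5, n6, n7, w1, w2, w3⟩
  · exact Or.inl ⟨φ, c, h1, h2, h3, h4, fun h => by
      show lin A (D'.w (φ h)) = c h • lin A (D.w h)
      rw [h5, lin_smul]⟩
  · refine Or.inr ⟨h, a, b, h', c, d, e1, e2, e3, e4, e5, ?_, ?_, ?_, e7, n1, n2, n3, n4, n5, n6, n7,
      ?_, ?_, ?_⟩
    · show lin A (D.w h') = -lin A (D.w h)
      rw [e6, lin_neg]
    · show 0 < det (lin A (D.w b)) (lin A (D.w c))
      rwa [det_lin]
    · show 0 < det (lin A (D.w d)) (lin A (D.w a))
      rwa [det_lin]
    · show lin A (D'.w h) = lin A (D.w b) + lin A (D.w c)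
      rw [w1, lin_add]
    · show lin A (D'.w h') = -(lin A (D.w b) + lin A (D.w c))
      rw [w2, lin_neg, lin_add]
    · intro x hx hx'
      show lin A (D'.w x) = lin A (D.w x)
      rw [w3 x hx hx']

/-- The action of `SL₂(ℝ)` on the moduli space. -/
def Moduli.act (A : Matrix.SpecialLinearGroup (Fin 2) ℝ) : Moduli → Moduli :=
  Quot.map (Pool.Agent.R193.DS.act A) (act_step A)

/-- The `SL₂(ℝ)`-orbit of a surface. -/
def Moduli.orbit (x : Moduli) : Set Moduli :=
  {y | ∃ A : Matrix.SpecialLinearGroup (Fin 2) ℝ, y = Moduli.act A x}

end Pool.Agent.R193.DS
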