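import Pool.Agent.R193.DS.Half3

set_option autoImplicit false

open Set Filter Topology

namespace Pool.Agent.R193.DS

/-- piecewise affine equivariant functions -/
lemma K_of_affine (D : Surf) (S G : E → ℝ) (W : E → V2) (Sp : ∀ j, 0 < S j)
    (A : ∀ j, S (D.nxt j) = S j + LL (G j) (W j) (D.w j))
    (B : ∀ j, G (D.nxt j) = G j ∧ W (D.nxt j) = W j)
    (C : ∀ j, ∀ r : ℝ, D.w (D.opp j) = -(r • D.w j) →
      S (D.opp j) = r * S (D.nxt j) ∧ S (D.nxt (D.opp j)) = r * S j)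
    (F : ∀ j, (G (D.opp j) = G j ∧ W (D.opp j) = W j) ∨
      (LL (G j) (W j) (D.w j) = 0 ∧ (∀ z ∈ tri D j, 0 ≤ LL (G j) (W j) z) ∧
        ∀ z ∈ tri D (D.opp j), 0 ≤ LL (G (D.opp j)) (W (D.opp j)) z)) :
    K D (fun j z => S j + LL (G j) (W j) z) := by
  constructor
  · intro j
    unfold LL det
    fun_prop
  · intro j
    refine ⟨tri_convex, ?_⟩
    intro p _ q _ a b _ _ hab
    simp only [smul_eq_mul]
    rw [LL_add, LL_smul, LL_smul]
    have : S j = a * S j + b * S j := by rw [← add_mul, hab, one_mul]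
    linarith
  · intro j
    simp only [LL_zero, add_zero]
    exact Sp j
  · intro j z _
    obtain ⟨b1, b2⟩ := B j
    rw [A j, b1, b2, LL_sub]; ring
  · intro j r _ e t _ _
    obtain ⟨c1, c2⟩ := C j r e
    have a1 := A j
    have a2 := A (D.opp j)
    rw [LL_smul, LL_smul]
    have e1 : LL (G j) (W j) (D.w j) = S (D.nxt j) - S j := by linarith
    have e2 : LL (G (D.opp j)) (W (D.opp j)) (D.w (D.opp j)) =
      S (D.nxt (D.opp j)) - S (D.opp j) := by linarith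
    rw [e1, e2, c1, c2]; ring
  · intro j r hr e z hz z' hz' l t hl0 hl1 ht0 ht1 heq
    obtain ⟨c1, c2⟩ := C j r e
    have hri : 0 < r⁻¹ := inv_pos.2 hr
    rcases F j with ⟨f1, f2⟩ | ⟨f1, f2, f3⟩
    · rw [heq, LL_add, LL_smul, LL_smul, LL_add, LL_smul, c1, A j, f1, f2]
      have : l * (r⁻¹ * (r * (S j + LL (G j) (W j) (D.w j)) + LL (G j) (W j) z')) =
          l * (S j + LL (G j) (W j) (D.w j)) + l * (r⁻¹ * LL (G j) (W j) z') := by
        field_simp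
      rw [this]
      linarith
    · rw [LL_smul, f1, c1, A j, f1]
      have g1 := f2 z hz
      have g2 := f3 z' hz'
      have : l * (r⁻¹ * (r * (S j + 0) + LL (G (D.opp j)) (W (D.opp j)) z')) =
          l * S j + l * (r⁻¹ * LL (G (D.opp j)) (W (D.opp j)) z') := by
        field_simp; ring
      rw [this]
      have g3 : 0 ≤ l * (r⁻¹ * LL (G (D.opp j)) (W (D.opp j)) z') := by positivity
      have g4 : 0 ≤ (1 - l) * LL (G j) (W j) z := mul_nonneg (by linarith) g1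
      nlinarith

lemma C_pair {D : Surf} {S : E → ℝ} {j k : E} {ρ : ℝ} (hρ : 0 < ρ) (ho : D.opp j = k)
    (hw : D.w k = -(ρ • D.w j)) (a : S k = ρ * S (D.nxt j)) (b : S (D.nxt k) = ρ * S j) :
    (∀ r : ℝ, D.w (D.opp j) = -(r • D.w j) →
      S (D.opp j) = r * S (D.nxt j) ∧ S (D.nxt (D.opp j)) = r * S j) ∧
    (∀ r : ℝ, D.w (D.opp k) = -(r • D.w k) →
      S (D.opp k) = r * S (D.nxt k) ∧ S (D.nxt (D.opp k)) = r * S k) := by
  constructor
  · intro r e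
    have : r = ρ := D.ratio_unique e (by rw [ho, hw])
    rw [this, ho, a, b]
    exact ⟨rfl, rfl⟩
  · intro r e
    have hok : D.opp k = j := by rw [← ho, D.opp2]
    have : r = ρ⁻¹ := D.ratio_unique e (by
      rw [hok, hw, smul_neg, neg_neg, smul_smul, inv_mul_cancel₀ hρ.ne', one_smul])
    rw [this, hok, a, b, inv_mul_cancel_left₀ hρ.ne', inv_mul_cancel_left₀ hρ.ne']
    exact ⟨rfl, rfl⟩

lemma all18 : ∀ j : E, (j = 0 ∨ j = 1 ∨ j = 2 ∨ j = 3 ∨ j = 4 ∨ j = 5 ∨ j = 6 ∨ j = 7 ∨ j = 8) ∨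
    (j = 9 ∨ j = 10 ∨ j = 11 ∨ j = 12 ∨ j = 13 ∨ j = 14 ∨ j = 15 ∨ j = 16 ∨ j = 17) := by
  decide

/-- the surface is a union of two reflex halves -/
structure Two (D : Surf) (r0 r1 r2 r4 r5 q1 q2 q4 q5 : ℝ) : Prop where
  P : HP D 0 1 2 3 4 5 6 7 8 r1 r2 r4 r5
  Q : HP D 9 10 11 12 13 14 15 16 17 q1 q2 q4 q5
  o0 : D.opp 0 = 9
  h0 : 0 < r0
  g0 : D.w 9 = -(r0 • D.w 0)

/-- the values at the vertices -/
noncomputable def SS (r0 r1 r2 r4 r5 q1 q2 q4 q5 : ℝ) : E → ℝ :=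
  ![1, 1, r5 / r4 * 1, r2 * 1, r2 * r5 / r4 * 1, r1 / r4 * 1, r1 * r5 / r4 * 1, r1 * 1,
    r2 * r5 * 1, r0, r0, q5 / q4 * r0, q2 * r0, q2 * q5 / q4 * r0, q1 / q4 * r0,
    q1 * q5 / q4 * r0, q1 * r0, q2 * q5 * r0]

lemma lt9 : (0 : E) < 9 ∧ (1 : E) < 9 ∧ (2 : E) < 9 ∧ (3 : E) < 9 ∧ (4 : E) < 9 ∧ (5 : E) < 9 ∧
    (6 : E) < 9 ∧ (7 : E) < 9 ∧ (8 : E) < 9 := by decide

lemma nlt9 : ¬ (9 : E) < 9 ∧ ¬ (10 : E) < 9 ∧ ¬ (11 : E) < 9 ∧ ¬ (12 : E) < 9 ∧ ¬ (13 : E) < 9 ∧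
    ¬ (14 : E) < 9 ∧ ¬ (15 : E) < 9 ∧ ¬ (16 : E) < 9 ∧ ¬ (17 : E) < 9 := by decide

lemma gg_nonneg {D : Surf} {i0 i1 : E} {r4 r5 c : ℝ} (n0 : D.nxt i0 = i1) (h4 : 0 < r4)
    (lt : r4 < r5) (hc : 0 < c) : 0 < gg D i0 i1 r4 r5 c := by
  unfold gg
  have h1 := D.pos i0
  rw [n0] at h1
  have h2 : 1 < r5 / r4 := by rw [one_lt_div h4]; exact lt
  have h3 : 0 < r5 / r4 - 1 := by linarith
  positivity

theorem Two.exists {D : Surf} {r0 r1 r2 r4 r5 q1 q2 q4 q5 : ℝ}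
    (T : Two D r0 r1 r2 r4 r5 q1 q2 q4 q5) : ∃ u, K D u := by
  have P := T.P
  have Q := T.Q
  have h0 := T.h0
  have h1 := P.h1
  have h2 := P.h2
  have h4 := P.h4
  have h5 := P.h5
  have k1 := Q.h1
  have k2 := Q.h2
  have k4 := Q.h4
  have k5 := Q.h5
  set S := SS r0 r1 r2 r4 r5 q1 q2 q4 q5 with hS
  set G : E → ℝ := fun j => if j < 9 then gg D 0 1 r4 r5 1 else gg D 9 10 q4 q5 r0 with hG
  set W : E → V2 := fun j => if j < 9 then D.w 0 else D.w 9 with hW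
  have a := P.aff (S := S) (c := 1) rfl rfl rfl rfl rfl rfl rfl rfl rfl
  have b := Q.aff (S := S) (c := r0) rfl rfl rfl rfl rfl rfl rfl rfl rfl
  obtain ⟨a0, a1, a2, a3, a4, a5, a6, a7, a8⟩ := a
  obtain ⟨b0, b1, b2, b3, b4, b5, b6, b7, b8⟩ := b
  obtain ⟨l0, l1, l2, l3, l4, l5, l6, l7, l8⟩ := lt9
  obtain ⟨m0, m1, m2, m3, m4, m5, m6, m7, m8⟩ := nlt9
  have G1 : ∀ j : E, j < 9 → G j = gg D 0 1 r4 r5 1 := fun j hj => if_pos hj
  have G2 : ∀ j : E, ¬ j < 9 → G j = gg D 9 10 q4 q5 r0 := fun j hj => if_neg hj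
  have W1 : ∀ j : E, j < 9 → W j = D.w 0 := fun j hj => if_pos hj
  have W2 : ∀ j : E, ¬ j < 9 → W j = D.w 9 := fun j hj => if_neg hj
  refine ⟨_, K_of_affine D S G W ?_ ?_ ?_ ?_ ?_⟩
  · intro j
    rcases all18 j with (rfl | rfl | rfl | rfl | rfl | rfl | rfl | rfl | rfl) |
      (rfl | rfl | rfl | rfl | rfl | rfl | rfl | rfl | rfl) <;>
      simp [hS, SS] <;> positivity
  · intro j
    rcases all18 j with (rfl | rfl | rfl | rfl | rfl | rfl | rfl | rfl | rfl) |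
      (rfl | rfl | rfl | rfl | rfl | rfl | rfl | rfl | rfl)
    · rw [P.n0, G1 _ l0, W1 _ l0]; exact a0
    · rw [P.n1, G1 _ l1, W1 _ l1]; exact a1
    · rw [P.n2, G1 _ l2, W1 _ l2]; exact a2
    · rw [P.n3, G1 _ l3, W1 _ l3]; exact a3
    · rw [P.n4, G1 _ l4, W1 _ l4]; exact a4
    · rw [P.n5, G1 _ l5, W1 _ l5]; exact a5
    · rw [P.n6, G1 _ l6, W1 _ l6]; exact a6
    · rw [P.n7, G1 _ l7, W1 _ l7]; exact a7
    · rw [P.n8, G1 _ l8, W1 _ l8]; exact a8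
    · rw [Q.n0, G2 _ m0, W2 _ m0]; exact b0
    · rw [Q.n1, G2 _ m1, W2 _ m1]; exact b1
    · rw [Q.n2, G2 _ m2, W2 _ m2]; exact b2
    · rw [Q.n3, G2 _ m3, W2 _ m3]; exact b3
    · rw [Q.n4, G2 _ m4, W2 _ m4]; exact b4
    · rw [Q.n5, G2 _ m5, W2 _ m5]; exact b5
    · rw [Q.n6, G2 _ m6, W2 _ m6]; exact b6
    · rw [Q.n7, G2 _ m7, W2 _ m7]; exact b7
    · rw [Q.n8, G2 _ m8, W2 _ m8]; exact b8
  · intro j
    rcases all18 j with (rfl | rfl | rfl | rfl | rfl | rfl | rfl | rfl | rfl) |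
      (rfl | rfl | rfl | rfl | rfl | rfl | rfl | rfl | rfl)
    · rw [P.n0]; simp [hG, hW]
    · rw [P.n1]; simp [hG, hW]
    · rw [P.n2]; simp [hG, hW]
    · rw [P.n3]; simp [hG, hW]
    · rw [P.n4]; simp [hG, hW]
    · rw [P.n5]; simp [hG, hW]
    · rw [P.n6]; simp [hG, hW]
    · rw [P.n7]; simp [hG, hW]
    · rw [P.n8]; simp [hG, hW]
    · rw [Q.n0]; simp [hG, hW]
    · rw [Q.n1]; simp [hG, hW]
    · rw [Q.n2]; simp [hG, hW]
    · rw [Q.n3]; simp [hG, hW]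
    · rw [Q.n4]; simp [hG, hW]
    · rw [Q.n5]; simp [hG, hW]
    · rw [Q.n6]; simp [hG, hW]
    · rw [Q.n7]; simp [hG, hW]
    · rw [Q.n8]; simp [hG, hW]
  · have c0 := C_pair (S := S) h0 T.o0 T.g0 (by rw [P.n0]; simp [hS, SS])
      (by rw [Q.n0]; simp [hS, SS])
    have c1 := C_pair (S := S) h1 P.o1 P.g1 (by rw [P.n1]; simp [hS, SS]; ring)
      (by rw [P.n6]; simp [hS, SS])
    have c2 := C_pair (S := S) h2 P.o2 P.g2 (by rw [P.n2]; simp [hS, SS])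
      (by rw [P.n3]; simp [hS, SS]; ring)
    have c4 := C_pair (S := S) h4 P.o4 P.g4 (by rw [P.n4]; simp [hS, SS]; field_simp)
      (by rw [P.n7]; simp [hS, SS]; field_simp)
    have c5 := C_pair (S := S) h5 P.o5 P.g5 (by rw [P.n5]; simp [hS, SS]; ring)
      (by rw [P.n8]; simp [hS, SS]; ring)
    have d1 := C_pair (S := S) k1 Q.o1 Q.g1 (by rw [Q.n1]; simp [hS, SS]; ring)
      (by rw [Q.n6]; simp [hS, SS])
    have d2 := C_pair (S := S) k2 Q.o2 Q.g2 (by rw [Q.n2]; simp [hS, SS])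
      (by rw [Q.n3]; simp [hS, SS]; ring)
    have d4 := C_pair (S := S) k4 Q.o4 Q.g4 (by rw [Q.n4]; simp [hS, SS]; field_simp)
      (by rw [Q.n7]; simp [hS, SS]; field_simp)
    have d5 := C_pair (S := S) k5 Q.o5 Q.g5 (by rw [Q.n5]; simp [hS, SS]; ring)
      (by rw [Q.n8]; simp [hS, SS]; ring)
    intro j
    rcases all18 j with (rfl | rfl | rfl | rfl | rfl | rfl | rfl | rfl | rfl) |
      (rfl | rfl | rfl | rfl | rfl | rfl | rfl | rfl | rfl)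
    · exact c0.1
    · exact c1.1
    · exact c2.1
    · exact c2.2
    · exact c4.1
    · exact c5.1
    · exact c1.2
    · exact c4.2
    · exact c5.2
    · exact c0.2
    · exact d1.1
    · exact d2.1
    · exact d2.2
    · exact d4.1
    · exact d5.1
    · exact d1.2
    · exact d4.2
    · exact d5.2
  · have o0' : D.opp 9 = 0 := by rw [← T.o0, D.opp2]
    have o6 : D.opp 6 = 1 := by rw [← P.o1, D.opp2]
    have o3 : D.opp 3 = 2 := by rw [← P.o2, D.opp2]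
    have o7 : D.opp 7 = 4 := by rw [← P.o4, D.opp2]
    have o8 : D.opp 8 = 5 := by rw [← P.o5, D.opp2]
    have o15 : D.opp 15 = 10 := by rw [← Q.o1, D.opp2]
    have o12 : D.opp 12 = 11 := by rw [← Q.o2, D.opp2]
    have o16 : D.opp 16 = 13 := by rw [← Q.o4, D.opp2]
    have o17 : D.opp 17 = 14 := by rw [← Q.o5, D.opp2]
    have n1' : ∀ z ∈ tri D 0, 0 ≤ LL (gg D 0 1 r4 r5 1) (D.w 0) z := fun z hz =>
      mul_nonneg (gg_nonneg P.n0 h4 P.lt one_pos).le (det_nonneg_of_mem hz)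
    have n2' : ∀ z ∈ tri D 9, 0 ≤ LL (gg D 9 10 q4 q5 r0) (D.w 9) z := fun z hz =>
      mul_nonneg (gg_nonneg Q.n0 k4 Q.lt h0).le (det_nonneg_of_mem hz)
    intro j
    rcases all18 j with (rfl | rfl | rfl | rfl | rfl | rfl | rfl | rfl | rfl) |
      (rfl | rfl | rfl | rfl | rfl | rfl | rfl | rfl | rfl)
    · right
      rw [T.o0, G1 _ l0, W1 _ l0, G2 _ m0, W2 _ m0]
      exact ⟨by unfold LL; rw [det_self, mul_zero], n1', n2'⟩
    · left; rw [P.o1]; simp [hG, hW]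
    · left; rw [P.o2]; simp [hG, hW]
    · left; rw [o3]; simp [hG, hW]
    · left; rw [P.o4]; simp [hG, hW]
    · left; rw [P.o5]; simp [hG, hW]
    · left; rw [o6]; simp [hG, hW]
    · left; rw [o7]; simp [hG, hW]
    · left; rw [o8]; simp [hG, hW]
    · right
      rw [o0', G1 _ l0, W1 _ l0, G2 _ m0, W2 _ m0]
      exact ⟨by unfold LL; rw [det_self, mul_zero], n2', n1'⟩
    · left; rw [Q.o1]; simp [hG, hW]
    · left; rw [Q.o2]; simp [hG, hW]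
    · left; rw [o12]; simp [hG, hW]
    · left; rw [Q.o4]; simp [hG, hW]
    · left; rw [Q.o5]; simp [hG, hW]
    · left; rw [o15]; simp [hG, hW]
    · left; rw [o16]; simp [hG, hW]
    · left; rw [o17]; simp [hG, hW]

end Pool.Agent.R193.DS
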