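import Pool.Agent.R193.DS.K

set_option autoImplicit false

open Set Filter Topology

namespace Pool.Agent.R193.DS

lemma UpOn.shift {S T : Set V2} {f g : V2 → ℝ} {v : V2} {m : ℝ} (c : V2) (H : UpOn S f v m)
    (hT : ∀ z ∈ T, z + c ∈ S ∧ g z = f (z + c)) : UpOn T g v m := by
  intro z hz s hs hzs
  obtain ⟨h1, h2⟩ := hT z hz
  obtain ⟨h3, h4⟩ := hT _ hzs
  rw [h2, h4]
  have e : z + s • v + c = z + c + s • v := by abel
  rw [e] at h3 ⊢
  exact H _ h1 s hs h3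

lemma UpOn.union {S S1 S2 : Set V2} {f : V2 → ℝ} {v : V2} {m : ℝ} (hS : S ⊆ S1 ∪ S2)
    (hc : ∀ p ∈ S1, ∀ q ∈ S2, ∃ l : ℝ, 0 ≤ l ∧ l ≤ 1 ∧ (1 - l) • p + l • q ∈ S1 ∧
      (1 - l) • p + l • q ∈ S2)
    (H1 : UpOn S1 f v m) (H2 : UpOn S2 f v m) : UpOn S f v m := by
  intro z hz s hs hzs
  rcases hS hz with h1 | h1 <;> rcases hS hzs with h2 | h2
  · exact H1 z h1 s hs h2
  · obtain ⟨l, hl0, hl1, h3, h4⟩ := hc _ h1 _ h2
    have e : (1 - l) • z + l • (z + s • v) = z + (l * s) • v := by module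
    rw [e] at h3 h4
    have h5 := H1 z h1 (l * s) (by positivity) h3
    have e2 : z + s • v = z + (l * s) • v + ((1 - l) * s) • v := by module
    have h6 := H2 _ h4 ((1 - l) * s) (mul_nonneg (by linarith) hs) (by rw [← e2]; exact h2)
    rw [← e2] at h6
    linarith
  · obtain ⟨l, hl0, hl1, h3, h4⟩ := hc _ h2 _ h1
    have e : (1 - l) • (z + s • v) + l • z = z + ((1 - l) * s) • v := by module
    rw [e] at h3 h4
    have h5 := H2 z h1 ((1 - l) * s) (mul_nonneg (by linarith) hs) h4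
    have e2 : z + s • v = z + ((1 - l) * s) • v + (l * s) • v := by module
    have h6 := H1 _ h3 (l * s) (by positivity) (by rw [← e2]; exact h2)
    rw [← e2] at h6
    linarith
  · exact H2 z h1 s hs h2

lemma cross_TT {B C P : V2} {x y : ℝ} (hx : 0 < x) (hy : 0 < y) (hxy : 1 < x + y)
    (hB : B = x • P + y • C) : ∀ p ∈ TT B C, ∀ q ∈ TT B P, ∃ l : ℝ, 0 ≤ l ∧ l ≤ 1 ∧
      (1 - l) • p + l • q ∈ TT B C ∧ (1 - l) • p + l • q ∈ TT B P := by
  intro p hp q hq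
  obtain ⟨a, b, ha, hb0, hab, hpe⟩ := id hp
  obtain ⟨a', c, ha', hc0, hac, hqe⟩ := id hq
  rcases hb0.eq_or_lt with hb1 | hb1
  · have hp' : p ∈ TT B P := ⟨a, 0, ha, le_rfl, by linarith, by rw [hpe, ← hb1]; simp⟩
    exact ⟨0, le_rfl, by norm_num, by simpa using hp, by simpa using hp'⟩
  rcases hc0.eq_or_lt with hc1 | hc1
  · have hq' : q ∈ TT B C := ⟨a', 0, ha', le_rfl, by linarith, by rw [hqe, ← hc1]; simp⟩
    exact ⟨1, by norm_num, le_rfl, by simpa using hq', by simpa using hq⟩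
  obtain ⟨l, τ, hl0, hl1, ht0, ht1, he⟩ := crossing hx hy hxy hB ha hb1 hab ha' hc1 hac
  rw [← hpe, ← hqe] at he
  refine ⟨l, hl0.le, hl1.le, ?_, ?_⟩
  · rw [← he]; exact ⟨τ, 0, ht0.le, le_rfl, by linarith, by simp⟩
  · rw [← he]; exact ⟨τ, 0, ht0.le, le_rfl, by linarith, by simp⟩

lemma TT_closed {B C : V2} : IsClosed (TT B C) := by
  have : TT B C = (fun p : ℝ × ℝ => p.1 • B + p.2 • C) ''
      {p : ℝ × ℝ | 0 ≤ p.1 ∧ 0 ≤ p.2 ∧ p.1 + p.2 ≤ 1} := by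
    ext z
    constructor
    · rintro ⟨s, t, hs, ht, hst, rfl⟩
      exact ⟨(s, t), ⟨hs, ht, hst⟩, rfl⟩
    · rintro ⟨⟨s, t⟩, ⟨hs, ht, hst⟩, rfl⟩
      exact ⟨s, t, hs, ht, hst, rfl⟩
  rw [this]
  exact (isCompact_simplex.image
    ((continuous_fst.smul continuous_const).add (continuous_snd.smul continuous_const))).isClosed

/-- bending across an edge only depends on a neighbourhood of the edge -/
lemma outer_bend {D D' : Surf} {u u' : E → V2 → ℝ} (hu : K D u)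
    (conv : ∀ h, ConvexOn ℝ (tri D' h) (u' h)) {x : E} (eo : D'.opp x = D.opp x)
    (ew : D'.w x = D.w x) (ewo : D'.w (D.opp x) = D.w (D.opp x))
    (ag : ∀ z ∈ tri D x, u' x z = u x z)
    (ag' : ∀ z ∈ tri D (D.opp x), u' (D.opp x) z = u (D.opp x) z)
    {r : ℝ} (hr : 0 < r) (e : D'.w (D'.opp x) = -(r • D'.w x)) {z z' : V2}
    (hz : z ∈ tri D' x) (hz' : z' ∈ tri D' (D'.opp x)) {l t : ℝ} (hl0 : 0 < l) (hl1 : l < 1)
    (ht0 : 0 < t) (ht1 : t < 1)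
    (heq : t • D'.w x = (1 - l) • z + l • (D'.w x + r⁻¹ • z')) :
    u' x (t • D'.w x) ≤ (1 - l) * u' x z + l * (r⁻¹ * u' (D'.opp x) z') := by
  have hd := det_nonneg_of_mem hz
  have hd' := det_nonneg_of_mem hz'
  rw [eo, ewo] at hd'
  rw [eo] at hz' ⊢
  rw [eo, ewo, ew] at e
  rw [ew] at hd heq ⊢
  obtain ⟨e1, e1p, e1l, H1⟩ := near D x ht0 ht1 hd
  obtain ⟨e2, e2p, e2l, H2⟩ := near D (D.opp x) (t := 1 - t) (by linarith) (by linarith) hd'
  have hep : 0 < min e1 e2 := lt_min e1p e2p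
  set ε := min e1 e2 with hε
  have hε1 : ε ≤ 1 := (min_le_left _ _).trans e1l
  have m1 := H1 ε hep.le (min_le_left _ _)
  have m2 := H2 ε hep.le (min_le_right _ _)
  have i1 : r⁻¹ • D.w (D.opp x) = -D.w x := by
    rw [e, smul_neg, smul_smul, inv_mul_cancel₀ hr.ne', one_smul]
  have q1 : t • D.w x ∈ tri D x := edge_mem ht0.le ht1.le
  have q2 : (1 - t) • D.w (D.opp x) ∈ tri D (D.opp x) := edge_mem (by linarith) (by linarith)
  have q1' : t • D.w x ∈ tri D' x := by rw [← ew]; exact edge_mem ht0.le ht1.le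
  have q2' : (1 - t) • D.w (D.opp x) ∈ tri D' (D.opp x) := by
    rw [← ewo]; exact edge_mem (by linarith) (by linarith)
  have b := hu.bend x r hr e _ m1 _ m2 l t hl0 hl1 ht0 ht1 (by
    have h1 : l • (D.w x + r⁻¹ • ((1 - ε) • (1 - t) • D.w (D.opp x) + ε • z')) =
        l • (D.w x + (1 - ε) • (1 - t) • (r⁻¹ • D.w (D.opp x)) + ε • (r⁻¹ • z')) := by
      module
    rw [h1, i1]
    have h2 : (1 - l) • ((1 - ε) • t • D.w x + ε • z) +
        l • (D.w x + (1 - ε) • (1 - t) • -D.w x + ε • r⁻¹ • z') =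
        ε • ((1 - l) • z + l • (D.w x + r⁻¹ • z')) + ((1 - ε) * t) • D.w x := by
      module
    rw [h2, ← heq]
    module)
  rw [← ag _ m1, ← ag' _ m2, ← ag _ q1] at b
  have c1 := (conv x).2 q1' hz (sub_nonneg.2 hε1) hep.le (by ring)
  have c2 := (conv (D.opp x)).2 q2' hz' (sub_nonneg.2 hε1) hep.le (by ring)
  have g := hu.glue x r hr e t ht0.le ht1.le
  rw [← ag' _ q2, ← ag _ q1] at g
  rw [g] at c2
  simp only [smul_eq_mul] at c1 c2
  have hri : 0 < r⁻¹ := inv_pos.2 hr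
  have c1' := mul_le_mul_of_nonneg_left c1 (by linarith : (0 : ℝ) ≤ 1 - l)
  have c2' := mul_le_mul_of_nonneg_left c2 (by positivity : (0 : ℝ) ≤ l * r⁻¹)
  have k : l * r⁻¹ * ((1 - ε) * (r * u' x (t • D.w x)) + ε * u' (D.opp x) z') =
      l * ((1 - ε) * u' x (t • D.w x)) + ε * (l * (r⁻¹ * u' (D.opp x) z')) := by
    field_simp
  rw [k] at c2'
  have : ε * u' x (t • D.w x) ≤ ε * ((1 - l) * u' x z + l * (r⁻¹ * u' (D.opp x) z')) := by
    nlinarith
  exact le_of_mul_le_mul_left this hep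

end Pool.Agent.R193.DS
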