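import Pool.Agent.R193.DS.Flip

set_option autoImplicit false

open Set Filter Topology

namespace Pool.Agent.R193.DS

/-- the data of a flip, with the derived facts -/
structure FD (D D' : Surf) (h a b h' c d : E) (x y : ℝ) : Prop where
  e1 : D.nxt h = a
  e2 : D.nxt a = b
  e3 : D.opp h = h'
  e4 : D.nxt h' = c
  e5 : D.nxt c = d
  wh' : D.w h' = -D.w h
  o : D'.opp = D.opp
  n1 : D'.nxt h = d
  n2 : D'.nxt d = a
  n3 : D'.nxt a = h
  n4 : D'.nxt h' = b
  n5 : D'.nxt b = c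
  n6 : D'.nxt c = h'
  n7 : ∀ x, x ≠ h → x ≠ a → x ≠ b → x ≠ h' → x ≠ c → x ≠ d → D'.nxt x = D.nxt x
  w1 : D'.w h = D.w b + D.w c
  w2 : D'.w h' = -(D.w b + D.w c)
  w3 : ∀ x, x ≠ h → x ≠ h' → D'.w x = D.w x
  hx : 0 < x
  hy : 0 < y
  hxy : 1 < x + y
  hB : D.w h = x • D.w c + y • (-D.w b)
  ha : h ≠ a
  hb : h ≠ b
  hh : h ≠ h'
  hc : h ≠ c
  hd : h ≠ d
  ab : a ≠ b
  ah' : a ≠ h'
  ac : a ≠ c
  ad : a ≠ d
  bh' : b ≠ h'
  bc : b ≠ c
  bd : b ≠ d
  h'c : h' ≠ c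
  h'd : h' ≠ d
  cd : c ≠ d
  e6 : D.nxt b = h
  e7 : D.nxt d = h'
  e8 : D.opp h' = h
  wa : D.w a = -D.w b - D.w h
  wd : D.w d = D.w h - D.w c

lemma Flip.data {D D' : Surf} (H : Flip D D') :
    ∃ (h a b h' c d : E) (x y : ℝ), FD D D' h a b h' c d x y := by
  obtain ⟨h, a, b, h', c, d, e1, e2, e3, e4, e5, wh', p1, p2, o, n1, n2, n3, n4, n5, n6, n7, w1,
    w2, w3⟩ := H
  have e6 : D.nxt b = h := by rw [← e2, ← e1, D.nxt3]
  have e7 : D.nxt d = h' := by rw [← e5, ← e4, D.nxt3]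
  have e8 : D.opp h' = h := by rw [← e3, D.opp2]
  have ha : h ≠ a := by rw [← e1]; exact (D.nxt_ne h).symm
  have hb : h ≠ b := by rw [← e2, ← e1]; exact (D.nn_ne h).symm
  have hh : h ≠ h' := by rw [← e3]; exact (D.opp_ne h).symm
  have hc : h ≠ c := by
    have := D.opp_ne_nxt h'
    rwa [e8, e4] at this
  have hd : h ≠ d := by
    have := D.opp_ne_nn h'
    rwa [e8, e4, e5] at this
  have ab : a ≠ b := by rw [← e2]; exact (D.nxt_ne a).symm
  have ah' : a ≠ h' := by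
    have := D.opp_ne_nxt h
    rw [e3, e1] at this
    exact this.symm
  have bh' : b ≠ h' := by
    have := D.opp_ne_nn h
    rw [e3, e1, e2] at this
    exact this.symm
  have ac : a ≠ c := by
    intro e
    rw [← e1, ← e4] at e
    exact hh (D.nxt_inj e)
  have ad : a ≠ d := by
    intro e
    rw [← e1, ← e5] at e
    exact hc (D.nxt_inj e)
  have bc : b ≠ c := by
    intro e
    rw [← e2, ← e4] at e
    exact ah' (D.nxt_inj e)
  have bd : b ≠ d := by
    intro e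
    rw [← e2, ← e5] at e
    exact ac (D.nxt_inj e)
  have h'c : h' ≠ c := by rw [← e4]; exact (D.nxt_ne h').symm
  have h'd : h' ≠ d := by rw [← e5, ← e4]; exact (D.nn_ne h').symm
  have cd : c ≠ d := by rw [← e5]; exact (D.nxt_ne c).symm
  have wa : D.w a = -D.w b - D.w h := by
    have := D.closed h
    rw [e1, e2] at this
    have h2 : D.w a = (D.w h + D.w a + D.w b) - D.w b - D.w h := by abel
    rw [h2, this]; abel
  have wd : D.w d = D.w h - D.w c := by
    have := D.closed h'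
    rw [e4, e5, wh'] at this
    have h2 : D.w d = (-D.w h + D.w c + D.w d) + D.w h - D.w c := by abel
    rw [h2, this]; abel
  have q1 := D.pos h
  rw [e1, wa] at q1
  have q2 := D.pos h'
  rw [e4, wh'] at q2
  rw [wd, wa] at p2
  have hcb : det (D.w c) (-D.w b) = det (D.w b) (D.w c) := by unfold det; simp; ring
  have hq1 : 0 < det (D.w h) (-D.w b) := by
    have : det (D.w h) (-D.w b) = det (D.w h) (-D.w b - D.w h) := by unfold det; simp; ring
    rwa [this]
  have hq2 : 0 < det (D.w c) (D.w h) := by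
    have : det (D.w c) (D.w h) = det (-D.w h) (D.w c) := by unfold det; simp; ring
    rwa [this]
  have hne : det (D.w c) (-D.w b) ≠ 0 := by rw [hcb]; exact p1.ne'
  refine ⟨h, a, b, h', c, d, _, _, e1, e2, e3, e4, e5, wh', o, n1, n2, n3, n4, n5, n6, n7, w1, w2,
    w3, ?_, ?_, ?_, expand hne (D.w h), ha, hb, hh, hc, hd, ab, ah', ac, ad, bh', bc, bd, h'c, h'd,
    cd, e6, e7, e8, wa, wd⟩
  · rw [hcb]; exact div_pos hq1 p1
  · rw [hcb]; exact div_pos hq2 p1
  · rw [← add_div, one_lt_div (by rw [hcb]; exact p1), hcb]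
    have : det (D.w h) (-D.w b) + det (D.w c) (D.w h) - det (D.w b) (D.w c) =
        det (D.w h - D.w c) (-D.w b - D.w h) := by unfold det; simp; ring
    linarith

section

variable {D D' : Surf} {h a b h' c d : E} {x y : ℝ}

open Classical in
/-- the function on the quadrilateral -/
noncomputable def UU (D : Surf) (u : E → V2 → ℝ) (h b h' : E) : V2 → ℝ := fun z =>
  if z ∈ TT (D.w h) (-D.w b) then u h z else u h' (z - D.w h)

open Classical in
/-- the transported function -/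
noncomputable def uu (D : Surf) (u : E → V2 → ℝ) (h a b h' c d : E) : E → V2 → ℝ := fun x z =>
  if x = h then UU D u h b h' (z + -D.w b) else
  if x = a then UU D u h b h' (z + D.w h) else
  if x = b then UU D u h b h' (z + -D.w b) else
  if x = h' then UU D u h b h' (z + D.w c) else
  if x = c then UU D u h b h' (z + 0) else
  if x = d then UU D u h b h' (z + D.w c) else u x z

namespace FD

variable (F : FD D D' h a b h' c d x y) {u : E → V2 → ℝ}
include F

lemma tri_h : tri D h = TT (D.w h) (-D.w b) := by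
  unfold tri TT
  rw [F.e1, F.wa]
  have : D.w h + (-D.w b - D.w h) = -D.w b := by abel
  rw [this]

lemma tri_h' {z : V2} (hz : z ∈ tri D h') : z + D.w h ∈ TT (D.w h) (D.w c) := by
  obtain ⟨s, t, hs, ht, hst, rfl⟩ := hz
  refine ⟨1 - s - t, t, by linarith, ht, by linarith, ?_⟩
  rw [F.e4, F.wh']
  module

lemma tri_h'_iff {z : V2} (hz : z ∈ TT (D.w h) (D.w c)) : z - D.w h ∈ tri D h' := by
  obtain ⟨s, t, hs, ht, hst, rfl⟩ := hz
  refine ⟨1 - s - t, t, by linarith, ht, by linarith, ?_⟩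
  rw [F.e4, F.wh']
  module

lemma inter {z : V2} (hz : z ∈ TT (D.w h) (-D.w b)) (hz' : z ∈ TT (D.w h) (D.w c)) :
    ∃ t : ℝ, 0 ≤ t ∧ t ≤ 1 ∧ z = t • D.w h := by
  rw [← F.tri_h] at hz
  refine mem_edge_of_det hz ?_
  have h1 := det_nonneg_of_mem hz
  obtain ⟨s, t, hs, ht, hst, rfl⟩ := hz'
  have q2 := D.pos h'
  rw [F.e4, F.wh'] at q2
  have h2 : det (D.w h) (s • D.w h + t • D.w c) = -(t * det (-D.w h) (D.w c)) := by
    unfold det; simp; ring
  have h3 : 0 ≤ t * det (-D.w h) (D.w c) := by positivity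
  linarith

lemma U1 {z : V2} (hz : z ∈ TT (D.w h) (-D.w b)) : UU D u h b h' z = u h z := by
  unfold UU; rw [if_pos hz]

lemma U2 (hu : K D u) {z : V2} (hz : z ∈ TT (D.w h) (D.w c)) :
    UU D u h b h' z = u h' (z - D.w h) := by
  unfold UU
  split_ifs with h1
  · obtain ⟨t, ht0, ht1, rfl⟩ := F.inter h1 hz
    have := hu.glue h 1 one_pos (by rw [F.e3, F.wh', one_smul]) t ht0 ht1
    rw [F.e3, F.wh', one_mul] at this
    rw [← this]
    congr 1
    module
  · rfl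

lemma QQ_eq : QQ (D.w h) (-D.w b) (D.w c) = TT (D.w h) (-D.w b) ∪ TT (D.w h) (D.w c) := by
  apply Subset.antisymm (QQ_sub F.hx F.hy F.hxy F.hB)
  exact union_subset (TT_sub_QQ1 _ _ _) (TT_sub_QQ2 _ _ _)

lemma U_cont (hu : K D u) : ContinuousOn (UU D u h b h') (QQ (D.w h) (-D.w b) (D.w c)) := by
  rw [F.QQ_eq]
  refine ContinuousOn.union_of_isClosed ?_ ?_ TT_closed TT_closed
  · have := hu.cont h
    rw [F.tri_h] at this
    exact this.congr fun z hz => F.U1 hz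
  · have : ContinuousOn (fun z => u h' (z - D.w h)) (TT (D.w h) (D.w c)) :=
      (hu.cont h').comp (by fun_prop) (fun z hz => F.tri_h'_iff hz)
    exact this.congr fun z hz => F.U2 hu hz

lemma U_conv (hu : K D u) : ConvexOn ℝ (QQ (D.w h) (-D.w b) (D.w c)) (UU D u h b h') := by
  refine quad_convexOn F.hx F.hy F.hxy F.hB ?_ ?_ ?_
  · refine ⟨TT_convex _ _, ?_⟩
    intro p hp q hq s t hs ht hst
    rw [F.U1 hp, F.U1 hq, F.U1 (TT_convex _ _ hp hq hs ht hst)]
    rw [← F.tri_h] at hp hq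
    exact (hu.conv h).2 hp hq hs ht hst
  · refine ⟨TT_convex _ _, ?_⟩
    intro p hp q hq s t hs ht hst
    rw [F.U2 hu hp, F.U2 hu hq, F.U2 hu (TT_convex _ _ hp hq hs ht hst)]
    have e : s • p + t • q - D.w h = s • (p - D.w h) + t • (q - D.w h) := by
      have : D.w h = (s + t) • D.w h := by rw [hst, one_smul]
      conv_lhs => rw [this]
      module
    rw [e]
    exact (hu.conv h').2 (F.tri_h'_iff hp) (F.tri_h'_iff hq) hs ht hst
  · intro p hp q hq l t hl0 hl1 ht0 ht1 heq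
    have ht : t • D.w h ∈ TT (D.w h) (-D.w b) := ⟨t, 0, ht0.le, le_rfl, by linarith, by simp⟩
    rw [F.U1 ht, F.U1 hp, F.U2 hu hq]
    have := hu.bend h 1 one_pos (by rw [F.e3, F.wh', one_smul]) p (by rw [F.tri_h]; exact hp)
      (q - D.w h) (by rw [F.e3]; exact F.tri_h'_iff hq) l t hl0 hl1 ht0 ht1 (by
        rw [heq, inv_one, one_smul]
        congr 2
        abel)
    rw [F.e3, inv_one, one_mul] at this
    exact this

lemma uh {z : V2} : uu D u h a b h' c d h z = UU D u h b h' (z + -D.w b) := by simp [uu]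
lemma ua {z : V2} : uu D u h a b h' c d a z = UU D u h b h' (z + D.w h) := by
  simp [uu, F.ha.symm]
lemma ub {z : V2} : uu D u h a b h' c d b z = UU D u h b h' (z + -D.w b) := by
  simp [uu, F.hb.symm, F.ab.symm]
lemma uh' {z : V2} : uu D u h a b h' c d h' z = UU D u h b h' (z + D.w c) := by
  simp [uu, F.hh.symm, F.ah'.symm, F.bh'.symm]
lemma uc {z : V2} : uu D u h a b h' c d c z = UU D u h b h' (z + 0) := by
  simp [uu, F.hc.symm, F.ac.symm, F.bc.symm, F.h'c.symm]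
lemma ud {z : V2} : uu D u h a b h' c d d z = UU D u h b h' (z + D.w c) := by
  simp [uu, F.hd.symm, F.ad.symm, F.bd.symm, F.h'd.symm, F.cd.symm]
omit F in
lemma uo {k : E} (k1 : k ≠ h) (k2 : k ≠ a) (k3 : k ≠ b) (k4 : k ≠ h') (k5 : k ≠ c) (k6 : k ≠ d)
    {z : V2} : uu D u h a b h' c d k z = u k z := by
  simp [uu, k1, k2, k3, k4, k5, k6]

/-- the new triangles lie in the quadrilateral -/
lemma Qh {z : V2} (hz : z ∈ tri D' h) : z + -D.w b ∈ QQ (D.w h) (-D.w b) (D.w c) := by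
  obtain ⟨s, t, hs, ht, hst, rfl⟩ := hz
  refine ⟨t, 1 - s - t, s, ht, by linarith, hs, by linarith, ?_⟩
  rw [F.n1, F.w1, F.w3 d F.hd.symm F.h'd.symm, F.wd]
  module

lemma Qh' {z : V2} (hz : z ∈ tri D' h') : z + D.w c ∈ QQ (D.w h) (-D.w b) (D.w c) := by
  obtain ⟨s, t, hs, ht, hst, rfl⟩ := hz
  refine ⟨0, s, 1 - s - t, le_rfl, hs, by linarith, by linarith, ?_⟩
  rw [F.n4, F.w2, F.w3 b F.hb.symm F.bh']
  module

lemma Qd {z : V2} (hz : z ∈ tri D' d) : z + D.w c ∈ QQ (D.w h) (-D.w b) (D.w c) := by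
  rw [← F.n1] at hz
  have := F.Qh (tri_prev hz)
  rw [F.w1] at this
  convert this using 1
  abel

lemma Qa {z : V2} (hz : z ∈ tri D' a) : z + D.w h ∈ QQ (D.w h) (-D.w b) (D.w c) := by
  rw [← F.n2] at hz
  have := F.Qd (tri_prev hz)
  rw [F.w3 d F.hd.symm F.h'd.symm, F.wd] at this
  convert this using 1
  abel

lemma Qb {z : V2} (hz : z ∈ tri D' b) : z + -D.w b ∈ QQ (D.w h) (-D.w b) (D.w c) := by
  rw [← F.n4] at hz
  have := F.Qh' (tri_prev hz)
  rw [F.w2] at this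
  convert this using 1
  abel

lemma Qc {z : V2} (hz : z ∈ tri D' c) : z + 0 ∈ QQ (D.w h) (-D.w b) (D.w c) := by
  rw [← F.n5] at hz
  have := F.Qb (tri_prev hz)
  rw [F.w3 b F.hb.symm F.bh'] at this
  convert this using 1
  abel

/-- agreement on the old triangles -/
lemma Aa (hu : K D u) {z : V2} (hz : z ∈ tri D a) : u a z = UU D u h b h' (z + D.w h) := by
  rw [← F.e1] at hz
  have h1 := tri_prev hz
  have h2 := hu.turn h _ h1
  rw [F.e1, add_sub_cancel_right] at h2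
  rw [F.U1 (by rw [← F.tri_h]; exact h1), h2]

lemma Ab (hu : K D u) {z : V2} (hz : z ∈ tri D b) : u b z = UU D u h b h' (z + -D.w b) := by
  rw [← F.e2] at hz
  have h1 := tri_prev hz
  have h2 := hu.turn a _ h1
  rw [F.e2, add_sub_cancel_right] at h2
  rw [h2, F.Aa hu h1, F.wa]
  congr 1
  abel

lemma Ac (hu : K D u) {z : V2} (hz : z ∈ tri D c) : u c z = UU D u h b h' (z + 0) := by
  rw [← F.e4] at hz
  have h1 := tri_prev hz
  have h2 := hu.turn h' _ h1
  rw [F.e4, add_sub_cancel_right] at h2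
  have h3 := F.tri_h' h1
  rw [F.wh'] at h3
  have e : z + -D.w h + D.w h = z + 0 := by abel
  rw [e] at h3
  rw [F.U2 hu h3, h2, F.wh']
  congr 1
  abel

lemma Ad (hu : K D u) {z : V2} (hz : z ∈ tri D d) : u d z = UU D u h b h' (z + D.w c) := by
  rw [← F.e5] at hz
  have h1 := tri_prev hz
  have h2 := hu.turn c _ h1
  rw [F.e5, add_sub_cancel_right] at h2
  rw [h2, F.Ac hu h1]
  congr 1
  abel

/-- the function of a new side agrees with the old one on the old triangle -/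
lemma agree (hu : K D u) {k : E} (k1 : k ≠ h) (k2 : k ≠ h') {z : V2} (hz : z ∈ tri D k) :
    uu D u h a b h' c d k z = u k z := by
  by_cases ka : k = a
  · subst ka; rw [F.ua, F.Aa hu hz]
  by_cases kb : k = b
  · subst kb; rw [F.ub, F.Ab hu hz]
  by_cases kc : k = c
  · subst kc; rw [F.uc, F.Ac hu hz]
  by_cases kd : k = d
  · subst kd; rw [F.ud, F.Ad hu hz]
  exact uo k1 ka kb k2 kc kd

lemma opp_out {k : E} (k1 : k ≠ h) (k2 : k ≠ h') : D.opp k ≠ h ∧ D.opp k ≠ h' := by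
  constructor
  · intro e
    apply k2
    rw [← D.opp2 k, e, F.e3]
  · intro e
    apply k1
    rw [← D.opp2 k, e, F.e8]

lemma nxt_out {k : E} (k1 : k ≠ h) (k2 : k ≠ a) (k3 : k ≠ b) (k4 : k ≠ h') (k5 : k ≠ c)
    (k6 : k ≠ d) : D.nxt k ≠ h ∧ D.nxt k ≠ a ∧ D.nxt k ≠ b ∧ D.nxt k ≠ h' ∧ D.nxt k ≠ c ∧
      D.nxt k ≠ d := by
  refine ⟨fun e => k3 ?_, fun e => k1 ?_, fun e => k2 ?_, fun e => k6 ?_, fun e => k4 ?_,
    fun e => k5 ?_⟩ <;> apply D.nxt_inj
  · rw [e, F.e6]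
  · rw [e, F.e1]
  · rw [e, F.e2]
  · rw [e, F.e7]
  · rw [e, F.e4]
  · rw [e, F.e5]

lemma tri_out {k : E} (k1 : k ≠ h) (k2 : k ≠ a) (k3 : k ≠ b) (k4 : k ≠ h') (k5 : k ≠ c)
    (k6 : k ≠ d) : tri D' k = tri D k := by
  obtain ⟨q1, q2, q3, q4, q5, q6⟩ := F.nxt_out k1 k2 k3 k4 k5 k6
  unfold tri
  rw [F.n7 k k1 k2 k3 k4 k5 k6, F.w3 k k1 k4, F.w3 _ q1 q4]

end FD

end

end Pool.Agent.R193.DS
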