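import Pool.Agent.R193.DS.FlipTr

set_option autoImplicit false

open Set Filter Topology

namespace Pool.Agent.R193.DS

namespace FD

variable {D D' : Surf} {h a b h' c d : E} {x y : ℝ}
variable (F : FD D D' h a b h' c d x y) {u : E → V2 → ℝ}
include F

lemma shape (hu : K D u) (k : E) :
    (∃ s : V2, (∀ z ∈ tri D' k, z + s ∈ QQ (D.w h) (-D.w b) (D.w c)) ∧
      (∀ z, uu D u h a b h' c d k z = UU D u h b h' (z + s)) ∧
      ∀ z, uu D u h a b h' c d (D'.nxt k) (z - D'.w k) = UU D u h b h' (z + s)) ∨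
    (k ≠ h ∧ k ≠ a ∧ k ≠ b ∧ k ≠ h' ∧ k ≠ c ∧ k ≠ d) := by
  by_cases k1 : k = h
  · subst k1
    refine Or.inl ⟨-D.w b, fun z hz => F.Qh hz, fun z => F.uh, fun z => ?_⟩
    rw [F.n1, F.ud, F.w1]; congr 1; abel
  by_cases k2 : k = a
  · subst k2
    refine Or.inl ⟨D.w h, fun z hz => F.Qa hz, fun z => F.ua, fun z => ?_⟩
    rw [F.n3, F.uh, F.w3 _ F.ha.symm F.ah', F.wa]; congr 1; abel
  by_cases k3 : k = b
  · subst k3
    refine Or.inl ⟨-D.w k, fun z hz => F.Qb hz, fun z => F.ub, fun z => ?_⟩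
    rw [F.n5, F.uc, F.w3 _ F.hb.symm F.bh']; congr 1; abel
  by_cases k4 : k = h'
  · subst k4
    refine Or.inl ⟨D.w c, fun z hz => F.Qh' hz, fun z => F.uh', fun z => ?_⟩
    rw [F.n4, F.ub, F.w2]; congr 1; abel
  by_cases k5 : k = c
  · subst k5
    refine Or.inl ⟨0, fun z hz => F.Qc hz, fun z => F.uc, fun z => ?_⟩
    rw [F.n6, F.uh', F.w3 _ F.hc.symm F.h'c.symm]; congr 1; abel
  by_cases k6 : k = d
  · subst k6
    refine Or.inl ⟨D.w c, fun z hz => F.Qd hz, fun z => F.ud, fun z => ?_⟩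
    rw [F.n2, F.ua, F.w3 _ F.hd.symm F.h'd.symm, F.wd]; congr 1; abel
  exact Or.inr ⟨k1, k2, k3, k4, k5, k6⟩

lemma conv' (hu : K D u) (k : E) : ConvexOn ℝ (tri D' k) (uu D u h a b h' c d k) := by
  rcases F.shape hu k with ⟨s, h1, h2, -⟩ | ⟨k1, k2, k3, k4, k5, k6⟩
  · refine ⟨tri_convex, ?_⟩
    intro p hp q hq α β hα hβ hab
    rw [h2, h2, h2]
    have e : α • p + β • q + s = α • (p + s) + β • (q + s) := by
      have : s = (α + β) • s := by rw [hab, one_smul]
      conv_lhs => rw [this]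
      module
    rw [e]
    exact (F.U_conv hu).2 (h1 p hp) (h1 q hq) hα hβ hab
  · rw [F.tri_out k1 k2 k3 k4 k5 k6]
    refine (hu.conv k).congr ?_
    intro z _
    exact (uo k1 k2 k3 k4 k5 k6).symm

lemma K' (hu : K D u) : K D' (uu D u h a b h' c d) := by
  constructor
  · intro k
    rcases F.shape hu k with ⟨s, h1, h2, -⟩ | ⟨k1, k2, k3, k4, k5, k6⟩
    · have : ContinuousOn (fun z => UU D u h b h' (z + s)) (tri D' k) :=
        (F.U_cont hu).comp (by fun_prop) (fun z hz => h1 z hz)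
      exact this.congr fun z _ => h2 z
    · rw [F.tri_out k1 k2 k3 k4 k5 k6]
      exact (hu.cont k).congr fun z _ => uo k1 k2 k3 k4 k5 k6
  · exact F.conv' hu
  · intro k
    by_cases k1 : k = h
    · subst k1
      rw [F.uh, ← F.ub, F.agree hu F.hb.symm F.bh' zero_mem]
      exact hu.pos b
    by_cases k4 : k = h'
    · subst k4
      rw [F.uh', ← F.ud, F.agree hu F.hd.symm F.h'd.symm zero_mem]
      exact hu.pos d
    rw [F.agree hu k1 k4 zero_mem]
    exact hu.pos k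
  · intro k z hz
    rcases F.shape hu k with ⟨s, h1, h2, h3⟩ | ⟨k1, k2, k3, k4, k5, k6⟩
    · rw [h3, h2]
    · obtain ⟨q1, q2, q3, q4, q5, q6⟩ := F.nxt_out k1 k2 k3 k4 k5 k6
      rw [F.tri_out k1 k2 k3 k4 k5 k6] at hz
      rw [F.n7 k k1 k2 k3 k4 k5 k6, uo q1 q2 q3 q4 q5 q6, uo k1 k2 k3 k4 k5 k6, F.w3 k k1 k4]
      exact hu.turn k z hz
  · intro k r hr e t ht0 ht1
    by_cases k1 : k = h
    · subst k1
      have e' := e
      rw [F.o, F.e3, F.w2, F.w1] at e'
      have hr1 : r = 1 := D'.ratio_unique e (by rw [F.o, F.e3, F.w2, F.w1, one_smul])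
      rw [F.o, F.e3, F.uh, F.uh', F.w1, F.w2, hr1, one_mul]
      congr 1
      module
    by_cases k4 : k = h'
    · subst k4
      have hr1 : r = 1 := D'.ratio_unique e (by
        rw [F.o, F.e8, F.w2, F.w1, one_smul, neg_neg])
      rw [F.o, F.e8, F.uh, F.uh', F.w1, F.w2, hr1, one_mul]
      congr 1
      module
    obtain ⟨o1, o2⟩ := F.opp_out k1 k4
    rw [F.o, F.w3 k k1 k4, F.w3 _ o1 o2] at e
    rw [F.o, F.w3 k k1 k4, F.w3 _ o1 o2, F.agree hu k1 k4 (edge_mem ht0 ht1),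
      F.agree hu o1 o2 (edge_mem (by linarith) (by linarith))]
    exact hu.glue k r hr e t ht0 ht1
  · intro k r hr e z hz z' hz' l t hl0 hl1 ht0 ht1 heq
    by_cases k1 : k = h
    · subst k1
      have hr1 : r = 1 := D'.ratio_unique e (by rw [F.o, F.e3, F.w2, F.w1, one_smul])
      rw [F.o, F.e3] at hz' ⊢
      rw [F.uh, F.uh, F.uh', hr1, inv_one, one_mul]
      have e2 : t • D'.w k + -D.w b = (1 - l) • (z + -D.w b) + l • (z' + D.w c) := by
        rw [heq, hr1, F.w1, inv_one, one_smul]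
        module
      rw [e2]
      exact (F.U_conv hu).2 (F.Qh hz) (F.Qh' hz') (by linarith) hl0.le (by ring)
    by_cases k4 : k = h'
    · subst k4
      have hr1 : r = 1 := D'.ratio_unique e (by
        rw [F.o, F.e8, F.w2, F.w1, one_smul, neg_neg])
      rw [F.o, F.e8] at hz' ⊢
      rw [F.uh, F.uh', F.uh', hr1, inv_one, one_mul]
      have e2 : t • D'.w k + D.w c = (1 - l) • (z + D.w c) + l • (z' + -D.w b) := by
        rw [heq, hr1, F.w2, inv_one, one_smul]
        module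
      rw [e2]
      exact (F.U_conv hu).2 (F.Qh' hz) (F.Qh hz') (by linarith) hl0.le (by ring)
    obtain ⟨o1, o2⟩ := F.opp_out k1 k4
    have eo : D'.opp k = D.opp k := by rw [F.o]
    exact outer_bend hu (F.conv' hu) eo (F.w3 k k1 k4) (F.w3 _ o1 o2)
      (fun z hz => F.agree hu k1 k4 hz) (fun z hz => F.agree hu o1 o2 hz) hr e hz hz' hl0 hl1
      ht0 ht1 heq

/-- slopes on the quadrilateral from the old triangles -/
lemma up1 (hu : K D u) {v : V2} {m : ℝ} (H : Up D u v m) :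
    UpOn (QQ (D.w h) (-D.w b) (D.w c)) (UU D u h b h') v m := by
  refine UpOn.union F.QQ_eq.le (cross_TT F.hx F.hy F.hxy F.hB) ?_ ?_
  · refine UpOn.shift 0 (H h) ?_
    intro z hz
    rw [F.tri_h, add_zero]
    exact ⟨hz, F.U1 hz⟩
  · refine UpOn.shift (-D.w h) (H h') ?_
    intro z hz
    rw [F.U2 hu hz, ← sub_eq_add_neg]
    exact ⟨F.tri_h'_iff hz, rfl⟩

/-- slopes on the quadrilateral from the new triangles -/
lemma up2 {v : V2} {m : ℝ} (H : Up D' (uu D u h a b h' c d) v m) :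
    UpOn (QQ (D.w h) (-D.w b) (D.w c)) (UU D u h b h') v m := by
  set B := D.w h with hBd
  set C := -D.w b with hC
  set P := D.w c with hP
  have hx := F.hx
  have hy := F.hy
  have hxy := F.hxy
  have hB := F.hB
  rw [← hBd, ← hC, ← hP] at hB
  have hx1 : 0 < (x + y - 1) / x := div_pos (by linarith) hx
  have hy1 : 0 < 1 / x := by positivity
  have hxy1 : 1 < (x + y - 1) / x + 1 / x := by
    rw [← add_div, one_lt_div hx]; linarith
  have hB1 : P - C = ((x + y - 1) / x) • (-C) + (1 / x) • (B - C) := by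
    rw [hB]
    have : x ≠ 0 := hx.ne'
    have e1 : (1 / x) • (x • P + y • C - C) = (1 / x * x) • P + (1 / x * (y - 1)) • C := by
      module
    rw [e1, one_div, inv_mul_cancel₀ this, one_smul]
    have e2 : (x + y - 1) / x = 1 + x⁻¹ * (y - 1) := by field_simp; ring
    rw [e2]
    module
  have cr := cross_TT hx1 hy1 hxy1 hB1
  have hsub := QQ_sub hx1 hy1 hxy1 hB1
  refine UpOn.union (S1 := {z | z + -C ∈ TT (P - C) (B - C)}) (S2 := {z | z + -C ∈ TT (P - C) (-C)})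
    ?_ ?_ ?_ ?_
  · rintro z ⟨α, β, γ, hα, hβ, hγ, hs, rfl⟩
    have : α • B + β • C + γ • P + -C ∈ QQ (P - C) (B - C) (-C) :=
      ⟨γ, α, 1 - α - β - γ, hγ, hα, by linarith, by linarith, by module⟩
    exact hsub this
  · intro p hp q hq
    obtain ⟨l, hl0, hl1, m1, m2⟩ := cr _ hp _ hq
    have e : (1 - l) • (p + -C) + l • (q + -C) = (1 - l) • p + l • q + -C := by module
    rw [e] at m1 m2
    exact ⟨l, hl0, hl1, m1, m2⟩
  · refine UpOn.shift (-C) (H h) ?_
    intro z hz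
    refine ⟨?_, ?_⟩
    · obtain ⟨s, t, hs, ht, hst, e⟩ := hz
      refine ⟨s, t, hs, ht, hst, ?_⟩
      rw [e, F.n1, F.w1, F.w3 d F.hd.symm F.h'd.symm, F.wd, ← hBd, ← hP, hC]
      module
    · rw [F.uh, ← hC]
      congr 1
      abel
  · refine UpOn.shift (-P) (H h') ?_
    intro z hz
    refine ⟨?_, ?_⟩
    · obtain ⟨s, t, hs, ht, hst, e⟩ := hz
      refine ⟨1 - s - t, t, by linarith, ht, by linarith, ?_⟩
      rw [F.n4, F.w2, F.w3 b F.hb.symm F.bh', ← hP]
      have e' : z = s • (P - C) + t • (-C) + C := by rw [← e]; abel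
      rw [e', hC]
      module
    · rw [F.uh', ← hP]
      congr 1
      abel

lemma up_iff (hu : K D u) (v : V2) (m : ℝ) :
    Up D u v m ↔ Up D' (uu D u h a b h' c d) v m := by
  constructor
  · intro H k
    rcases F.shape hu k with ⟨s, h1, h2, -⟩ | ⟨k1, k2, k3, k4, k5, k6⟩
    · exact UpOn.shift s (F.up1 hu H) fun z hz => ⟨h1 z hz, h2 z⟩
    · rw [F.tri_out k1 k2 k3 k4 k5 k6]
      refine UpOn.shift 0 (H k) fun z hz => ⟨by rwa [add_zero], ?_⟩
      rw [uo k1 k2 k3 k4 k5 k6, add_zero]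
  · intro H k
    have H2 := F.up2 H
    by_cases k1 : k = h
    · subst k1
      refine UpOn.shift 0 H2 fun z hz => ?_
      rw [F.tri_h] at hz
      rw [add_zero]
      exact ⟨TT_sub_QQ1 _ _ _ hz, (F.U1 hz).symm⟩
    by_cases k4 : k = h'
    · subst k4
      refine UpOn.shift (D.w h) H2 fun z hz => ?_
      have := F.tri_h' hz
      refine ⟨TT_sub_QQ2 _ _ _ this, ?_⟩
      rw [F.U2 hu this, add_sub_cancel_right]
    have hk : ∀ z ∈ tri D k, (u k z = uu D u h a b h' c d k z) := fun z hz =>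
      (F.agree hu k1 k4 hz).symm
    by_cases k2 : k = a
    · subst k2
      refine UpOn.shift (D.w h) H2 fun z hz => ⟨?_, F.Aa hu hz⟩
      rw [← F.e1] at hz
      have := tri_prev hz
      rw [F.tri_h] at this
      exact TT_sub_QQ1 _ _ _ this
    by_cases k3 : k = b
    · subst k3
      refine UpOn.shift (-D.w k) H2 fun z hz => ⟨?_, F.Ab hu hz⟩
      rw [← F.e2, ← F.e1] at hz
      have := tri_prev2 hz
      rw [F.tri_h, F.e1, F.wa] at this
      have e : z + (-D.w k - D.w h) + D.w h = z + -D.w k := by abel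
      rw [e] at this
      exact TT_sub_QQ1 _ _ _ this
    by_cases k5 : k = c
    · subst k5
      refine UpOn.shift 0 H2 fun z hz => ⟨?_, F.Ac hu hz⟩
      rw [← F.e4] at hz
      have := F.tri_h' (tri_prev hz)
      rw [F.wh'] at this
      have e : z + -D.w h + D.w h = z + 0 := by abel
      rw [e] at this
      exact TT_sub_QQ2 _ _ _ this
    by_cases k6 : k = d
    · subst k6
      refine UpOn.shift (D.w c) H2 fun z hz => ⟨?_, F.Ad hu hz⟩
      rw [← F.e5, ← F.e4] at hz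
      have := F.tri_h' (tri_prev2 hz)
      rw [F.wh', F.e4] at this
      have e : z + D.w c + -D.w h + D.w h = z + D.w c := by abel
      rw [e] at this
      exact TT_sub_QQ2 _ _ _ this
    have := H k
    rw [F.tri_out k1 k2 k3 k4 k5 k6] at this
    refine UpOn.shift 0 this fun z hz => ⟨by rwa [add_zero], ?_⟩
    rw [uo k1 k2 k3 k4 k5 k6, add_zero]

end FD

lemma Tr_flip {D D' : Surf} (H : Flip D D') : Tr D D' := by
  obtain ⟨h, a, b, h', c, d, x, y, F⟩ := H.data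
  intro u hu
  exact ⟨_, F.K' hu, F.up_iff hu⟩

/-- flipping back -/
lemma Flip.back {D D' : Surf} (H : Flip D D') : ∃ D'', Relabel D D'' ∧ Flip D' D'' := by
  obtain ⟨h, a, b, h', c, d, x, y, F⟩ := H.data
  have hs1 : Equiv.swap h h' h = h' := Equiv.swap_apply_left h h'
  have hs2 : Equiv.swap h h' h' = h := Equiv.swap_apply_right h h'
  have hs3 : ∀ k, k ≠ h → k ≠ h' → Equiv.swap h h' k = k := fun k h1 h2 =>
    Equiv.swap_apply_of_ne_of_ne h1 h2
  have hsa := hs3 a F.ha.symm F.ah'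
  have hsb := hs3 b F.hb.symm F.bh'
  have hsc := hs3 c F.hc.symm F.h'c.symm
  have hsd := hs3 d F.hd.symm F.h'd.symm
  refine ⟨relab D (Equiv.swap h h') (fun _ => 1) (fun _ => one_pos) (fun _ => rfl),
    relabel_relab _ _ _ _ _, h, d, a, h', b, c, F.n1, F.n2, by rw [F.o, F.e3], F.n4, F.n5,
    by rw [F.w1, F.w2], ?_, ?_, ?_, ?_, ?_, ?_, ?_, ?_, ?_, ?_, ?_, ?_, ?_⟩
  · rw [F.w3 _ F.ha.symm F.ah', F.w3 _ F.hb.symm F.bh', ← F.e2]
    exact D.pos a
  · rw [F.w3 _ F.hc.symm F.h'c.symm, F.w3 _ F.hd.symm F.h'd.symm, ← F.e5]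
    exact D.pos c
  · rw [F.o]
    funext k
    show Equiv.swap h h' (D.opp ((Equiv.swap h h').symm k)) = D.opp k
    rw [Equiv.symm_swap]
    by_cases k1 : k = h
    · subst k1; rw [hs1, F.e8, hs1, F.e3]
    by_cases k2 : k = h'
    · subst k2; rw [hs2, F.e3, hs2, F.e8]
    rw [hs3 k k1 k2]
    obtain ⟨o1, o2⟩ := F.opp_out k1 k2
    exact hs3 _ o1 o2
  · show Equiv.swap h h' (D.nxt ((Equiv.swap h h').symm h)) = c
    rw [Equiv.symm_swap, hs1, F.e4, hsc]
  · show Equiv.swap h h' (D.nxt ((Equiv.swap h h').symm c)) = d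
    rw [Equiv.symm_swap, hsc, F.e5, hsd]
  · show Equiv.swap h h' (D.nxt ((Equiv.swap h h').symm d)) = h
    rw [Equiv.symm_swap, hsd, F.e7, hs2]
  · show Equiv.swap h h' (D.nxt ((Equiv.swap h h').symm h')) = a
    rw [Equiv.symm_swap, hs2, F.e1, hsa]
  · show Equiv.swap h h' (D.nxt ((Equiv.swap h h').symm a)) = b
    rw [Equiv.symm_swap, hsa, F.e2, hsb]
  · show Equiv.swap h h' (D.nxt ((Equiv.swap h h').symm b)) = h'
    rw [Equiv.symm_swap, hsb, F.e6, hs1]
  · intro k k1 k2 k3 k4 k5 k6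
    show Equiv.swap h h' (D.nxt ((Equiv.swap h h').symm k)) = D'.nxt k
    obtain ⟨q1, -, -, q4, -, -⟩ := F.nxt_out k1 k3 k5 k4 k6 k2
    rw [Equiv.symm_swap, hs3 k k1 k4, hs3 _ q1 q4, F.n7 k k1 k3 k5 k4 k6 k2]
  · show (1 : ℝ) • D.w ((Equiv.swap h h').symm h) = D'.w a + D'.w b
    rw [Equiv.symm_swap, hs1, one_smul, F.wh', F.w3 _ F.ha.symm F.ah', F.w3 _ F.hb.symm F.bh',
      F.wa]
    abel
  · show (1 : ℝ) • D.w ((Equiv.swap h h').symm h') = -(D'.w a + D'.w b)
    rw [Equiv.symm_swap, hs2, one_smul, F.w3 _ F.ha.symm F.ah', F.w3 _ F.hb.symm F.bh',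
      F.wa]
    abel
  · intro k k1 k2
    show (1 : ℝ) • D.w ((Equiv.swap h h').symm k) = D'.w k
    rw [Equiv.symm_swap, hs3 k k1 k2, one_smul, F.w3 k k1 k2]

lemma Tr_step {D D' : Surf} (H : Step D D') : Tr D D' ∧ Tr D' D := by
  rcases H with H | H
  · exact ⟨Tr_relabel H, Tr_relabel H.symm⟩
  · obtain ⟨D'', h1, h2⟩ := H.back
    exact ⟨Tr_flip H, (Tr_flip h2).trans (Tr_relabel h1.symm)⟩

lemma Tr_eqvGen {D D' : Surf} (H : Relation.EqvGen Step D D') : Tr D D' ∧ Tr D' D := by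
  induction H with
  | rel x y h => exact Tr_step h
  | refl x => exact ⟨Tr.refl x, Tr.refl x⟩
  | symm x y _ ih => exact ⟨ih.2, ih.1⟩
  | trans x y z _ _ ih1 ih2 => exact ⟨ih1.1.trans ih2.1, ih2.2.trans ih1.2⟩

end Pool.Agent.R193.DS
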