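import Pool.Agent.R193.DS.K

set_option autoImplicit false

open Set Filter Topology

namespace Pool.Agent.R193.DS

/-- the open triangle -/
def otri (D : Surf) (h : E) : Set V2 :=
  {z | ∃ s t : ℝ, 0 < s ∧ 0 < t ∧ s + t < 1 ∧ z = s • D.w h + t • (D.w h + D.w (D.nxt h))}

lemma otri_sub {D : Surf} {h : E} : otri D h ⊆ tri D h := by
  rintro z ⟨s, t, hs, ht, hst, rfl⟩
  exact ⟨s, t, hs.le, ht.le, hst.le, rfl⟩

lemma concave_zero {D : Surf} {h : E} {f : V2 → ℝ} (hf : ConcaveOn ℝ (tri D h) f)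
    (h0 : ∀ z ∈ tri D h, 0 ≤ f z) {z0 : V2} (hz0 : z0 ∈ otri D h) (hz : f z0 = 0) :
    ∀ z ∈ tri D h, f z = 0 := by
  intro z hzt
  have hz0t := otri_sub hz0
  obtain ⟨s, t, hs, ht, hst, rfl⟩ := hz0
  obtain ⟨s', t', hs', ht', hst', rfl⟩ := id hzt
  set e := min s (min t (1 - s - t)) with he
  have he0 : 0 < e := lt_min hs (lt_min ht (by linarith))
  have he1 : e ≤ s := min_le_left _ _
  have he2 : e ≤ t := (min_le_right _ _).trans (min_le_left _ _)
  have he3 : e ≤ 1 - s - t := (min_le_right _ _).trans (min_le_right _ _)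
  set w := D.w h
  set w' := D.w h + D.w (D.nxt h)
  have m : ((1 + e) * s - e * s') • w + ((1 + e) * t - e * t') • w' ∈ tri D h := by
    refine ⟨_, _, ?_, ?_, ?_, rfl⟩
    · nlinarith
    · nlinarith
    · nlinarith
  have h1 : (0 : ℝ) ≤ 1 / (1 + e) := by positivity
  have h2 : (0 : ℝ) ≤ e / (1 + e) := by positivity
  have h3 : 1 / (1 + e) + e / (1 + e) = 1 := by field_simp
  have := hf.2 m hzt h1 h2 h3
  have e1 : (1 / (1 + e)) • (((1 + e) * s - e * s') • w + ((1 + e) * t - e * t') • w') +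
      (e / (1 + e)) • (s' • w + t' • w') = s • w + t • w' := by
    have a1 : 1 / (1 + e) * ((1 + e) * s - e * s') + e / (1 + e) * s' = s := by field_simp; ring
    have a2 : 1 / (1 + e) * ((1 + e) * t - e * t') + e / (1 + e) * t' = t := by field_simp; ring
    have a3 : (1 / (1 + e)) • (((1 + e) * s - e * s') • w + ((1 + e) * t - e * t') • w') +
      (e / (1 + e)) • (s' • w + t' • w') = (1 / (1 + e) * ((1 + e) * s - e * s') + e / (1 + e) * s') • w
        + (1 / (1 + e) * ((1 + e) * t - e * t') + e / (1 + e) * t') • w' := by module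
    rw [a3, a1, a2]
  rw [e1, hz] at this
  simp only [smul_eq_mul] at this
  have h4 := h0 _ m
  have h5 := h0 _ hzt
  have h6 : 0 ≤ 1 / (1 + e) * f (((1 + e) * s - e * s') • w + ((1 + e) * t - e * t') • w') := by
    positivity
  have h7 : 0 < e / (1 + e) := by positivity
  have h8 : e / (1 + e) * f (s' • w + t' • w') ≤ 0 := by linarith
  have h9 : f (s' • w + t' • w') ≤ 0 := by
    by_contra hcon
    push Not at hcon
    have := mul_pos h7 hcon
    linarith
  exact le_antisymm h9 h5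

section

variable {D : Surf} {u : E → V2 → ℝ}

/-- values at the vertices -/
lemma K.vert (hu : K D u) {h : E} {r : ℝ} (hr : 0 < r) (e : D.w (D.opp h) = -(r • D.w h)) :
    u (D.nxt (D.opp h)) 0 = r * u h 0 := by
  have h1 := hu.turn (D.opp h) _ w_mem
  rw [sub_self] at h1
  have h2 := hu.glue h r hr e 0 le_rfl (by norm_num)
  rw [sub_zero, one_smul, zero_smul] at h2
  rw [h1, h2]

lemma K.at_w (hu : K D u) (h : E) : u h (D.w h) = u (D.nxt h) 0 := by
  have h1 := hu.turn h _ w_mem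
  rw [sub_self] at h1
  exact h1.symm

lemma K.vert2 (hu : K D u) {h : E} {r : ℝ} (hr : 0 < r) (e : D.w (D.opp h) = -(r • D.w h)) :
    u (D.opp h) 0 = r * u (D.nxt h) 0 := by
  have h2 := hu.glue h r hr e 1 (by norm_num) le_rfl
  rw [sub_self, one_smul, zero_smul, hu.at_w] at h2
  exact h2

/-- linear functional -/
def LL (g : ℝ) (w0 z : V2) : ℝ := g * det w0 z

lemma LL_add (g : ℝ) (w0 z z' : V2) : LL g w0 (z + z') = LL g w0 z + LL g w0 z' := by
  unfold LL; rw [det_add_right]; ring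
lemma LL_smul (g : ℝ) (w0 z : V2) (r : ℝ) : LL g w0 (r • z) = r * LL g w0 z := by
  unfold LL; rw [det_smul_right]; ring
lemma LL_neg (g : ℝ) (w0 z : V2) : LL g w0 (-z) = -LL g w0 z := by
  unfold LL; rw [det_neg_right]; ring
lemma LL_sub (g : ℝ) (w0 z z' : V2) : LL g w0 (z - z') = LL g w0 z - LL g w0 z' := by
  rw [sub_eq_add_neg, LL_add, LL_neg]; ring
lemma LL_zero (g : ℝ) (w0 : V2) : LL g w0 0 = 0 := by
  unfold LL det; simp

/-- defect from the affine function -/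
def FF (u : E → V2 → ℝ) (g : ℝ) (w0 : V2) (j : E) (z : V2) : ℝ := u j 0 + LL g w0 z - u j z

variable {g : ℝ} {w0 : V2}

lemma FF_zero (j : E) : FF u g w0 j 0 = 0 := by unfold FF; rw [LL_zero]; ring

lemma FF_turn (hu : K D u) {j : E} (H : u (D.nxt j) 0 = u j 0 + LL g w0 (D.w j)) {z : V2}
    (hz : z ∈ tri D j) : FF u g w0 (D.nxt j) (z - D.w j) = FF u g w0 j z := by
  unfold FF
  rw [hu.turn j z hz, LL_sub, H]; ring

lemma FF_concave (hu : K D u) (j : E) : ConcaveOn ℝ (tri D j) (FF u g w0 j) := by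
  refine ⟨tri_convex, ?_⟩
  intro p hp q hq a b ha hb hab
  have := (hu.conv j).2 hp hq ha hb hab
  unfold FF
  simp only [smul_eq_mul] at this ⊢
  rw [LL_add, LL_smul, LL_smul]
  have e : u j 0 = a * u j 0 + b * u j 0 := by rw [← add_mul, hab, one_mul]
  linarith

lemma FF_cont (hu : K D u) (j : E) : ContinuousOn (FF u g w0 j) (tri D j) := by
  unfold FF LL det
  refine ContinuousOn.sub ?_ (hu.cont j)
  fun_prop

lemma FF_nonneg (hu : K D u) {j : E} (H : u (D.nxt j) 0 = u j 0 + LL g w0 (D.w j))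
    (H' : u (D.nxt (D.nxt j)) 0 = u (D.nxt j) 0 + LL g w0 (D.w (D.nxt j))) {z : V2}
    (hz : z ∈ tri D j) : 0 ≤ FF u g w0 j z := by
  have hc := FF_concave (D := D) (g := g) (w0 := w0) hu j
  obtain ⟨s, t, hs, ht, hst, rfl⟩ := hz
  have a0 := FF_zero (u := u) (g := g) (w0 := w0) j
  have a1 : FF u g w0 j (D.w j) = 0 := by
    rw [← FF_turn hu H w_mem, sub_self, FF_zero]
  have a2 : FF u g w0 j (D.w j + D.w (D.nxt j)) = 0 := by
    rw [← FF_turn hu H apex_mem, add_sub_cancel_left, ← FF_turn hu H' w_mem, sub_self, FF_zero]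
  have hst0 : 0 ≤ s + t := by linarith
  rcases hst0.eq_or_lt with h0 | h0
  · have : s = 0 := by linarith
    have h2 : t = 0 := by linarith
    rw [this, h2, zero_smul, zero_smul, add_zero, a0]
  have h1 : s / (s + t) + t / (s + t) = 1 := by rw [← add_div, div_self h0.ne']
  have m1 := tri_convex (D := D) (h := j) w_mem apex_mem (show 0 ≤ s / (s + t) by positivity)
    (show 0 ≤ t / (s + t) by positivity) h1
  have b1 := hc.2 w_mem apex_mem (show 0 ≤ s / (s + t) by positivity)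
    (show 0 ≤ t / (s + t) by positivity) h1
  rw [a1, a2, smul_zero, smul_zero, add_zero] at b1
  have b2 := hc.2 zero_mem m1 (show 0 ≤ 1 - (s + t) by linarith) h0.le (by ring)
  rw [a0] at b2
  simp only [smul_eq_mul, mul_zero, smul_zero, zero_add] at b2
  have e : (s + t) • ((s / (s + t)) • D.w j + (t / (s + t)) • (D.w j + D.w (D.nxt j))) =
      s • D.w j + t • (D.w j + D.w (D.nxt j)) := by
    rw [smul_add, smul_smul, smul_smul, mul_div_cancel₀ _ h0.ne', mul_div_cancel₀ _ h0.ne']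
  rw [e] at b2
  refine le_trans ?_ b2
  positivity

lemma FF_bend (hu : K D u) {j : E} (H : u (D.nxt j) 0 = u j 0 + LL g w0 (D.w j)) {r : ℝ}
    (hr : 0 < r) (e : D.w (D.opp j) = -(r • D.w j)) {z z' : V2} (hz : z ∈ tri D j)
    (hz' : z' ∈ tri D (D.opp j)) {l t : ℝ} (hl0 : 0 < l) (hl1 : l < 1) (ht0 : 0 < t)
    (ht1 : t < 1) (heq : t • D.w j = (1 - l) • z + l • (D.w j + r⁻¹ • z')) :
    (1 - l) * FF u g w0 j z + l * (r⁻¹ * FF u g w0 (D.opp j) z') ≤
      FF u g w0 j (t • D.w j) := by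
  have h1 := hu.bend j r hr e z hz z' hz' l t hl0 hl1 ht0 ht1 heq
  have h2 := hu.vert2 hr e
  have h3 : LL g w0 (t • D.w j) = (1 - l) * LL g w0 z + l * (LL g w0 (D.w j) +
      r⁻¹ * LL g w0 z') := by
    rw [heq, LL_add, LL_smul, LL_smul, LL_add, LL_smul]
  unfold FF
  rw [h3, h2, H]
  have h4 : l * (r⁻¹ * (r * (u j 0 + LL g w0 (D.w j)) + LL g w0 z' - u (D.opp j) z')) =
      l * (u j 0 + LL g w0 (D.w j)) + l * (r⁻¹ * LL g w0 z') - l * (r⁻¹ * u (D.opp j) z') := by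
    field_simp
  rw [h4]
  linarith

/-- vanishing of the defect propagates across an edge -/
lemma FF_prop (hu : K D u) {j : E} (H : u (D.nxt j) 0 = u j 0 + LL g w0 (D.w j))
    (hz : ∀ z ∈ tri D j, FF u g w0 j z = 0)
    (hn : ∀ z ∈ tri D (D.opp j), 0 ≤ FF u g w0 (D.opp j) z) :
    ∀ z ∈ tri D (D.opp j), FF u g w0 (D.opp j) z = 0 := by
  obtain ⟨r, hr, e⟩ := D.glue j
  set k := D.opp j with hk
  set c' : V2 := (1 / 3 : ℝ) • D.w k + (1 / 3 : ℝ) • (D.w k + D.w (D.nxt k)) with hc'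
  have hc'o : c' ∈ otri D k := ⟨1 / 3, 1 / 3, by norm_num, by norm_num, by norm_num, rfl⟩
  have hwk : r⁻¹ • D.w k = -D.w j := by
    rw [e, smul_neg, smul_smul, inv_mul_cancel₀ hr.ne', one_smul]
  have hd : 0 ≤ det (D.w j) (-(r⁻¹ • c')) := by
    have h1 := det_nonneg_of_mem (otri_sub hc'o)
    have h2 : D.w j = -(r⁻¹ • D.w k) := by rw [hwk, neg_neg]
    rw [h2, det_neg_left, det_neg_right, neg_neg, det_smul_left, det_smul_right]
    have : 0 < r⁻¹ := inv_pos.2 hr
    positivity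
  obtain ⟨e₀, he0, he1, Hn⟩ := near D j (t := 1 / 2) (by norm_num) (by norm_num) hd
  have m1 := Hn e₀ he0.le le_rfl
  have m2 : (1 - e₀) • ((1 / 2 : ℝ) • D.w k) + e₀ • c' ∈ otri D k := by
    refine ⟨(1 - e₀) * (1 / 2) + e₀ * (1 / 3), e₀ * (1 / 3), by nlinarith, by positivity,
      by nlinarith, ?_⟩
    rw [hc']
    module
  have hb := FF_bend hu H hr e m1 (otri_sub m2) (l := 1 / 2) (t := 1 / 2) (by norm_num)
    (by norm_num) (by norm_num) (by norm_num) (by
      have e1 : (1 - (1 / 2 : ℝ)) • ((1 - e₀) • (1 / 2 : ℝ) • D.w j + e₀ • -(r⁻¹ • c')) +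
          (1 / 2 : ℝ) • (D.w j + r⁻¹ • ((1 - e₀) • (1 / 2 : ℝ) • D.w k + e₀ • c')) =
          ((1 - e₀) / 4) • D.w j + (1 / 2 : ℝ) • D.w j + ((1 - e₀) / 4) • (r⁻¹ • D.w k) := by
        module
      rw [e1, hwk]
      module)
  rw [hz _ m1, hz _ (edge_mem (by norm_num) (by norm_num)), ← hk] at hb
  have h5 := hn _ (otri_sub m2)
  have hri : 0 < r⁻¹ := inv_pos.2 hr
  refine concave_zero (FF_concave hu k) hn m2 (le_antisymm ?_ h5)
  by_contra hcon
  push Not at hcon
  have : 0 < 1 / 2 * (r⁻¹ * FF u g w0 k ((1 - e₀) • (1 / 2 : ℝ) • D.w k + e₀ • c')) := by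
    positivity
  linarith

end

end Pool.Agent.R193.DS
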