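import Pool.Agent.R193.DS.Half

set_option autoImplicit false

open Set Filter Topology

namespace Pool.Agent.R193.DS

/-- the pattern of one half of the surface -/
structure HP (D : Surf) (i0 i1 i2 i3 i4 i5 i6 i7 i8 : E) (r1 r2 r4 r5 : ℝ) : Prop where
  n0 : D.nxt i0 = i1
  n1 : D.nxt i1 = i2
  n2 : D.nxt i2 = i0
  n3 : D.nxt i3 = i4
  n4 : D.nxt i4 = i5
  n5 : D.nxt i5 = i3
  n6 : D.nxt i6 = i7
  n7 : D.nxt i7 = i8
  n8 : D.nxt i8 = i6
  o1 : D.opp i1 = i6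
  o2 : D.opp i2 = i3
  o4 : D.opp i4 = i7
  o5 : D.opp i5 = i8
  h1 : 0 < r1
  h2 : 0 < r2
  h4 : 0 < r4
  h5 : 0 < r5
  g1 : D.w i6 = -(r1 • D.w i1)
  g2 : D.w i3 = -(r2 • D.w i2)
  g4 : D.w i7 = -(r4 • D.w i4)
  g5 : D.w i8 = -(r5 • D.w i5)
  lt : r4 < r5
  refl : 0 < det (D.w i0) (D.w i5)

section

variable {D : Surf} {u : E → V2 → ℝ} {i0 i1 i2 i3 i4 i5 i6 i7 i8 : E} {r1 r2 r4 r5 : ℝ}

/-- the values at the vertices -/
lemma HP.values (P : HP D i0 i1 i2 i3 i4 i5 i6 i7 i8 r1 r2 r4 r5) (hu : K D u) :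
    u i1 0 = u i0 0 ∧ u i2 0 = r5 / r4 * u i0 0 ∧ u i3 0 = r2 * u i0 0 ∧
    u i4 0 = r2 * r5 / r4 * u i0 0 ∧ u i5 0 = r1 / r4 * u i0 0 ∧
    u i6 0 = r1 * r5 / r4 * u i0 0 ∧ u i7 0 = r1 * u i0 0 ∧ u i8 0 = r2 * r5 * u i0 0 := by
  have a1 := hu.vert P.h1 (h := i1) (by rw [P.o1, P.g1])
  have b1 := hu.vert2 P.h1 (h := i1) (by rw [P.o1, P.g1])
  have a2 := hu.vert P.h2 (h := i2) (by rw [P.o2, P.g2])
  have b2 := hu.vert2 P.h2 (h := i2) (by rw [P.o2, P.g2])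
  have a4 := hu.vert P.h4 (h := i4) (by rw [P.o4, P.g4])
  have b4 := hu.vert2 P.h4 (h := i4) (by rw [P.o4, P.g4])
  have a5 := hu.vert P.h5 (h := i5) (by rw [P.o5, P.g5])
  have b5 := hu.vert2 P.h5 (h := i5) (by rw [P.o5, P.g5])
  rw [P.o1, P.n6] at a1
  rw [P.o1, P.n1] at b1
  rw [P.o2, P.n3] at a2
  rw [P.o2, P.n2] at b2
  rw [P.o4, P.n7] at a4
  rw [P.o4, P.n4] at b4
  rw [P.o5, P.n8] at a5
  rw [P.o5, P.n5] at b5
  have h1 := P.h1
  have h2 := P.h2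
  have h4 := P.h4
  have h5 := P.h5
  -- `u i2 0 = r5 / r4 * u i0 0`
  have e1 : r4 * (r2 * u i2 0) = r5 * (r2 * u i0 0) := by rw [← a2, ← a4, b5, b2]
  have e2 : u i2 0 = r5 / r4 * u i0 0 := by
    have : r2 * (r4 * u i2 0) = r2 * (r5 * u i0 0) := by linarith
    have := mul_left_cancel₀ h2.ne' this
    field_simp
    linarith
  have e3 : u i5 0 = r1 / r4 * u i1 0 := by
    have : r4 * u i5 0 = r1 * u i1 0 := by rw [← a1, b4]
    field_simp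
    linarith
  have e4 : u i1 0 = u i0 0 := by
    have h7 : r1 * u i2 0 = r5 * (r1 / r4 * u i1 0) := by rw [← e3, ← a5, b1]
    rw [e2] at h7
    have h8 : (r1 * r5 / r4) * u i1 0 = (r1 * r5 / r4) * u i0 0 := by
      have : r5 * (r1 / r4 * u i1 0) = (r1 * r5 / r4) * u i1 0 := by ring
      rw [← this, ← h7]; ring
    exact mul_left_cancel₀ (by positivity) h8
  refine ⟨e4, e2, b2, ?_, ?_, ?_, ?_, ?_⟩
  · rw [a2, e2]; ring
  · rw [e3, e4]
  · rw [b1, e2]; ring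
  · rw [a1, e4]
  · rw [b5, b2]; ring

/-- the slope -/
noncomputable def gg (D : Surf) (i0 i1 : E) (r4 r5 c : ℝ) : ℝ :=
  c * (r5 / r4 - 1) / det (D.w i0) (D.w i1)

/-- the affine relations -/
lemma HP.aff (P : HP D i0 i1 i2 i3 i4 i5 i6 i7 i8 r1 r2 r4 r5) {S : E → ℝ} {c : ℝ}
    (s0 : S i0 = c) (s1 : S i1 = c) (s2 : S i2 = r5 / r4 * c) (s3 : S i3 = r2 * c)
    (s4 : S i4 = r2 * r5 / r4 * c) (s5 : S i5 = r1 / r4 * c) (s6 : S i6 = r1 * r5 / r4 * c)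
    (s7 : S i7 = r1 * c) (s8 : S i8 = r2 * r5 * c) :
    let L := LL (gg D i0 i1 r4 r5 c) (D.w i0)
    S i1 = S i0 + L (D.w i0) ∧ S i2 = S i1 + L (D.w i1) ∧ S i0 = S i2 + L (D.w i2) ∧
    S i4 = S i3 + L (D.w i3) ∧ S i5 = S i4 + L (D.w i4) ∧ S i3 = S i5 + L (D.w i5) ∧
    S i7 = S i6 + L (D.w i6) ∧ S i8 = S i7 + L (D.w i7) ∧ S i6 = S i8 + L (D.w i8) := by
  intro L
  have h1 := P.h1
  have h2 := P.h2
  have h4 := P.h4
  have h5 := P.h5
  have hp := D.pos i0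
  rw [P.n0] at hp
  have l0 : L (D.w i0) = 0 := by
    show LL _ _ _ = _
    unfold LL; rw [det_self, mul_zero]
  have l1 : L (D.w i1) = (r5 / r4 - 1) * c := by
    show LL _ _ _ = _
    unfold LL gg; field_simp
  have w2 : D.w i2 = -(D.w i0 + D.w i1) := by
    have := D.w_nn i0
    rwa [P.n0, P.n1] at this
  have l2 : L (D.w i2) = -((r5 / r4 - 1) * c) := by
    rw [w2]
    show LL _ _ _ = _
    rw [LL_neg, LL_add]
    show -(L (D.w i0) + L (D.w i1)) = _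
    rw [l0, l1, zero_add]
  have l3 : L (D.w i3) = r2 * ((r5 / r4 - 1) * c) := by
    rw [P.g2]
    show LL _ _ _ = _
    rw [LL_neg, LL_smul]
    show -(r2 * L (D.w i2)) = _
    rw [l2]; ring
  have l6 : L (D.w i6) = -(r1 * ((r5 / r4 - 1) * c)) := by
    rw [P.g1]
    show LL _ _ _ = _
    rw [LL_neg, LL_smul]
    show -(r1 * L (D.w i1)) = _
    rw [l1]
  have l7 : L (D.w i7) = -(r4 * L (D.w i4)) := by
    rw [P.g4]
    show LL _ _ _ = _
    rw [LL_neg, LL_smul]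
  have l8 : L (D.w i8) = -(r5 * L (D.w i5)) := by
    rw [P.g5]
    show LL _ _ _ = _
    rw [LL_neg, LL_smul]
  have l5' : L (D.w i5) = -(L (D.w i3) + L (D.w i4)) := by
    have := D.w_nn i3
    rw [P.n3, P.n4] at this
    rw [this]
    show LL _ _ _ = _
    rw [LL_neg, LL_add]
  have l8' : L (D.w i8) = -(L (D.w i6) + L (D.w i7)) := by
    have := D.w_nn i6
    rw [P.n6, P.n7] at this
    rw [this]
    show LL _ _ _ = _
    rw [LL_neg, LL_add]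
  -- solve for `L (w i5)`
  have hne : r5 - r4 ≠ 0 := by have := P.lt; exact (by linarith : (0:ℝ) < r5 - r4).ne'
  have l4' : L (D.w i4) = -(L (D.w i3) + L (D.w i5)) := by rw [l5']; ring
  have l5 : L (D.w i5) = (r2 - r1 / r4) * c := by
    have e1 : r5 * L (D.w i5) = L (D.w i6) - r4 * L (D.w i4) := by
      have : -(r5 * L (D.w i5)) = -(L (D.w i6) + -(r4 * L (D.w i4))) := by rw [← l8, l8', l7]
      linarith
    rw [l4', l3, l6] at e1
    have e2 : (r5 - r4) * L (D.w i5) = (r5 - r4) * ((r2 - r1 / r4) * c) := by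
      have : r5 * L (D.w i5) - r4 * L (D.w i5) =
        -(r1 * ((r5 / r4 - 1) * c)) + r4 * (r2 * ((r5 / r4 - 1) * c)) := by rw [e1]; ring
      have e3 : (r5 - r4) * L (D.w i5) = r5 * L (D.w i5) - r4 * L (D.w i5) := by ring
      rw [e3, this]
      field_simp
      ring
    exact mul_left_cancel₀ hne e2
  have l4 : L (D.w i4) = (r1 / r4 - r2 * r5 / r4) * c := by
    rw [l4', l3, l5]; field_simp; ring
  refine ⟨?_, ?_, ?_, ?_, ?_, ?_, ?_, ?_, ?_⟩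
  · rw [s1, s0, l0, add_zero]
  · rw [s2, s1, l1]; ring
  · rw [s0, s2, l2]; ring
  · rw [s4, s3, l3]; ring
  · rw [s5, s4, l4]; ring
  · rw [s3, s5, l5]; ring
  · rw [s7, s6, l6]; ring
  · rw [s8, s7, l7, l4]; field_simp; ring
  · rw [s6, s8, l8, l5]; field_simp; ring

end

end Pool.Agent.R193.DS
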