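import Pool.Agent.R193.DS.Half2

set_option autoImplicit false

open Set Filter Topology

namespace Pool.Agent.R193.DS

section

variable {D : Surf} {u : E → V2 → ℝ} {i0 i1 i2 i3 i4 i5 i6 i7 i8 : E} {r1 r2 r4 r5 : ℝ}

/-- the limit argument at the vertex -/
lemma HP.zero (P : HP D i0 i1 i2 i3 i4 i5 i6 i7 i8 r1 r2 r4 r5) (hu : K D u) {g : ℝ} {w0 : V2}
    (H3 : u (D.nxt i3) 0 = u i3 0 + LL g w0 (D.w i3))
    (H2 : u (D.nxt i2) 0 = u i2 0 + LL g w0 (D.w i2))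
    (p0 : ∀ z ∈ tri D i0, 0 ≤ FF u g w0 i0 z) (p3 : ∀ z ∈ tri D i3, 0 ≤ FF u g w0 i3 z) :
    (∃ z ∈ otri D i3, FF u g w0 i3 z = 0) ∧ ∃ z ∈ otri D i0, FF u g w0 i0 z = 0 := by
  have h2 := P.h2
  set r := r2⁻¹ with hr
  have hr0 : 0 < r := inv_pos.2 h2
  have hopp : D.opp i3 = i2 := by rw [← P.o2, D.opp2]
  have hw2 : D.w (D.opp i3) = -(r • D.w i3) := by
    rw [hopp, P.g2, smul_neg, neg_neg, smul_smul, hr, inv_mul_cancel₀ h2.ne', one_smul]
  have hw2' : D.w i2 = -(r • D.w i3) := by rw [← hopp, hw2]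
  have hw2r : r⁻¹ • D.w i2 = -D.w i3 := by
    rw [hw2', smul_neg, smul_smul, inv_mul_cancel₀ hr0.ne', one_smul]
  -- `w i4`, `w i1`
  have hw34 : D.w i3 + D.w i4 = -D.w i5 := by
    have := D.closed i3
    rw [P.n3, P.n4] at this
    exact eq_neg_of_add_eq_zero_left this
  have hw01 : D.w i0 + D.w i1 = -D.w i2 := by
    have := D.closed i0
    rw [P.n0, P.n1] at this
    exact eq_neg_of_add_eq_zero_left this
  have d35 : det (D.w i3) (D.w i5) < 0 := by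
    have h3 := D.pos i3
    have h4 := D.det_nn i3
    rw [P.n3, P.n4] at h4
    rw [P.n3] at h3
    linarith
  have d30 : det (D.w i3) (D.w i0) < 0 := by
    have h3 := D.pos i2
    rw [P.n2, hw2', det_neg_left, det_smul_left] at h3
    by_contra hcon
    push Not at hcon
    have := mul_nonneg hr0.le hcon
    linarith
  have d05 := P.refl
  set α := -det (D.w i0) (D.w i5) / det (D.w i3) (D.w i5) with hα
  set β := det (D.w i3) (D.w i0) / det (D.w i3) (D.w i5) with hβ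
  have hα0 : 0 < α := div_pos_of_neg_of_neg (by linarith) d35
  have hβ0 : 0 < β := div_pos_of_neg_of_neg d30 d35
  have hexp : -D.w i0 = α • D.w i3 - β • D.w i5 := by
    have h1 := expand d35.ne (D.w i0)
    have e1 : α = -(det (D.w i0) (D.w i5) / det (D.w i3) (D.w i5)) := by rw [hα]; ring
    rw [e1]
    conv_lhs => rw [h1]
    module
  set M := 1 + r⁻¹ * (α + β) with hM
  have hri : 0 < r⁻¹ := inv_pos.2 hr0
  have hM1 : 1 ≤ M := by
    have : 0 ≤ r⁻¹ * (α + β) := by positivity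
    linarith
  have hM0 : 0 < M := by linarith
  set σ := 1 / (2 * M) with hσ
  have hσ0 : 0 < σ := by positivity
  have hσM : σ * M = 1 / 2 := by rw [hσ]; field_simp
  set τ := r⁻¹ * σ * α / 2 with hτ
  have hτ0 : 0 < τ := by positivity
  have hb0 : 0 < r⁻¹ * σ * β := by positivity
  have s1 : σ + τ ≤ 1 / 2 := by
    have : σ * M = σ + 2 * τ + r⁻¹ * σ * β := by rw [hM, hτ]; ring
    linarith
  have s2 : τ + r⁻¹ * σ * β ≤ 1 / 2 := by
    have : σ * M = σ + 2 * τ + r⁻¹ * σ * β := by rw [hM, hτ]; ring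
    linarith
  -- the points
  have m0 : ∀ ε : ℝ, 0 ≤ ε → ε ≤ 1 / 2 → σ • D.w i0 - (τ + ε) • D.w i2 ∈ tri D i0 := by
    intro ε h0 h1
    refine ⟨σ, τ + ε, hσ0.le, by linarith, by linarith, ?_⟩
    rw [P.n0, hw01]; module
  have m3 : ∀ ε : ℝ, 0 ≤ ε → ε ≤ 1 / 2 →
      (τ + ε) • D.w i3 - (r⁻¹ * σ * β) • D.w i5 ∈ tri D i3 := by
    intro ε h0 h1
    refine ⟨τ + ε, r⁻¹ * σ * β, by linarith, hb0.le, by linarith, ?_⟩
    rw [P.n3, hw34]; module
  have m3' : ∀ ε : ℝ, 0 ≤ ε → ε ≤ 1 / 2 → ε • D.w i3 ∈ tri D i3 := by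
    intro ε h0 h1
    exact edge_mem h0 (by linarith)
  have hq : (τ + 0) • D.w i3 - (r⁻¹ * σ * β) • D.w i5 = -(r⁻¹ • (σ • D.w i0 - τ • D.w i2)) := by
    have e1 : -(r⁻¹ • (σ • D.w i0 - τ • D.w i2)) = (r⁻¹ * σ) • (-D.w i0) + τ • (r⁻¹ • D.w i2) := by
      module
    rw [e1, hexp, hw2r]
    have e2 : r⁻¹ * σ * α = 2 * τ := by rw [hτ]; ring
    have e3 : (r⁻¹ * σ) • (α • D.w i3 - β • D.w i5) = (r⁻¹ * σ * α) • D.w i3 -
      (r⁻¹ * σ * β) • D.w i5 := by module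
    rw [e3, e2]
    module
  -- the inequality for positive `ε`
  have key : ∀ ε ∈ Ioc (0 : ℝ) (1 / 2),
      1 / 2 * FF u g w0 i3 ((τ + ε) • D.w i3 - (r⁻¹ * σ * β) • D.w i5) +
      1 / 2 * (r⁻¹ * FF u g w0 i0 (σ • D.w i0 - (τ + ε) • D.w i2)) ≤
      FF u g w0 i3 (ε • D.w i3) := by
    rintro ε ⟨h0, h1⟩
    have hm0 := m0 ε h0.le h1
    have hm2 : σ • D.w i0 - (τ + ε) • D.w i2 + D.w i2 ∈ tri D i2 :=
      tri_prev (by rw [P.n2]; exact hm0)
    have ht := FF_turn hu H2 hm2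
    rw [P.n2, add_sub_cancel_right] at ht
    have := FF_bend hu H3 hr0 hw2 (m3 ε h0.le h1) (by rw [hopp]; exact hm2) (l := 1 / 2)
      (t := ε) (by norm_num) (by norm_num) h0 (by linarith) (by
        have e1 : (1 - (1 / 2 : ℝ)) • ((τ + ε) • D.w i3 - (r⁻¹ * σ * β) • D.w i5) +
            (1 / 2 : ℝ) • (D.w i3 + r⁻¹ • (σ • D.w i0 - (τ + ε) • D.w i2 + D.w i2)) =
            (1 / 2 : ℝ) • ((τ + 0) • D.w i3 - (r⁻¹ * σ * β) • D.w i5) +
            (1 / 2 : ℝ) • (r⁻¹ • (σ • D.w i0 - τ • D.w i2)) + ((1 + ε) / 2) • D.w i3 +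
            ((1 - ε) / 2) • (r⁻¹ • D.w i2) := by
          module
        rw [e1, hq, hw2r]
        module)
    rw [hopp, ← ht] at this
    linarith
  -- the limit
  have hcl : (0 : ℝ) ∈ closure (Ioc (0 : ℝ) (1 / 2)) := by
    rw [closure_Ioc (by norm_num)]
    exact ⟨le_rfl, by norm_num⟩
  have C1 : ContinuousOn (fun ε : ℝ => FF u g w0 i3 ((τ + ε) • D.w i3 - (r⁻¹ * σ * β) • D.w i5))
      (Icc 0 (1 / 2)) :=
    (FF_cont hu i3).comp (by fun_prop) (fun ε hε => m3 ε hε.1 hε.2)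
  have C2 : ContinuousOn (fun ε : ℝ => FF u g w0 i0 (σ • D.w i0 - (τ + ε) • D.w i2))
      (Icc 0 (1 / 2)) :=
    (FF_cont hu i0).comp (by fun_prop) (fun ε hε => m0 ε hε.1 hε.2)
  have C3 : ContinuousOn (fun ε : ℝ => FF u g w0 i3 (ε • D.w i3)) (Icc 0 (1 / 2)) :=
    (FF_cont hu i3).comp (by fun_prop) (fun ε hε => m3' ε hε.1 hε.2)
  have h0m : (0 : ℝ) ∈ Icc (0 : ℝ) (1 / 2) := ⟨le_rfl, by norm_num⟩
  have CL : ContinuousWithinAt (fun ε : ℝ =>
      1 / 2 * FF u g w0 i3 ((τ + ε) • D.w i3 - (r⁻¹ * σ * β) • D.w i5) +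
      1 / 2 * (r⁻¹ * FF u g w0 i0 (σ • D.w i0 - (τ + ε) • D.w i2))) (Ioc 0 (1 / 2)) 0 :=
    ((continuousWithinAt_const.mul (C1 0 h0m)).add
      (continuousWithinAt_const.mul (continuousWithinAt_const.mul (C2 0 h0m)))).mono
      Ioc_subset_Icc_self
  have lim := CL.closure_le hcl ((C3 0 h0m).mono Ioc_subset_Icc_self) key
  simp only [add_zero] at lim
  rw [zero_smul, FF_zero] at lim
  have n3 := m3 0 le_rfl (by norm_num)
  have n0 := m0 0 le_rfl (by norm_num)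
  rw [add_zero] at n3 n0
  have q3 := p3 _ n3
  have q0 := p0 _ n0
  have q0' : 0 ≤ r⁻¹ * FF u g w0 i0 (σ • D.w i0 - τ • D.w i2) := by positivity
  refine ⟨⟨_, ?_, le_antisymm (by linarith) q3⟩, ⟨_, ?_, le_antisymm ?_ q0⟩⟩
  · refine ⟨τ, r⁻¹ * σ * β, hτ0, hb0, by linarith, ?_⟩
    rw [P.n3, hw34]; module
  · refine ⟨σ, τ, hσ0, hτ0, by linarith, ?_⟩
    rw [P.n0, hw01]; module
  · by_contra hcon
    push Not at hcon
    have : 0 < r⁻¹ * FF u g w0 i0 (σ • D.w i0 - τ • D.w i2) := by positivity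
    linarith

/-- positive equivariant locally convex functions are affine on each half -/
theorem HP.half (P : HP D i0 i1 i2 i3 i4 i5 i6 i7 i8 r1 r2 r4 r5) (hu : K D u) :
    ∀ j, (j = i0 ∨ j = i1 ∨ j = i2 ∨ j = i3 ∨ j = i4 ∨ j = i5 ∨ j = i6 ∨ j = i7 ∨ j = i8) →
    ∀ z ∈ tri D j, u j z = u j 0 + LL (gg D i0 i1 r4 r5 (u i0 0)) (D.w i0) z := by
  obtain ⟨s1, s2, s3, s4, s5, s6, s7, s8⟩ := P.values hu
  obtain ⟨t0, t1, t2, t3, t4, t5, t6, t7, t8⟩ :=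
    P.aff (S := fun j => u j 0) (c := u i0 0) rfl s1 s2 s3 s4 s5 s6 s7 s8
  set g := gg D i0 i1 r4 r5 (u i0 0)
  set w0 := D.w i0 with hw0
  have H0 : u (D.nxt i0) 0 = u i0 0 + LL g w0 (D.w i0) := by rw [P.n0]; exact t0
  have H1 : u (D.nxt i1) 0 = u i1 0 + LL g w0 (D.w i1) := by rw [P.n1]; exact t1
  have H2 : u (D.nxt i2) 0 = u i2 0 + LL g w0 (D.w i2) := by rw [P.n2]; exact t2
  have H3 : u (D.nxt i3) 0 = u i3 0 + LL g w0 (D.w i3) := by rw [P.n3]; exact t3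
  have H4 : u (D.nxt i4) 0 = u i4 0 + LL g w0 (D.w i4) := by rw [P.n4]; exact t4
  have H5 : u (D.nxt i5) 0 = u i5 0 + LL g w0 (D.w i5) := by rw [P.n5]; exact t5
  have H6 : u (D.nxt i6) 0 = u i6 0 + LL g w0 (D.w i6) := by rw [P.n6]; exact t6
  have H7 : u (D.nxt i7) 0 = u i7 0 + LL g w0 (D.w i7) := by rw [P.n7]; exact t7
  have H8 : u (D.nxt i8) 0 = u i8 0 + LL g w0 (D.w i8) := by rw [P.n8]; exact t8
  have p0 : ∀ z ∈ tri D i0, 0 ≤ FF u g w0 i0 z := fun z hz =>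
    FF_nonneg hu H0 (by rw [P.n0]; exact H1) hz
  have p3 : ∀ z ∈ tri D i3, 0 ≤ FF u g w0 i3 z := fun z hz =>
    FF_nonneg hu H3 (by rw [P.n3]; exact H4) hz
  have p8 : ∀ z ∈ tri D i8, 0 ≤ FF u g w0 i8 z := fun z hz =>
    FF_nonneg hu H8 (by rw [P.n8]; exact H6) hz
  obtain ⟨⟨z3, m3, e3⟩, ⟨z0, m0, e0⟩⟩ := P.zero hu H3 H2 p0 p3
  have v0 := concave_zero (FF_concave hu i0) p0 m0 e0
  have v3 := concave_zero (FF_concave hu i3) p3 m3 e3
  have step : ∀ {j k : E}, D.nxt j = k → u (D.nxt j) 0 = u j 0 + LL g w0 (D.w j) →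
      (∀ z ∈ tri D j, FF u g w0 j z = 0) → ∀ z ∈ tri D k, FF u g w0 k z = 0 := by
    intro j k hjk H hz z hzk
    rw [← hjk] at hzk
    have h1 := tri_prev hzk
    have h2 := FF_turn hu H h1
    rw [add_sub_cancel_right, hjk] at h2
    rw [h2]
    exact hz _ h1
  have v1 := step P.n0 H0 v0
  have v2 := step P.n1 H1 v1
  have v4 := step P.n3 H3 v3
  have v5 := step P.n4 H4 v4
  have v8 : ∀ z ∈ tri D i8, FF u g w0 i8 z = 0 := by
    have := FF_prop hu H5 v5 (by rw [P.o5]; exact p8)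
    rwa [P.o5] at this
  have v6 := step P.n8 H8 v8
  have v7 := step P.n6 H6 v6
  intro j hj z hz
  have : FF u g w0 j z = 0 := by
    rcases hj with rfl | rfl | rfl | rfl | rfl | rfl | rfl | rfl | rfl
    · exact v0 z hz
    · exact v1 z hz
    · exact v2 z hz
    · exact v3 z hz
    · exact v4 z hz
    · exact v5 z hz
    · exact v6 z hz
    · exact v7 z hz
    · exact v8 z hz
  unfold FF at this
  linarith

end

end Pool.Agent.R193.DS
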