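import Pool.Agent.R193.DS.Quad

set_option autoImplicit false

open Set Filter Topology

namespace Pool.Agent.R193.DS

/-- Positive equivariant continuous locally convex functions on the surface `D`. -/
structure K (D : Surf) (u : E → V2 → ℝ) : Prop where
  cont : ∀ h, ContinuousOn (u h) (tri D h)
  conv : ∀ h, ConvexOn ℝ (tri D h) (u h)
  pos : ∀ h, 0 < u h 0
  turn : ∀ h, ∀ z ∈ tri D h, u (D.nxt h) (z - D.w h) = u h z
  glue : ∀ h, ∀ r : ℝ, 0 < r → D.w (D.opp h) = -(r • D.w h) → ∀ t : ℝ, 0 ≤ t → t ≤ 1 →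
    u (D.opp h) ((1 - t) • D.w (D.opp h)) = r * u h (t • D.w h)
  bend : ∀ h, ∀ r : ℝ, 0 < r → D.w (D.opp h) = -(r • D.w h) → ∀ z ∈ tri D h,
    ∀ z' ∈ tri D (D.opp h), ∀ l t : ℝ, 0 < l → l < 1 → 0 < t → t < 1 →
    t • D.w h = (1 - l) • z + l • (D.w h + r⁻¹ • z') →
    u h (t • D.w h) ≤ (1 - l) * u h z + l * (r⁻¹ * u (D.opp h) z')

/-- slope at most `m` in the direction `v` -/
def UpOn (S : Set V2) (f : V2 → ℝ) (v : V2) (m : ℝ) : Prop :=
  ∀ z ∈ S, ∀ s : ℝ, 0 ≤ s → z + s • v ∈ S → f (z + s • v) ≤ f z + s * m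

/-- slope at most `m` in the direction `v` in all triangles -/
def Up (D : Surf) (u : E → V2 → ℝ) (v : V2) (m : ℝ) : Prop := ∀ h, UpOn (tri D h) (u h) v m

/-- the functions of `D` can be transported to `D'` -/
def Tr (D D' : Surf) : Prop :=
  ∀ u, K D u → ∃ u', K D' u' ∧ ∀ v m, (Up D u v m ↔ Up D' u' v m)

lemma Tr.refl (D : Surf) : Tr D D := fun u hu => ⟨u, hu, fun _ _ => Iff.rfl⟩

lemma Tr.trans {D D' D'' : Surf} (h : Tr D D') (h' : Tr D' D'') : Tr D D'' := by
  intro u hu
  obtain ⟨u', hu', e'⟩ := h u hu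
  obtain ⟨u'', hu'', e''⟩ := h' u' hu'
  exact ⟨u'', hu'', fun v m => (e' v m).trans (e'' v m)⟩

/-- relabelling -/
def relab (D : Surf) (φ : Equiv.Perm E) (c : E → ℝ) (hc : ∀ h, 0 < c h)
    (hn : ∀ h, c (D.nxt h) = c h) : Surf where
  nxt h := φ (D.nxt (φ.symm h))
  opp h := φ (D.opp (φ.symm h))
  w h := c (φ.symm h) • D.w (φ.symm h)
  nxt3 h := by simp [D.nxt3]
  nxt_ne h := by
    intro e
    apply D.nxt_ne (φ.symm h)
    apply φ.injective
    rw [e, Equiv.apply_symm_apply]
  opp2 h := by simp [D.opp2]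
  opp_ne h := by
    intro e
    apply D.opp_ne (φ.symm h)
    apply φ.injective
    rw [e, Equiv.apply_symm_apply]
  closed h := by
    simp only [Equiv.symm_apply_apply, hn]
    rw [← smul_add, ← smul_add, D.closed, smul_zero]
  pos h := by
    simp only [Equiv.symm_apply_apply, hn]
    rw [det_smul_left, det_smul_right]
    have := D.pos (φ.symm h)
    have := hc (φ.symm h)
    positivity
  glue h := by
    obtain ⟨r, hr, e⟩ := D.glue (φ.symm h)
    simp only [Equiv.symm_apply_apply]
    have h1 := hc (φ.symm h)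
    have h2 := hc (D.opp (φ.symm h))
    refine ⟨c (D.opp (φ.symm h)) * r / c (φ.symm h), by positivity, ?_⟩
    rw [e, smul_smul, div_mul_cancel₀ _ h1.ne', smul_neg, smul_smul]
  one h h' := by
    obtain ⟨n, e⟩ := D.one (φ.symm h) (φ.symm h')
    refine ⟨n, ?_⟩
    have : ∀ k : ℕ, (fun x => φ (D.nxt (φ.symm (φ (D.opp (φ.symm x))))))^[k] h =
        φ ((fun x => D.nxt (D.opp x))^[k] (φ.symm h)) := by
      intro k
      induction k with
      | zero => simp
      | succ k ih =>
        rw [Function.iterate_succ_apply', Function.iterate_succ_apply', ih]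
        simp
    rw [this, e, Equiv.apply_symm_apply]

lemma relabel_relab (D : Surf) (φ : Equiv.Perm E) (c : E → ℝ) (hc : ∀ h, 0 < c h)
    (hn : ∀ h, c (D.nxt h) = c h) : Relabel D (relab D φ c hc hn) :=
  ⟨φ, c, hc, hn, fun h => by simp [relab], fun h => by simp [relab], fun h => by simp [relab]⟩

lemma Relabel.symm {D D' : Surf} (h : Relabel D D') : Relabel D' D := by
  obtain ⟨φ, c, hc, hn, e1, e2, e3⟩ := h
  refine ⟨φ.symm, fun h => (c (φ.symm h))⁻¹, fun h => inv_pos.2 (hc _), ?_, ?_, ?_, ?_⟩
  · intro h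
    have : φ.symm (D'.nxt h) = D.nxt (φ.symm h) := by
      rw [Equiv.symm_apply_eq, ← e1, Equiv.apply_symm_apply]
    simp only [this, hn]
  · intro h
    rw [eq_comm, Equiv.symm_apply_eq, ← e1, Equiv.apply_symm_apply]
  · intro h
    rw [eq_comm, Equiv.symm_apply_eq, ← e2, Equiv.apply_symm_apply]
  · intro h
    have := e3 (φ.symm h)
    rw [Equiv.apply_symm_apply] at this
    rw [this, smul_smul, inv_mul_cancel₀ (hc _).ne', one_smul]

lemma tri_relabel {D D' : Surf} {φ : Equiv.Perm E} {c : E → ℝ} 
    (hn : ∀ h, c (D.nxt h) = c h) (e1 : ∀ h, D'.nxt (φ h) = φ (D.nxt h))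
    (e3 : ∀ h, D'.w (φ h) = c h • D.w h) (h : E) (hc : 0 < c h) (z : V2) :
    z ∈ tri D' (φ h) ↔ (c h)⁻¹ • z ∈ tri D h := by
  constructor
  · rintro ⟨s, t, hs, ht, hst, rfl⟩
    refine ⟨s, t, hs, ht, hst, ?_⟩
    rw [e1, e3, e3, hn]
    have e : s • c h • D.w h + t • (c h • D.w h + c h • D.w (D.nxt h)) =
        c h • (s • D.w h + t • (D.w h + D.w (D.nxt h))) := by module
    rw [e, smul_smul, inv_mul_cancel₀ hc.ne', one_smul]
  · rintro ⟨s, t, hs, ht, hst, e⟩
    refine ⟨s, t, hs, ht, hst, ?_⟩
    have : z = c h • ((c h)⁻¹ • z) := by rw [smul_smul, mul_inv_cancel₀ hc.ne', one_smul]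
    rw [this, e, e1, e3, e3, hn]
    module

lemma Tr_relabel {D D' : Surf} (h : Relabel D D') : Tr D D' := by
  obtain ⟨φ, c, hc, hn, e1, e2, e3⟩ := h
  intro u hu
  have htri := fun h z => tri_relabel (D := D) (D' := D') hn e1 e3 h (hc h) z
  refine ⟨fun k z => c (φ.symm k) * u (φ.symm k) ((c (φ.symm k))⁻¹ • z), ?_, ?_⟩
  · constructor
    · intro k
      obtain ⟨h, rfl⟩ := φ.surjective k
      simp only [Equiv.symm_apply_apply]
      refine ContinuousOn.mul continuousOn_const ?_
      refine (hu.cont h).comp (by fun_prop) ?_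
      intro z hz
      exact (htri h z).1 hz
    · intro k
      obtain ⟨h, rfl⟩ := φ.surjective k
      simp only [Equiv.symm_apply_apply]
      refine ⟨tri_convex, ?_⟩
      intro z hz z' hz' a b ha hb hab
      have := (hu.conv h).2 ((htri h z).1 hz) ((htri h z').1 hz') ha hb hab
      simp only [smul_eq_mul] at this ⊢
      have e : (c h)⁻¹ • (a • z + b • z') = a • (c h)⁻¹ • z + b • (c h)⁻¹ • z' := by module
      rw [e]
      have h2 := mul_le_mul_of_nonneg_left this (hc h).le
      linarith
    · intro k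
      have h1 := hu.pos (φ.symm k)
      have h2 := hc (φ.symm k)
      simp only [smul_zero]
      positivity
    · intro k z hz
      obtain ⟨h, rfl⟩ := φ.surjective k
      rw [e1]
      simp only [Equiv.symm_apply_apply, hn]
      rw [← hu.turn h _ ((htri h z).1 hz), e3]
      congr 2
      rw [smul_sub, smul_smul, inv_mul_cancel₀ (hc h).ne', one_smul]
    · intro k r hr e t ht0 ht1
      obtain ⟨h, rfl⟩ := φ.surjective k
      rw [e2, e3, e3, smul_smul] at e
      have hch := hc h
      have hch' := hc (D.opp h)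
      have e' : D.w (D.opp h) = -((r * c h / c (D.opp h)) • D.w h) := by
        have : D.w (D.opp h) = (c (D.opp h))⁻¹ • (c (D.opp h) • D.w (D.opp h)) := by
          rw [smul_smul, inv_mul_cancel₀ hch'.ne', one_smul]
        rw [this, e, smul_neg, smul_smul, inv_mul_eq_div]
      have := hu.glue h _ (by positivity) e' t ht0 ht1
      rw [e2, e3, e3]
      simp only [Equiv.symm_apply_apply]
      have x1 : (c (D.opp h))⁻¹ • (1 - t) • c (D.opp h) • D.w (D.opp h) =
          (1 - t) • D.w (D.opp h) := by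
        rw [smul_smul, smul_smul]
        congr 1
        field_simp
      have x2 : (c h)⁻¹ • t • c h • D.w h = t • D.w h := by
        rw [smul_smul, smul_smul]
        congr 1
        field_simp
      rw [x1, x2, this]
      field_simp
    · intro k r hr e z hz z' hz' l t hl0 hl1 ht0 ht1 heq
      obtain ⟨h, rfl⟩ := φ.surjective k
      rw [e2] at hz'
      rw [e2, e3, e3, smul_smul] at e
      rw [e3] at heq
      have hch := hc h
      have hch' := hc (D.opp h)
      have e' : D.w (D.opp h) = -((r * c h / c (D.opp h)) • D.w h) := by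
        have : D.w (D.opp h) = (c (D.opp h))⁻¹ • (c (D.opp h) • D.w (D.opp h)) := by
          rw [smul_smul, inv_mul_cancel₀ hch'.ne', one_smul]
        rw [this, e, smul_neg, smul_smul, inv_mul_eq_div]
      have := hu.bend h _ (by positivity) e' _ ((htri h z).1 hz) _ ((htri _ z').1 hz') l t hl0 hl1
        ht0 ht1 (by
          have h5 : t • D.w h = (c h)⁻¹ • (t • c h • D.w h) := by
            rw [smul_smul, smul_smul]
            congr 1
            field_simp
          have h7 : (c h)⁻¹ • c h • D.w h = D.w h := by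
            rw [smul_smul, inv_mul_cancel₀ hch.ne', one_smul]
          have h8 : (c h)⁻¹ • r⁻¹ • z' =
              (r * c h / c (D.opp h))⁻¹ • (c (D.opp h))⁻¹ • z' := by
            rw [smul_smul, smul_smul]
            congr 1
            field_simp
          have h9 : (c h)⁻¹ • ((1 - l) • z + l • (c h • D.w h + r⁻¹ • z')) =
              (1 - l) • (c h)⁻¹ • z + l • ((c h)⁻¹ • c h • D.w h + (c h)⁻¹ • r⁻¹ • z') := by
            module
          rw [h5, heq, h9, h7, h8])
      rw [e2, e3]
      simp only [Equiv.symm_apply_apply]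
      have x2 : (c h)⁻¹ • t • c h • D.w h = t • D.w h := by
        rw [smul_smul, smul_smul]
        congr 1
        field_simp
      rw [x2]
      have h6 := mul_le_mul_of_nonneg_left this hch.le
      refine h6.trans (le_of_eq ?_)
      field_simp
  · intro v m
    constructor
    · intro H k z hz s hs hzs
      obtain ⟨h, rfl⟩ := φ.surjective k
      simp only [Equiv.symm_apply_apply]
      have hch := hc h
      have h1 := (htri h _).1 hz
      have h2 := (htri h _).1 hzs
      have e : (c h)⁻¹ • (z + s • v) = (c h)⁻¹ • z + ((c h)⁻¹ * s) • v := by module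
      rw [e] at h2 ⊢
      have := H h _ h1 _ (by positivity) h2
      have h6 := mul_le_mul_of_nonneg_left this hch.le
      refine h6.trans (le_of_eq ?_)
      field_simp
    · intro H h z hz s hs hzs
      have hch := hc h
      have h1 : c h • z ∈ tri D' (φ h) := by
        rw [htri, smul_smul, inv_mul_cancel₀ hch.ne', one_smul]
        exact hz
      have h2 : c h • z + (c h * s) • v ∈ tri D' (φ h) := by
        rw [htri]
        convert hzs using 1
        rw [smul_add, smul_smul, smul_smul, inv_mul_cancel₀ hch.ne', one_smul]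
        congr 2
        field_simp
      have := H (φ h) _ h1 _ (by positivity) h2
      simp only [Equiv.symm_apply_apply] at this
      have x1 : (c h)⁻¹ • (c h • z + (c h * s) • v) = z + s • v := by
        rw [smul_add, smul_smul, smul_smul, inv_mul_cancel₀ hch.ne', one_smul]
        congr 2
        field_simp
      have x2 : (c h)⁻¹ • (c h • z) = z := by
        rw [smul_smul, inv_mul_cancel₀ hch.ne', one_smul]
      rw [x1, x2] at this
      have h3 : c h * u h (z + s • v) ≤ c h * (u h z + s * m) := by linarith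
      exact le_of_mul_le_mul_left h3 hch

end Pool.Agent.R193.DS
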