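import Pool.Agent.R193.DS.FlipTr2

set_option autoImplicit false

open Set Filter Topology

namespace Pool.Agent.R193.DS

lemma mem_nhds_surf {x : Surf} {U : Set Surf} : U ∈ 𝓝 x ↔ ∃ W ∈ 𝓝 x.w, ∀ x' : Surf,
    x'.nxt = x.nxt → x'.opp = x.opp → x'.w ∈ W → x' ∈ U := by
  rw [nhds_induced, mem_comap]
  constructor
  · rintro ⟨t, ht, hU⟩
    refine ⟨{w | (x.nxt, x.opp, w) ∈ t}, ?_, ?_⟩
    · have hc : Continuous (fun w : E → V2 => (x.nxt, x.opp, w)) := by fun_prop
      exact hc.continuousAt.preimage_mem_nhds ht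
    · intro x' h1 h2 h3
      apply hU
      show (x'.nxt, x'.opp, x'.w) ∈ t
      rw [h1, h2]
      exact h3
  · rintro ⟨W, hW, H⟩
    refine ⟨({x.nxt} : Set (E → E)) ×ˢ (({x.opp} : Set (E → E)) ×ˢ W), ?_, ?_⟩
    · have h1 : ∀ g : E → E, ({g} : Set (E → E)) ∈ 𝓝 g := fun g =>
        (isOpen_discrete ({g} : Set (E → E))).mem_nhds rfl
      exact prod_mem_nhds (h1 _) (prod_mem_nhds (h1 _) hW)
    · rintro x' ⟨h1, h2, h3⟩
      exact H x' h1 h2 h3

/-- surfaces near `y` are isomorphic to surfaces near `x` -/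
def PN (x y : Surf) : Prop :=
  ∀ U ∈ 𝓝 x, {y' : Surf | ∃ x' ∈ U, Quot.mk Step x' = Quot.mk Step y'} ∈ 𝓝 y

lemma PN.refl (x : Surf) : PN x x := fun U hU => by
  filter_upwards [hU] with y hy using ⟨y, hy, rfl⟩

lemma PN.trans {x y z : Surf} (h1 : PN x y) (h2 : PN y z) : PN x z := by
  intro U hU
  filter_upwards [h2 _ (h1 U hU)] with z' ⟨y', ⟨x', hx', e1⟩, e2⟩
  exact ⟨x', hx', e1.trans e2⟩

lemma PN_relabel {x y : Surf} (H : Relabel x y) : PN x y := by
  obtain ⟨φ, c, hc, hn, e1, e2, e3⟩ := H.symm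
  intro U hU
  obtain ⟨W, hW, HU⟩ := mem_nhds_surf.1 hU
  rw [mem_nhds_surf]
  have hcont : Continuous (fun w : E → V2 => fun k : E => c (φ.symm k) • w (φ.symm k)) := by
    fun_prop
  have hval : (fun k : E => c (φ.symm k) • y.w (φ.symm k)) = x.w := by
    funext k
    rw [← e3, Equiv.apply_symm_apply]
  refine ⟨(fun w : E → V2 => fun k : E => c (φ.symm k) • w (φ.symm k)) ⁻¹' W, ?_, ?_⟩
  · apply hcont.continuousAt.preimage_mem_nhds
    rw [hval]; exact hW
  · intro y' h1 h2 h3
    have hn' : ∀ h, c (y'.nxt h) = c h := by rw [h1]; exact hn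
    refine ⟨relab y' φ c hc hn', ?_, ?_⟩
    · apply HU
      · funext k
        show φ (y'.nxt (φ.symm k)) = x.nxt k
        rw [h1, ← e1, Equiv.apply_symm_apply]
      · funext k
        show φ (y'.opp (φ.symm k)) = x.opp k
        rw [h2, ← e2, Equiv.apply_symm_apply]
      · exact h3
    · have hst : Step y' (relab y' φ c hc hn') := Or.inl (relabel_relab y' φ c hc hn')
      exact (Quot.sound hst).symm

section

/-- the ratio of two parallel vectors -/
noncomputable def rho (h h' : E) (w : E → V2) : ℝ := -(dt (w h) (w h')) / dt (w h) (w h)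

/-- the scale of the triangle of `h'` -/
noncomputable def al (h h' b c : E) (w : E → V2) (k : E) : ℝ :=
  if k = h' ∨ k = b ∨ k = c then (rho h h' w)⁻¹ else 1

/-- the unflipped vectors -/
noncomputable def Ph (h a b h' c : E) (w : E → V2) (k : E) : V2 :=
  if k = h then -(w a + (rho h h' w)⁻¹ • w b) else
  if k = h' then w a + (rho h h' w)⁻¹ • w b else al h h' b c w k • w k

lemma dt_self_pos {z : V2} (hz : z ≠ 0) : 0 < dt z z := by
  unfold dt
  by_contra hcon
  apply hz
  have h1 : z.1 = 0 := by nlinarith [mul_self_nonneg z.1, mul_self_nonneg z.2]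
  have h2 : z.2 = 0 := by nlinarith [mul_self_nonneg z.1, mul_self_nonneg z.2]
  exact Prod.ext h1 h2

lemma rho_eq {D : Surf} {h : E} {r : ℝ} (e : D.w (D.opp h) = -(r • D.w h)) :
    rho h (D.opp h) D.w = r := by
  have h1 := dt_self_pos (D.w_ne h)
  unfold rho
  rw [e, dt_neg, dt_smul, neg_neg, mul_div_cancel_right₀ _ h1.ne']

lemma rho_cont {h h' : E} {w : E → V2} (hw : w h ≠ 0) : ContinuousAt (rho h h') w := by
  unfold rho dt
  have h1 : (w h).1 * (w h).1 + (w h).2 * (w h).2 ≠ 0 := (dt_self_pos hw).ne'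
  refine ContinuousAt.div ?_ ?_ h1
  · fun_prop
  · fun_prop

lemma al_cont {h h' b c : E} {w : E → V2} (hw : w h ≠ 0) (hr : rho h h' w ≠ 0) (k : E) :
    ContinuousAt (fun w => al h h' b c w k) w := by
  unfold al
  split_ifs
  · exact (rho_cont hw).inv₀ hr
  · exact continuousAt_const

lemma Ph_cont {h a b h' c : E} {w : E → V2} (hw : w h ≠ 0) (hr : rho h h' w ≠ 0) :
    ContinuousAt (Ph h a b h' c) w := by
  rw [continuousAt_pi]
  intro k
  have h1 := (rho_cont hw).inv₀ hr
  have h2 : ∀ j : E, ContinuousAt (fun w : E → V2 => w j) w := fun j =>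
    (continuous_apply j).continuousAt
  unfold Ph
  split_ifs
  · exact ((h2 a).add (h1.smul (h2 b))).neg
  · exact (h2 a).add (h1.smul (h2 b))
  · exact (al_cont hw hr k).smul (h2 k)

end

lemma det_cont {w : E → V2} {f g : (E → V2) → V2} (hf : ContinuousAt f w)
    (hg : ContinuousAt g w) : ContinuousAt (fun w => det (f w) (g w)) w := by
  unfold det
  fun_prop

lemma PN_flip {x y : Surf} (H : Flip x y) : PN x y := by
  obtain ⟨h, a, b, h', c, d, α, β, F⟩ := H.data
  intro U hU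
  obtain ⟨W, hW, HU⟩ := mem_nhds_surf.1 hU
  rw [mem_nhds_surf]
  have hoy : y.opp h = h' := by rw [F.o, F.e3]
  have hρ1 : rho h h' y.w = 1 := by
    rw [← hoy]
    apply rho_eq
    rw [hoy, F.w2, F.w1, one_smul]
  have hal1 : ∀ k, al h h' b c y.w k = 1 := by
    intro k
    unfold al
    rw [hρ1]; simp
  have hval : Ph h a b h' c y.w = x.w := by
    funext k
    unfold Ph
    rw [hρ1]
    split_ifs with k1 k2
    · rw [k1, inv_one, one_smul, F.w3 a F.ha.symm F.ah', F.w3 b F.hb.symm F.bh', F.wa]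
      abel
    · rw [k2, inv_one, one_smul, F.w3 a F.ha.symm F.ah', F.w3 b F.hb.symm F.bh', F.wa, F.wh']
      abel
    · rw [hal1, one_smul, F.w3 k k1 k2]
  have hPc : ContinuousAt (Ph h a b h' c) y.w := Ph_cont (y.w_ne h) (by rw [hρ1]; norm_num)
  have hPk : ∀ k, ContinuousAt (fun w => Ph h a b h' c w k) y.w := fun k =>
    (continuous_apply k).continuousAt.comp hPc
  -- the neighbourhood
  have N1 : Ph h a b h' c ⁻¹' W ∈ 𝓝 y.w := by
    apply hPc.preimage_mem_nhds
    rw [hval]; exact hW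
  have N2 : ∀ k l : E, 0 < det (x.w k) (x.w l) →
      {w | 0 < det (Ph h a b h' c w k) (Ph h a b h' c w l)} ∈ 𝓝 y.w := by
    intro k l hk
    have := det_cont (hPk k) (hPk l)
    apply this.preimage_mem_nhds
    apply Ioi_mem_nhds
    show 0 < det (Ph h a b h' c y.w k) (Ph h a b h' c y.w l)
    rw [hval]
    exact hk
  have N3 : {w | ∀ k, 0 < det (Ph h a b h' c w k) (Ph h a b h' c w (x.nxt k))} ∈ 𝓝 y.w := by
    have : ∀ᶠ w in 𝓝 y.w, ∀ k, 0 < det (Ph h a b h' c w k) (Ph h a b h' c w (x.nxt k)) := by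
      rw [eventually_all]
      intro k
      exact N2 k _ (x.pos k)
    exact this
  obtain ⟨-, -, -, -, -, -, -, -, -, -, -, -, -, -, p1', p2', -⟩ := id H
  have p1 : 0 < det (x.w b) (x.w c) := by
    have h1 := F.hx
    have h2 := F.hB
    have h3 := x.pos h'
    rw [F.e4, F.wh'] at h3
    -- `det (x.w c) (x.w h) = β * det (x.w c) (-x.w b)`
    have h4 : det (-x.w h) (x.w c) = β * det (x.w b) (x.w c) := by
      rw [h2]; unfold det; simp; ring
    rw [h4] at h3
    exact (pos_iff_pos_of_mul_pos h3).1 F.hy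
  have p2 : 0 < det (x.w d) (x.w a) := by
    have h2 := F.hB
    have e : det (x.w d) (x.w a) = (α + β - 1) * det (x.w b) (x.w c) := by
      rw [F.wd, F.wa, h2]; unfold det; simp; ring
    rw [e]
    have := F.hxy
    exact mul_pos (by linarith) p1
  refine ⟨_, inter_mem N1 (inter_mem N3 (inter_mem (N2 b c p1) (N2 d a p2))), ?_⟩
  rintro y' g1 g2 ⟨m1, m2, m3, m4⟩
  set w := y'.w with hwdef
  have m2' : ∀ k, 0 < det (Ph h a b h' c w k) (Ph h a b h' c w (x.nxt k)) := m2
  have m3' : 0 < det (Ph h a b h' c w b) (Ph h a b h' c w c) := m3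
  have m4' : 0 < det (Ph h a b h' c w d) (Ph h a b h' c w a) := m4
  have hoy' : y'.opp h = h' := by rw [g2, hoy]
  obtain ⟨r, hr, er⟩ := y'.glue h
  have hρ : rho h h' w = r := by rw [← hoy']; exact rho_eq er
  rw [hoy', ← hwdef] at er
  have hα : ∀ k, 0 < al h h' b c w k := by
    intro k; unfold al
    split_ifs
    · rw [hρ]; positivity
    · norm_num
  -- values of `Ph`
  have vh : Ph h a b h' c w h = -(w a + r⁻¹ • w b) := by simp [Ph, hρ]
  have vh' : Ph h a b h' c w h' = w a + r⁻¹ • w b := by simp [Ph, hρ, F.hh.symm]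
  have vo : ∀ k, k ≠ h → k ≠ h' → Ph h a b h' c w k = al h h' b c w k • w k := by
    intro k k1 k2; simp [Ph, k1, k2]
  have ala : al h h' b c w a = 1 := by simp [al, F.ah', F.ab, F.ac]
  have alb : al h h' b c w b = r⁻¹ := by simp [al, hρ]
  have alc : al h h' b c w c = r⁻¹ := by simp [al, hρ]
  have ald : al h h' b c w d = 1 := by simp [al, F.h'd.symm, F.bd.symm, F.cd.symm]
  have alh : al h h' b c w h = 1 := by simp [al, F.hh, F.hb, F.hc]
  have alh' : al h h' b c w h' = r⁻¹ := by simp [al, hρ]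
  have alo : ∀ k, k ≠ b → k ≠ h' → k ≠ c → al h h' b c w k = 1 := by
    intro k k1 k2 k3; simp [al, k1, k2, k3]
  have va : Ph h a b h' c w a = w a := by rw [vo a F.ha.symm F.ah', ala, one_smul]
  have vb : Ph h a b h' c w b = r⁻¹ • w b := by rw [vo b F.hb.symm F.bh', alb]
  have vc : Ph h a b h' c w c = r⁻¹ • w c := by rw [vo c F.hc.symm F.h'c.symm, alc]
  have vd : Ph h a b h' c w d = w d := by rw [vo d F.hd.symm F.h'd.symm, ald, one_smul]
  -- the triangles of `y'`
  have c1 : w h + w d + w a = 0 := by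
    have := y'.closed h
    rwa [g1, F.n1, F.n2] at this
  have c2 : w h' + w b + w c = 0 := by
    have := y'.closed h'
    rwa [g1, F.n4, F.n5] at this
  have c3 : r⁻¹ • w b + r⁻¹ • w c = w h := by
    have e1 : r⁻¹ • w b + r⁻¹ • w c = r⁻¹ • (w h' + w b + w c) - r⁻¹ • w h' := by module
    rw [e1, c2, er, smul_zero, smul_neg, smul_smul, inv_mul_cancel₀ hr.ne', one_smul]
    abel
  have cyc1 : Ph h a b h' c w h + Ph h a b h' c w a + Ph h a b h' c w b = 0 := by
    rw [vh, va, vb]; abel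
  have cyc2 : Ph h a b h' c w h' + Ph h a b h' c w c + Ph h a b h' c w d = 0 := by
    rw [vh', vc, vd]
    have : w a + r⁻¹ • w b + r⁻¹ • w c + w d = (w h + w d + w a) +
      ((r⁻¹ • w b + r⁻¹ • w c) - w h) := by abel
    rw [this, c1, c3]; abel
  let x' : Surf :=
    { nxt := x.nxt
      opp := x.opp
      w := Ph h a b h' c w
      nxt3 := x.nxt3
      nxt_ne := x.nxt_ne
      opp2 := x.opp2
      opp_ne := x.opp_ne
      one := x.one
      pos := m2'
      closed := by
        intro k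
        by_cases k1 : k = h
        · rw [k1, F.e1, F.e2]; exact cyc1
        by_cases k2 : k = a
        · rw [k2, F.e2, F.e6, ← cyc1]; abel
        by_cases k3 : k = b
        · rw [k3, F.e6, F.e1, ← cyc1]; abel
        by_cases k4 : k = h'
        · rw [k4, F.e4, F.e5]; exact cyc2
        by_cases k5 : k = c
        · rw [k5, F.e5, F.e7, ← cyc2]; abel
        by_cases k6 : k = d
        · rw [k6, F.e7, F.e4, ← cyc2]; abel
        obtain ⟨q1, q2, q3, q4, q5, q6⟩ := F.nxt_out k1 k2 k3 k4 k5 k6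
        obtain ⟨s1, s2, s3, s4, s5, s6⟩ := F.nxt_out q1 q2 q3 q4 q5 q6
        rw [vo k k1 k4, vo _ q1 q4, vo _ s1 s4, alo k k3 k4 k5, alo _ q3 q4 q5, alo _ s3 s4 s5,
          one_smul, one_smul, one_smul]
        have := y'.closed k
        rwa [g1, F.n7 k k1 k2 k3 k4 k5 k6, F.n7 _ q1 q2 q3 q4 q5 q6] at this
      glue := by
        intro k
        by_cases k1 : k = h
        · refine ⟨1, one_pos, ?_⟩
          rw [k1, F.e3, vh, vh', one_smul, neg_neg]
        by_cases k4 : k = h'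
        · refine ⟨1, one_pos, ?_⟩
          rw [k4, F.e8, vh, vh', one_smul]
        obtain ⟨o1, o2⟩ := F.opp_out k1 k4
        obtain ⟨t, ht, et⟩ := y'.glue k
        rw [g2, F.o, ← hwdef] at et
        have h1 := hα k
        have h2 := hα (x.opp k)
        refine ⟨al h h' b c w (x.opp k) * t / al h h' b c w k, by positivity, ?_⟩
        rw [vo k k1 k4, vo _ o1 o2, et, smul_smul, div_mul_cancel₀ _ h1.ne', smul_neg, smul_smul] }
  have hn' : ∀ k, al h h' b c w (y'.nxt k) = al h h' b c w k := by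
    intro k
    rw [g1]
    by_cases k1 : k = h
    · rw [k1, F.n1, ald, alh]
    by_cases k2 : k = a
    · rw [k2, F.n3, ala, alh]
    by_cases k3 : k = b
    · rw [k3, F.n5, alb, alc]
    by_cases k4 : k = h'
    · rw [k4, F.n4, alb, alh']
    by_cases k5 : k = c
    · rw [k5, F.n6, alc, alh']
    by_cases k6 : k = d
    · rw [k6, F.n2, ald, ala]
    obtain ⟨q1, q2, q3, q4, q5, q6⟩ := F.nxt_out k1 k2 k3 k4 k5 k6
    rw [F.n7 k k1 k2 k3 k4 k5 k6, alo k k3 k4 k5, alo _ q3 q4 q5]
  refine ⟨x', HU x' rfl rfl m1, ?_⟩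
  have hrel := relabel_relab y' (Equiv.refl E) (al h h' b c w) hα hn'
  have hflip : Flip x' (relab y' (Equiv.refl E) (al h h' b c w) hα hn') := by
    refine ⟨h, a, b, h', c, d, F.e1, F.e2, F.e3, F.e4, F.e5, ?_, m3', m4', ?_, ?_, ?_, ?_, ?_, ?_,
      ?_, ?_, ?_, ?_, ?_⟩
    · show Ph h a b h' c w h' = -Ph h a b h' c w h
      rw [vh, vh', neg_neg]
    · funext k
      show y'.opp k = x.opp k
      rw [g2, F.o]
    · show y'.nxt h = d
      rw [g1, F.n1]
    · show y'.nxt d = a
      rw [g1, F.n2]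
    · show y'.nxt a = h
      rw [g1, F.n3]
    · show y'.nxt h' = b
      rw [g1, F.n4]
    · show y'.nxt b = c
      rw [g1, F.n5]
    · show y'.nxt c = h'
      rw [g1, F.n6]
    · intro k k1 k2 k3 k4 k5 k6
      show y'.nxt k = x.nxt k
      rw [g1, F.n7 k k1 k2 k3 k4 k5 k6]
    · show al h h' b c w h • w h = Ph h a b h' c w b + Ph h a b h' c w c
      rw [alh, one_smul, vb, vc, c3]
    · show al h h' b c w h' • w h' = -(Ph h a b h' c w b + Ph h a b h' c w c)
      rw [alh', vb, vc, c3, er, smul_neg, smul_smul, inv_mul_cancel₀ hr.ne', one_smul]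
    · intro k k1 k2
      show al h h' b c w k • w k = Ph h a b h' c w k
      rw [vo k k1 k2]
  have hst1 : Step x' (relab y' (Equiv.refl E) (al h h' b c w) hα hn') := Or.inr hflip
  have hst2 : Step y' (relab y' (Equiv.refl E) (al h h' b c w) hα hn') := Or.inl hrel
  exact (Quot.sound hst1).trans (Quot.sound hst2).symm

lemma PN_step {x y : Surf} (H : Step x y) : PN x y ∧ PN y x := by
  rcases H with H | H
  · exact ⟨PN_relabel H, PN_relabel H.symm⟩
  · obtain ⟨D'', h1, h2⟩ := H.back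
    exact ⟨PN_flip H, (PN_flip h2).trans (PN_relabel h1.symm)⟩

lemma PN_eqvGen {x y : Surf} (H : Relation.EqvGen Step x y) : PN x y ∧ PN y x := by
  induction H with
  | rel x y h => exact PN_step h
  | refl x => exact ⟨PN.refl x, PN.refl x⟩
  | symm x y _ ih => exact ⟨ih.2, ih.1⟩
  | trans x y z _ _ ih1 ih2 => exact ⟨ih1.1.trans ih2.1, ih2.2.trans ih1.2⟩

/-- the quotient map is open -/
lemma isOpen_image {U : Set Surf} (hU : IsOpen U) :
    IsOpen ((Quot.mk Step : Surf → Moduli) '' U) := by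
  have : IsOpen ((Quot.mk Step : Surf → Quot Step) ⁻¹' ((Quot.mk Step : Surf → Quot Step) '' U)) := by
    rw [isOpen_iff_mem_nhds]
    rintro y ⟨x, hx, e⟩
    have h1 := PN_eqvGen (Quot.eqvGen_exact e)
    have h2 := h1.1 U (hU.mem_nhds hx)
    filter_upwards [h2] with y' ⟨x', hx', e'⟩
    exact ⟨x', hx', e'⟩
  exact this

end Pool.Agent.R193.DS
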