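import Pool.Agent.R193.DS.Exist
import Pool.Agent.R193.DS.Open

set_option autoImplicit false

open Set Filter Topology

namespace Pool.Agent.R193.DS

lemma upOn_iff {D : Surf} {h : E} {f : V2 → ℝ} {g : ℝ} {w0 v : V2} {m : ℝ}
    (H : ∀ z ∈ tri D h, f z = f 0 + LL g w0 z) : UpOn (tri D h) f v m ↔ LL g w0 v ≤ m := by
  constructor
  · intro hU
    have hp := D.pos h
    have hd : det (D.w h) (D.w h + D.w (D.nxt h)) = det (D.w h) (D.w (D.nxt h)) := by
      rw [det_add_right, det_self, zero_add]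
    have hex := expand (a := D.w h) (b := D.w h + D.w (D.nxt h)) (by rw [hd]; exact hp.ne') v
    rw [hd] at hex
    set α := det v (D.w h + D.w (D.nxt h)) / det (D.w h) (D.w (D.nxt h))
    set β := det (D.w h) v / det (D.w h) (D.w (D.nxt h))
    set s := 1 / (6 * (1 + |α| + |β|)) with hs
    have hM : 0 < 1 + |α| + |β| := by positivity
    have hs0 : 0 < s := by positivity
    have hsM : s * (1 + |α| + |β|) = 1 / 6 := by rw [hs]; field_simp
    have ha := abs_nonneg α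
    have hb := abs_nonneg β
    have h1 : s * |α| ≤ 1 / 6 := by nlinarith
    have h2 : s * |β| ≤ 1 / 6 := by nlinarith
    have a1 : -(s * |α|) ≤ s * α := by
      have := neg_abs_le α
      nlinarith
    have a2 : s * α ≤ s * |α| := mul_le_mul_of_nonneg_left (le_abs_self α) hs0.le
    have b1 : -(s * |β|) ≤ s * β := by
      have := neg_abs_le β
      nlinarith
    have b2 : s * β ≤ s * |β| := mul_le_mul_of_nonneg_left (le_abs_self β) hs0.le
    set z0 : V2 := (1 / 3 : ℝ) • D.w h + (1 / 3 : ℝ) • (D.w h + D.w (D.nxt h)) with hz0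
    have m0 : z0 ∈ tri D h := ⟨1 / 3, 1 / 3, by norm_num, by norm_num, by norm_num, rfl⟩
    have m1 : z0 + s • v ∈ tri D h := by
      refine ⟨1 / 3 + s * α, 1 / 3 + s * β, by linarith, by linarith, by linarith, ?_⟩
      conv_lhs => rw [hex]
      rw [hz0]
      module
    have := hU z0 m0 s hs0.le m1
    rw [H _ m0, H _ m1, LL_add, LL_smul] at this
    have h3 : s * LL g w0 v ≤ s * m := by linarith
    exact le_of_mul_le_mul_left h3 hs0
  · intro hv z hz s hs hzs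
    rw [H _ hz, H _ hzs, LL_add, LL_smul]
    have := mul_le_mul_of_nonneg_left hv hs
    linarith

/-- the invariant of the two halves -/
noncomputable def kp (D : Surf) (r0 r4 r5 q4 q5 : ℝ) : ℝ :=
  r0 ^ 2 * ((q5 / q4 - 1) / det (D.w 9) (D.w 10)) * (det (D.w 0) (D.w 1) / (r5 / r4 - 1))

section

variable {D : Surf} {u : E → V2 → ℝ} {r0 r1 r2 r4 r5 q1 q2 q4 q5 : ℝ}

lemma Two.ratio_pos (T : Two D r0 r1 r2 r4 r5 q1 q2 q4 q5) : 0 < r5 / r4 - 1 := by
  have h2 : 1 < r5 / r4 := by rw [one_lt_div T.P.h4]; exact T.P.lt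
  linarith

lemma Two.ratio_pos' (T : Two D r0 r1 r2 r4 r5 q1 q2 q4 q5) : 0 < q5 / q4 - 1 := by
  have h2 : 1 < q5 / q4 := by rw [one_lt_div T.Q.h4]; exact T.Q.lt
  linarith

lemma Two.d01 (T : Two D r0 r1 r2 r4 r5 q1 q2 q4 q5) : 0 < det (D.w 0) (D.w 1) := by
  have := D.pos 0
  rwa [T.P.n0] at this

lemma Two.d910 (T : Two D r0 r1 r2 r4 r5 q1 q2 q4 q5) : 0 < det (D.w 9) (D.w 10) := by
  have := D.pos 9
  rwa [T.Q.n0] at this

lemma Two.kp_pos (T : Two D r0 r1 r2 r4 r5 q1 q2 q4 q5) : 0 < kp D r0 r4 r5 q4 q5 := by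
  unfold kp
  have h1 := T.ratio_pos
  have h2 := T.ratio_pos'
  have h3 := T.d01
  have h4 := T.d910
  have h5 := T.h0
  positivity

lemma Two.up (T : Two D r0 r1 r2 r4 r5 q1 q2 q4 q5) (hu : K D u) (v : V2) (m : ℝ) :
    Up D u v m ↔ LL (gg D 0 1 r4 r5 (u 0 0)) (D.w 0) v ≤ m ∧
      -(kp D r0 r4 r5 q4 q5 * LL (gg D 0 1 r4 r5 (u 0 0)) (D.w 0) v) ≤ m := by
  have H1 := T.P.half hu
  have H2 := T.Q.half hu
  have hs1 := (T.P.values hu).1
  have hs9 : u 9 0 = r0 * u 0 0 := by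
    have := hu.vert2 T.h0 (h := 0) (by rw [T.o0, T.g0])
    rw [T.o0, T.P.n0, hs1] at this
    exact this
  have e2 : LL (gg D 9 10 q4 q5 (u 9 0)) (D.w 9) v =
      -(kp D r0 r4 r5 q4 q5 * LL (gg D 0 1 r4 r5 (u 0 0)) (D.w 0) v) := by
    have h1 := T.ratio_pos
    have h3 := T.d01
    have h4 := T.d910
    have h6 : r5 / r4 - 1 ≠ 0 := h1.ne'
    have e3 : kp D r0 r4 r5 q4 q5 * LL (gg D 0 1 r4 r5 (u 0 0)) (D.w 0) v =
        r0 ^ 2 * ((q5 / q4 - 1) / det (D.w 9) (D.w 10)) * (u 0 0 * det (D.w 0) v) *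
          ((det (D.w 0) (D.w 1) / det (D.w 0) (D.w 1)) * ((r5 / r4 - 1) / (r5 / r4 - 1))) := by
      unfold LL gg kp
      ring
    rw [e3, div_self h3.ne', div_self h6]
    have e4 : det (D.w 9) v = -(r0 * det (D.w 0) v) := by
      rw [T.g0, det_neg_left, det_smul_left]
    unfold LL gg
    rw [hs9, e4]
    ring
  rw [← e2]
  constructor
  · intro H
    exact ⟨(upOn_iff (H1 0 (by simp))).1 (H 0), (upOn_iff (H2 9 (by simp))).1 (H 9)⟩
  · rintro ⟨h1, h2⟩ j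
    rcases all18 j with h | h
    · exact (upOn_iff (H1 j h)).2 h1
    · exact (upOn_iff (H2 j h)).2 h2

/-- the invariants of isomorphic surfaces agree -/
lemma Two.invariant (T : Two D r0 r1 r2 r4 r5 q1 q2 q4 q5) {D' : Surf}
    {r0' r1' r2' r4' r5' q1' q2' q4' q5' : ℝ}
    (T' : Two D' r0' r1' r2' r4' r5' q1' q2' q4' q5') (H : Tr D D') :
    kp D r0 r4 r5 q4 q5 = kp D' r0' r4' r5' q4' q5' ∨
      kp D r0 r4 r5 q4 q5 * kp D' r0' r4' r5' q4' q5' = 1 := by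
  obtain ⟨u, hu⟩ := T.exists
  obtain ⟨u', hu', e⟩ := H u hu
  set κ := kp D r0 r4 r5 q4 q5 with hκ
  set κ' := kp D' r0' r4' r5' q4' q5' with hκ'
  have k0 : 0 < κ := T.kp_pos
  have k0' : 0 < κ' := T'.kp_pos
  set g := gg D 0 1 r4 r5 (u 0 0) with hg
  set g' := gg D' 0 1 r4' r5' (u' 0 0) with hg'
  have hg0 : 0 < g := gg_nonneg T.P.n0 T.P.h4 T.P.lt (hu.pos 0)
  -- a vector on which the first functional is one
  obtain ⟨v, hv⟩ : ∃ v : V2, LL g (D.w 0) v = 1 := by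
    refine ⟨(g * det (D.w 0) (D.w 1))⁻¹ • D.w 1, ?_⟩
    have : 0 < g * det (D.w 0) (D.w 1) := mul_pos hg0 T.d01
    rw [LL_smul]
    exact inv_mul_cancel₀ this.ne'
  have hv' : LL g (D.w 0) (-v) = -1 := by rw [LL_neg, hv]
  set p := LL g' (D'.w 0) v with hp
  have hp' : LL g' (D'.w 0) (-v) = -p := by rw [LL_neg]
  have e1 : ∀ m : ℝ, (1 ≤ m ∧ -(κ * 1) ≤ m) ↔ (p ≤ m ∧ -(κ' * p) ≤ m) := by
    intro m
    have := (T.up hu v m).symm.trans ((e v m).trans (T'.up hu' v m))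
    rwa [← hg, ← hg', hv, ← hp] at this
  have e2 : ∀ m : ℝ, (-1 ≤ m ∧ -(κ * -1) ≤ m) ↔ (-p ≤ m ∧ -(κ' * -p) ≤ m) := by
    intro m
    have := (T.up hu (-v) m).symm.trans ((e (-v) m).trans (T'.up hu' (-v) m))
    rwa [← hg, ← hg', hv', hp'] at this
  -- consequences
  have a1 := (e1 1).1 ⟨le_rfl, by linarith⟩
  have a2 := (e2 κ).1 ⟨by linarith, by linarith⟩
  rcases lt_trichotomy p 0 with hneg | hz | hpos
  · -- `1 = κ' |p|`, `κ = |p|`
    have b1 := (e1 (-(κ' * p))).2 ⟨by nlinarith, le_rfl⟩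
    have b2 := (e2 (-p)).2 ⟨le_rfl, by nlinarith⟩
    right
    have c1 : κ = -p := by linarith [a2.1, b2.2]
    have c2 : -(κ' * p) = 1 := le_antisymm a1.2 b1.1
    rw [c1]; linarith
  · rw [hz] at e1
    have := (e1 0).2 ⟨le_rfl, by simp⟩
    linarith [this.1]
  · have b1 := (e1 p).2 ⟨le_rfl, by nlinarith⟩
    have b2 := (e2 (κ' * p)).2 ⟨by nlinarith, by linarith⟩
    left
    have c1 : p = 1 := le_antisymm a1.1 b1.1
    rw [c1] at b2 a2
    linarith [a2.2, b2.2]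

end

end Pool.Agent.R193.DS
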