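import Pool.Agent.R193.DS.Sets

set_option autoImplicit false

open Set Filter Topology

namespace Pool.Agent.R193.DS

lemma wp_cont : Continuous wp := by
  refine continuous_pi fun h => ?_
  rcases all18 h with (rfl | rfl | rfl | rfl | rfl | rfl | rfl | rfl | rfl) |
      (rfl | rfl | rfl | rfl | rfl | rfl | rfl | rfl | rfl) <;> simp [wp] <;>
    (first | fun_prop | (constructor <;> fun_prop))

lemma path_cont : Continuous (fun t : ℝ => Dp (1 + t ^ 2) (by positivity)) := by
  rw [continuous_induced_rng]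
  have : Continuous (fun t : ℝ => wp (1 + t ^ 2)) := wp_cont.comp (by fun_prop)
  exact continuous_const.prodMk (continuous_const.prodMk this)

lemma rho_path (k : ℝ) (hk : 0 < k) (h : E) (r : ℝ)
    (e : wp k (op h) = -(r • wp k h)) : rho h (op h) (wp k) = r :=
  rho_eq (D := Dp k hk) (h := h) e

lemma path_VV (k : ℝ) (hk : 0 < k) : Dp k hk ∈ VV ∧ kap (Dp k hk).w = 1 / k := by
  have e0 : rho 0 9 (wp k) = 1 := rho_path k hk 0 1 (by ext <;> simp [wp, op])
  have e4 : rho 4 7 (wp k) = 1 / 2 :=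
    rho_path k hk 4 (1 / 2) (by ext <;> simp [wp, op] <;> ring)
  have e5 : rho 5 8 (wp k) = 1 := rho_path k hk 5 1 (by ext <;> simp [wp, op] <;> ring)
  have e13 : rho 13 16 (wp k) = 1 / 2 :=
    rho_path k hk 13 (1 / 2) (by ext <;> simp [wp, op] <;> ring)
  have e14 : rho 14 17 (wp k) = 1 := rho_path k hk 14 1 (by ext <;> simp [wp, op] <;> ring)
  have d1 : det (wp k 0) (wp k 5) = 1 := by simp [wp, det]
  have d2 : det (wp k 9) (wp k 14) = k := by simp [wp, det]; ring
  have d3 : det (wp k 0) (wp k 1) = 2 := by simp [wp, det]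
  have d4 : det (wp k 9) (wp k 10) = 2 * k := by simp [wp, det]
  refine ⟨⟨rfl, rfl, ?_, ?_, ?_, ?_⟩, ?_⟩
  · show rho 4 7 (wp k) < rho 5 8 (wp k)
    rw [e4, e5]; norm_num
  · show rho 13 16 (wp k) < rho 14 17 (wp k)
    rw [e13, e14]; norm_num
  · show 0 < det (wp k 0) (wp k 5)
    rw [d1]; norm_num
  · show 0 < det (wp k 9) (wp k 14)
    rw [d2]; exact hk
  · show kap (wp k) = 1 / k
    unfold kap
    rw [e0, e4, e5, e13, e14, d3, d4]
    field_simp

end Pool.Agent.R193.DS
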