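import Pool.Agent.R193.DS.Tri

set_option autoImplicit false

open Set Filter Topology

namespace Pool.Agent.R193.DS

/-- the triangle `0, B, C` -/
def TT (B C : V2) : Set V2 := {z | ∃ s t : ℝ, 0 ≤ s ∧ 0 ≤ t ∧ s + t ≤ 1 ∧ z = s • B + t • C}

/-- the convex hull of `0, B, C, P` -/
def QQ (B C P : V2) : Set V2 :=
  {z | ∃ a b c : ℝ, 0 ≤ a ∧ 0 ≤ b ∧ 0 ≤ c ∧ a + b + c ≤ 1 ∧ z = a • B + b • C + c • P}

lemma QQ_convex (B C P : V2) : Convex ℝ (QQ B C P) := by
  rintro z ⟨a, b, c, ha, hb, hc, h, rfl⟩ z' ⟨a', b', c', ha', hb', hc', h', rfl⟩ s t hs ht hst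
  refine ⟨s * a + t * a', s * b + t * b', s * c + t * c', by positivity, by positivity,
    by positivity, ?_, ?_⟩
  · have h1 := mul_le_mul_of_nonneg_left h hs
    have h2 := mul_le_mul_of_nonneg_left h' ht
    nlinarith
  · module

lemma TT_convex (B C : V2) : Convex ℝ (TT B C) := by
  rintro z ⟨a, b, ha, hb, h, rfl⟩ z' ⟨a', b', ha', hb', h', rfl⟩ s t hs ht hst
  refine ⟨s * a + t * a', s * b + t * b', by positivity, by positivity, ?_, ?_⟩
  · have h1 := mul_le_mul_of_nonneg_left h hs
    have h2 := mul_le_mul_of_nonneg_left h' ht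
    nlinarith
  · module

lemma TT_sub_QQ1 (B C P : V2) : TT B C ⊆ QQ B C P := by
  rintro z ⟨s, t, hs, ht, h, rfl⟩
  exact ⟨s, t, 0, hs, ht, le_rfl, by linarith, by simp⟩

lemma TT_sub_QQ2 (B C P : V2) : TT B P ⊆ QQ B C P := by
  rintro z ⟨s, t, hs, ht, h, rfl⟩
  exact ⟨s, 0, t, hs, le_rfl, ht, by linarith, by simp⟩

lemma QQ_sub {B C P : V2} {x y : ℝ} (hx : 0 < x) (hy : 0 < y) (hxy : 1 < x + y)
    (hB : B = x • P + y • C) : QQ B C P ⊆ TT B C ∪ TT B P := by
  rintro z ⟨a, b, c, ha, hb, hc, h, rfl⟩
  rcases le_total (c / x) (b / y) with hle | hle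
  · left
    refine ⟨a + c / x, b - c * y / x, by positivity, ?_, ?_, ?_⟩
    · rw [div_le_div_iff₀ hx hy] at hle
      rw [sub_nonneg, div_le_iff₀ hx]
      linarith
    · have : a + c / x + (b - c * y / x) = a + b + c * ((1 - y) / x) := by field_simp; ring
      rw [this]
      have h1 : (1 - y) / x ≤ 1 := by rw [div_le_one hx]; linarith
      nlinarith
    · have hP : P = (1 / x) • B - (y / x) • C := by
        rw [hB]
        have : x ≠ 0 := hx.ne'
        rw [smul_add, smul_smul, smul_smul, one_div, inv_mul_cancel₀ this, one_smul]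
        rw [div_eq_inv_mul y x]
        abel
      conv_lhs => rw [hP]
      have e1 : c / x = c * (1 / x) := by ring
      have e2 : c * y / x = c * (y / x) := by ring
      rw [e1, e2]
      module
  · right
    refine ⟨a + b / y, c - b * x / y, by positivity, ?_, ?_, ?_⟩
    · rw [div_le_div_iff₀ hy hx] at hle
      rw [sub_nonneg, div_le_iff₀ hy]
      linarith
    · have : a + b / y + (c - b * x / y) = a + c + b * ((1 - x) / y) := by field_simp; ring
      rw [this]
      have h1 : (1 - x) / y ≤ 1 := by rw [div_le_one hy]; linarith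
      nlinarith
    · have hC : C = (1 / y) • B - (x / y) • P := by
        rw [hB]
        have : y ≠ 0 := hy.ne'
        rw [smul_add, smul_smul, smul_smul, one_div, inv_mul_cancel₀ this, one_smul]
        rw [div_eq_inv_mul x y]
        abel
      conv_lhs => rw [hC]
      have e1 : b / y = b * (1 / y) := by ring
      have e2 : b * x / y = b * (x / y) := by ring
      rw [e1, e2]
      module

lemma crossing {B C P : V2} {x y : ℝ} (hx : 0 < x) (hy : 0 < y) (hxy : 1 < x + y)
    (hB : B = x • P + y • C) {a b a' c : ℝ} (ha : 0 ≤ a) (hb : 0 < b) (hab : a + b ≤ 1)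
    (ha' : 0 ≤ a') (hc : 0 < c) (hac : a' + c ≤ 1) :
    ∃ l t : ℝ, 0 < l ∧ l < 1 ∧ 0 < t ∧ t < 1 ∧
      t • B = (1 - l) • (a • B + b • C) + l • (a' • B + c • P) := by
  have hden : 0 < b * x + c * y := by positivity
  refine ⟨b * x / (b * x + c * y),
    (c * y / (b * x + c * y)) * a + (b * x / (b * x + c * y)) * a' + b * c / (b * x + c * y),
    by positivity, ?_, by positivity, ?_, ?_⟩
  · rw [div_lt_one hden]
    have : 0 < c * y := by positivity
    linarith
  · have h0 : c * y / (b * x + c * y) + b * x / (b * x + c * y) = 1 := by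
      rw [← add_div, add_comm (c * y), div_self hden.ne']
    set m := c * y / (b * x + c * y) with hm
    set l := b * x / (b * x + c * y) with hl
    have hm0 : 0 ≤ m := by positivity
    have hl0 : 0 ≤ l := by positivity
    set τ := b * c / (b * x + c * y) with hτ
    have hτ0 : 0 < τ := by positivity
    have e1 : m * b = τ * y := by rw [hm, hτ]; ring
    have e2 : l * c = τ * x := by rw [hl, hτ]; ring
    have h1 : m * (a + b) ≤ m := by nlinarith
    have h2 : l * (a' + c) ≤ l := by nlinarith
    nlinarith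
  · have h0 : (1 : ℝ) - b * x / (b * x + c * y) = c * y / (b * x + c * y) := by
      rw [eq_div_iff hden.ne', sub_mul, div_mul_cancel₀ _ hden.ne']; ring
    rw [h0]
    have e3 : (b * c / (b * x + c * y)) • B =
        (b * c / (b * x + c * y) * x) • P + (b * c / (b * x + c * y) * y) • C := by
      conv_lhs => rw [hB]
      module
    rw [add_smul, e3]
    have e1 : b * c / (b * x + c * y) * x = b * x / (b * x + c * y) * c := by ring
    have e2 : b * c / (b * x + c * y) * y = c * y / (b * x + c * y) * b := by ring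
    rw [e1, e2]
    module

/-- gluing convex functions along the diagonal of a strictly convex quadrilateral -/
lemma quad_convexOn {B C P : V2} {x y : ℝ} (hx : 0 < x) (hy : 0 < y) (hxy : 1 < x + y)
    (hB : B = x • P + y • C) {U : V2 → ℝ} (h1 : ConvexOn ℝ (TT B C) U)
    (h2 : ConvexOn ℝ (TT B P) U)
    (hb : ∀ p ∈ TT B C, ∀ q ∈ TT B P, ∀ l t : ℝ, 0 < l → l < 1 → 0 < t → t < 1 →
      t • B = (1 - l) • p + l • q → U (t • B) ≤ (1 - l) * U p + l * U q) :
    ConvexOn ℝ (QQ B C P) U := by
  -- one point in each triangle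
  have key : ∀ p ∈ TT B C, ∀ q ∈ TT B P, ∀ s t : ℝ, 0 ≤ s → 0 ≤ t → s + t = 1 →
      U (s • p + t • q) ≤ s * U p + t * U q := by
    intro p hp q hq s t hs ht hst
    obtain ⟨a, b, ha, hb0, hab, hpe⟩ := id hp
    obtain ⟨a', c, ha', hc0, hac, hqe⟩ := id hq
    rcases hb0.eq_or_lt with hb1 | hb1
    · have hp' : p ∈ TT B P := ⟨a, 0, ha, le_rfl, by linarith, by rw [hpe, ← hb1]; simp⟩
      simpa using h2.2 hp' hq hs ht hst
    rcases hc0.eq_or_lt with hc1 | hc1
    · have hq' : q ∈ TT B C := ⟨a', 0, ha', le_rfl, by linarith, by rw [hqe, ← hc1]; simp⟩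
      simpa using h1.2 hp hq' hs ht hst
    obtain ⟨l, τ, hl0, hl1, ht0, ht1, he⟩ := crossing hx hy hxy hB ha hb1 hab ha' hc1 hac
    rw [← hpe, ← hqe] at he
    have hbend := hb p hp q hq l τ hl0 hl1 ht0 ht1 he
    have he1 : τ • B ∈ TT B C := ⟨τ, 0, ht0.le, le_rfl, by linarith, by simp⟩
    have he2 : τ • B ∈ TT B P := ⟨τ, 0, ht0.le, le_rfl, by linarith, by simp⟩
    have hs' : s = 1 - t := by linarith
    rcases le_total t l with htl | htl
    · -- between `p` and the crossing point
      have hm : s • p + t • q = (1 - t / l) • p + (t / l) • (τ • B) := by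
        rw [he, hs']
        have : t = t / l * l := by field_simp
        have h3 : (t / l) • ((1 - l) • p + l • q) = (t / l - t / l * l) • p + (t / l * l) • q := by
          module
        rw [h3, ← this]
        module
      have h4 := h1.2 hp he1 (show 0 ≤ 1 - t / l by rw [sub_nonneg, div_le_one hl0]; exact htl)
        (show 0 ≤ t / l by positivity) (show 1 - t / l + t / l = 1 by ring)
      rw [hm]
      refine h4.trans ?_
      simp only [smul_eq_mul]
      have h5 : t / l * U (τ • B) ≤ t / l * ((1 - l) * U p + l * U q) :=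
        mul_le_mul_of_nonneg_left hbend (by positivity)
      have h6 : t / l * ((1 - l) * U p + l * U q) = (t / l - t) * U p + t * U q := by
        field_simp
      rw [hs']
      nlinarith
    · have h1l : 0 < 1 - l := by linarith
      have hsl : s ≤ 1 - l := by linarith
      have hm : s • p + t • q = (s / (1 - l)) • (τ • B) + (1 - s / (1 - l)) • q := by
        rw [he]
        have h7 : s = s / (1 - l) * (1 - l) := by field_simp
        have h3 : (s / (1 - l)) • ((1 - l) • p + l • q) =
            (s / (1 - l) * (1 - l)) • p + (s / (1 - l) * l) • q := by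
          module
        rw [h3, ← h7]
        have h8 : t = s / (1 - l) * l + (1 - s / (1 - l)) := by
          have : s / (1 - l) * l + (1 - s / (1 - l)) = 1 - s / (1 - l) * (1 - l) := by ring
          rw [this, ← h7]; linarith
        conv_lhs => rw [h8]
        module
      have h4 := h2.2 he2 hq (show 0 ≤ s / (1 - l) by positivity)
        (show 0 ≤ 1 - s / (1 - l) by rw [sub_nonneg, div_le_one h1l]; exact hsl)
        (show s / (1 - l) + (1 - s / (1 - l)) = 1 by ring)
      rw [hm]
      refine h4.trans ?_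
      simp only [smul_eq_mul]
      have h5 : s / (1 - l) * U (τ • B) ≤ s / (1 - l) * ((1 - l) * U p + l * U q) :=
        mul_le_mul_of_nonneg_left hbend (by positivity)
      have h6 : s / (1 - l) * ((1 - l) * U p + l * U q) = s * U p + s / (1 - l) * l * U q := by
        field_simp
      have h8 : t = s / (1 - l) * l + (1 - s / (1 - l)) := by
        have h7 : s = s / (1 - l) * (1 - l) := by field_simp
        have : s / (1 - l) * l + (1 - s / (1 - l)) = 1 - s / (1 - l) * (1 - l) := by ring
        rw [this, ← h7]; linarith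
      rw [h6] at h5
      have h9 : t * U q = s / (1 - l) * l * U q + (1 - s / (1 - l)) * U q := by
        rw [← add_mul, ← h8]
      linarith
  refine ⟨QQ_convex B C P, ?_⟩
  intro p hp q hq s t hs ht hst
  rw [smul_eq_mul, smul_eq_mul]
  rcases QQ_sub hx hy hxy hB hp with hp1 | hp1 <;> rcases QQ_sub hx hy hxy hB hq with hq1 | hq1
  · simpa using h1.2 hp1 hq1 hs ht hst
  · exact key p hp1 q hq1 s t hs ht hst
  · have := key q hq1 p hp1 t s ht hs (by linarith)
    rw [add_comm (s • p), add_comm (s * U p)]
    exact this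
  · simpa using h2.2 hp1 hq1 hs ht hst

end Pool.Agent.R193.DS
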