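import Pool.Agent.R193.DS.Main

set_option autoImplicit false

open Set Filter Topology

namespace Pool.Agent.R193.DS

/-- the pattern -/
def nx : E → E := ![1, 2, 0, 4, 5, 3, 7, 8, 6, 10, 11, 9, 13, 14, 12, 16, 17, 15]

/-- the pattern -/
def op : E → E := ![9, 6, 3, 2, 7, 8, 1, 4, 5, 0, 15, 12, 11, 16, 17, 10, 13, 14]

/-- the good surfaces -/
def VV : Set Surf := {D | D.nxt = nx ∧ D.opp = op ∧ rho 4 7 D.w < rho 5 8 D.w ∧
  rho 13 16 D.w < rho 14 17 D.w ∧ 0 < det (D.w 0) (D.w 5) ∧ 0 < det (D.w 9) (D.w 14)}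

/-- the invariant -/
noncomputable def kap (w : E → V2) : ℝ :=
  rho 0 9 w ^ 2 * ((rho 14 17 w / rho 13 16 w - 1) / det (w 9) (w 10)) *
    (det (w 0) (w 1) / (rho 5 8 w / rho 4 7 w - 1))

/-- first open set -/
def V1 : Set Surf := {D | D ∈ VV ∧ 2 / 3 < kap D.w ∧ kap D.w < 3 / 2}

/-- second open set -/
def V3 : Set Surf := {D | D ∈ VV ∧ kap D.w < 2 / 3}

lemma rho_spec (D : Surf) {h h' : E} (e : D.opp h = h') :
    0 < rho h h' D.w ∧ D.w h' = -(rho h h' D.w • D.w h) := by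
  obtain ⟨r, hr, er⟩ := D.glue h
  have := rho_eq er
  rw [e] at this er
  rw [this]
  exact ⟨hr, er⟩

lemma VV_two {D : Surf} (hD : D ∈ VV) :
    Two D (rho 0 9 D.w) (rho 1 6 D.w) (rho 2 3 D.w) (rho 4 7 D.w) (rho 5 8 D.w)
      (rho 10 15 D.w) (rho 11 12 D.w) (rho 13 16 D.w) (rho 14 17 D.w) := by
  obtain ⟨hn, ho, l1, l2, d1, d2⟩ := hD
  have o0 : D.opp 0 = 9 := by rw [ho]; rfl
  have o1 : D.opp 1 = 6 := by rw [ho]; rfl
  have o2 : D.opp 2 = 3 := by rw [ho]; rfl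
  have o4 : D.opp 4 = 7 := by rw [ho]; rfl
  have o5 : D.opp 5 = 8 := by rw [ho]; rfl
  have p1 : D.opp 10 = 15 := by rw [ho]; rfl
  have p2 : D.opp 11 = 12 := by rw [ho]; rfl
  have p4 : D.opp 13 = 16 := by rw [ho]; rfl
  have p5 : D.opp 14 = 17 := by rw [ho]; rfl
  constructor
  · constructor
    all_goals first
      | exact (rho_spec D o1).1 
      | exact (rho_spec D o2).1 
      | exact (rho_spec D o4).1 
      | exact (rho_spec D o5).1 
      | exact (rho_spec D o1).2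
      | exact (rho_spec D o2).2
      | exact (rho_spec D o4).2
      | exact (rho_spec D o5).2
      | exact l1
      | exact d1
      | exact o1
      | exact o2
      | exact o4
      | exact o5
      | (rw [hn]; rfl)
  · constructor
    all_goals first
      | exact (rho_spec D p1).1 
      | exact (rho_spec D p2).1 
      | exact (rho_spec D p4).1 
      | exact (rho_spec D p5).1 
      | exact (rho_spec D p1).2
      | exact (rho_spec D p2).2
      | exact (rho_spec D p4).2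
      | exact (rho_spec D p5).2
      | exact l2
      | exact d2
      | exact p1
      | exact p2
      | exact p4
      | exact p5
      | (rw [hn]; rfl)
  · exact o0
  · exact (rho_spec D o0).1
  · exact (rho_spec D o0).2

lemma kap_eq (D : Surf) : kap D.w =
    kp D (rho 0 9 D.w) (rho 4 7 D.w) (rho 5 8 D.w) (rho 13 16 D.w) (rho 14 17 D.w) := rfl

/-- surfaces of the two sets are not isomorphic -/
lemma not_tr {D D' : Surf} (h : D ∈ V1) (h' : D' ∈ V3) : ¬ Tr D D' := by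
  intro H
  obtain ⟨hV, h1, h2⟩ := h
  obtain ⟨hV', h3⟩ := h'
  have T := VV_two hV
  have T' := VV_two hV'
  have hp' := T'.kp_pos
  have := T.invariant T' H
  rw [← kap_eq, ← kap_eq] at this
  rw [← kap_eq] at hp'
  rcases this with e | e
  · linarith
  · nlinarith

lemma ratios {D : Surf} (hD : D ∈ VV) : rho 4 7 D.w ≠ 0 ∧ rho 13 16 D.w ≠ 0 ∧
    rho 5 8 D.w / rho 4 7 D.w - 1 ≠ 0 ∧ det (D.w 9) (D.w 10) ≠ 0 := by
  have T := VV_two hD
  exact ⟨T.P.h4.ne', T.Q.h4.ne', T.ratio_pos.ne', T.d910.ne'⟩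

lemma rc (D : Surf) (h h' : E) : ContinuousAt (rho h h') D.w := rho_cont (D.w_ne h)

lemma dc (D : Surf) (h h' : E) : ContinuousAt (fun w : E → V2 => det (w h) (w h')) D.w :=
  det_cont (continuous_apply h).continuousAt (continuous_apply h').continuousAt

lemma kap_cont {D : Surf} (hD : D ∈ VV) : ContinuousAt kap D.w := by
  obtain ⟨h1, h2, h3, h4⟩ := ratios hD
  unfold kap
  refine ContinuousAt.mul (ContinuousAt.mul ((rc D 0 9).pow 2) ?_) ?_
  · exact (((rc D 14 17).div (rc D 13 16) h2).sub continuousAt_const).div (dc D 9 10) h4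
  · exact (dc D 0 1).div (((rc D 5 8).div (rc D 4 7) h1).sub continuousAt_const) h3

lemma lt_nhds {f g : (E → V2) → ℝ} {w : E → V2} (hf : ContinuousAt f w) (hg : ContinuousAt g w)
    (h : f w < g w) : {w | f w < g w} ∈ 𝓝 w := by
  have := (hg.sub hf).eventually_mem (Ioi_mem_nhds (sub_pos.2 h))
  filter_upwards [this] with x hx
  exact sub_pos.1 hx

lemma VV_nhds {D : Surf} (hD : D ∈ VV) : ∃ W ∈ 𝓝 D.w, ∀ D' : Surf, D'.nxt = D.nxt →
    D'.opp = D.opp → D'.w ∈ W → D' ∈ VV := by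
  obtain ⟨hn, ho, l1, l2, d1, d2⟩ := hD
  refine ⟨_, inter_mem (lt_nhds (rc D 4 7) (rc D 5 8) l1)
    (inter_mem (lt_nhds (rc D 13 16) (rc D 14 17) l2)
      (inter_mem (lt_nhds continuousAt_const (dc D 0 5) d1)
        (lt_nhds continuousAt_const (dc D 9 14) d2))), ?_⟩
  rintro D' e1 e2 ⟨m1, m2, m3, m4⟩
  exact ⟨e1.trans hn, e2.trans ho, m1, m2, m3, m4⟩

lemma V1_open : IsOpen V1 := by
  rw [isOpen_iff_mem_nhds]
  rintro D ⟨hD, h1, h2⟩
  obtain ⟨W, hW, H⟩ := VV_nhds hD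
  have hk := kap_cont hD
  rw [mem_nhds_surf]
  refine ⟨_, inter_mem hW (inter_mem (lt_nhds continuousAt_const hk h1)
    (lt_nhds hk continuousAt_const h2)), ?_⟩
  rintro D' e1 e2 ⟨m1, m2, m3⟩
  exact ⟨H D' e1 e2 m1, m2, m3⟩

lemma V3_open : IsOpen V3 := by
  rw [isOpen_iff_mem_nhds]
  rintro D ⟨hD, h1⟩
  obtain ⟨W, hW, H⟩ := VV_nhds hD
  have hk := kap_cont hD
  rw [mem_nhds_surf]
  refine ⟨_, inter_mem hW (lt_nhds hk continuousAt_const h1), ?_⟩
  rintro D' e1 e2 ⟨m1, m2⟩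
  exact ⟨H D' e1 e2 m1, m2⟩

/-! ### invariance -/

lemma rho_act (A : Matrix.SpecialLinearGroup (Fin 2) ℝ) (D : Surf) {h h' : E}
    (e : D.opp h = h') : rho h h' (act A D).w = rho h h' D.w := by
  obtain ⟨r, hr, er⟩ := D.glue h
  have h1 := rho_eq er
  have er' : (act A D).w ((act A D).opp h) = -(r • (act A D).w h) := by
    show lin A (D.w (D.opp h)) = -(r • lin A (D.w h))
    rw [er, lin_neg, lin_smul]
  have h2 := rho_eq er'
  rw [e] at h1
  have h3 : (act A D).opp h = h' := e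
  rw [h3] at h2
  rw [h1, h2]

lemma det_act (A : Matrix.SpecialLinearGroup (Fin 2) ℝ) (D : Surf) (h h' : E) :
    det ((act A D).w h) ((act A D).w h') = det (D.w h) (D.w h') := det_lin A _ _

lemma kap_act (A : Matrix.SpecialLinearGroup (Fin 2) ℝ) {D : Surf} (hD : D ∈ VV) :
    kap (act A D).w = kap D.w := by
  obtain ⟨hn, ho, -⟩ := hD
  unfold kap
  rw [rho_act A D (h := 0) (h' := 9) (by rw [ho]; rfl),
    rho_act A D (h := 14) (h' := 17) (by rw [ho]; rfl),
    rho_act A D (h := 13) (h' := 16) (by rw [ho]; rfl),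
    rho_act A D (h := 5) (h' := 8) (by rw [ho]; rfl),
    rho_act A D (h := 4) (h' := 7) (by rw [ho]; rfl), det_act, det_act]

lemma VV_act (A : Matrix.SpecialLinearGroup (Fin 2) ℝ) {D : Surf} (hD : D ∈ VV) :
    act A D ∈ VV := by
  obtain ⟨hn, ho, l1, l2, d1, d2⟩ := hD
  refine ⟨hn, ho, ?_, ?_, ?_, ?_⟩
  · rwa [rho_act A D (h := 5) (h' := 8) (by rw [ho]; rfl),
      rho_act A D (h := 4) (h' := 7) (by rw [ho]; rfl)]
  · rwa [rho_act A D (h := 14) (h' := 17) (by rw [ho]; rfl),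
      rho_act A D (h := 13) (h' := 16) (by rw [ho]; rfl)]
  · rwa [det_act]
  · rwa [det_act]

lemma V1_act (A : Matrix.SpecialLinearGroup (Fin 2) ℝ) {D : Surf} (hD : D ∈ V1) :
    act A D ∈ V1 := ⟨VV_act A hD.1, by rw [kap_act A hD.1]; exact hD.2.1,
      by rw [kap_act A hD.1]; exact hD.2.2⟩

lemma V3_act (A : Matrix.SpecialLinearGroup (Fin 2) ℝ) {D : Surf} (hD : D ∈ V3) :
    act A D ∈ V3 := ⟨VV_act A hD.1, by rw [kap_act A hD.1]; exact hD.2⟩

lemma lin_mul (A B : Matrix.SpecialLinearGroup (Fin 2) ℝ) (z : V2) :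
    lin (A * B) z = lin A (lin B z) := by
  have h : ∀ i j, (A * B : Matrix.SpecialLinearGroup (Fin 2) ℝ) i j =
      A i 0 * B 0 j + A i 1 * B 1 j := by
    intro i j
    rw [Matrix.SpecialLinearGroup.coe_mul, Matrix.mul_apply, Fin.sum_univ_two]
  ext
  · simp only [lin, h]; ring
  · simp only [lin, h]; ring

lemma lin_one (z : V2) : lin 1 z = z := by
  ext <;> simp [lin]

lemma act_inv (A : Matrix.SpecialLinearGroup (Fin 2) ℝ) (D : Surf) :
    act A⁻¹ (act A D) = D := by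
  have : ∀ h, lin A⁻¹ (lin A (D.w h)) = D.w h := fun h => by
    rw [← lin_mul, inv_mul_cancel, lin_one]
  exact Surf.ext rfl rfl (funext this)

/-! ### the path -/

/-- vectors of the path of surfaces -/
noncomputable def wp (k : ℝ) : E → V2 :=
  ![(2, 0), (-1, 1), (-1, -1), (1, 1), (-5 / 2, -3 / 2), (3 / 2, 1 / 2), (1 / 4, -1 / 4),
    (5 / 4, 3 / 4), (-3 / 2, -1 / 2), (-2, 0), (1, -k), (1, k), (-1, -k), (5 / 2, 3 / 2 * k),
    (-3 / 2, -1 / 2 * k), (-1 / 4, 1 / 4 * k), (-5 / 4, -3 / 4 * k), (3 / 2, 1 / 2 * k)]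

/-- ratios of the path of surfaces -/
noncomputable def rp : E → ℝ :=
  ![1, 1 / 4, 1, 1, 1 / 2, 1, 4, 2, 1, 1, 1 / 4, 1, 1, 1 / 2, 1, 4, 2, 1]

/-- position in the cycle -/
def cyc : E → ℕ := ![0, 10, 14, 17, 15, 12, 13, 11, 16, 9, 1, 5, 8, 6, 3, 4, 2, 7]

lemma cyc1 : ∀ h : E, (fun x => nx (op x))^[cyc h] 0 = h := by decide

lemma cyc2 : ∀ h : E, (fun x => nx (op x))^[18 - cyc h] h = 0 := by decide

/-- the path of surfaces -/
noncomputable def Dp (k : ℝ) (hk : 0 < k) : Surf where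
  nxt := nx
  opp := op
  w := wp k
  nxt3 := by decide
  nxt_ne := by decide
  opp2 := by decide
  opp_ne := by decide
  closed h := by
    rcases all18 h with (rfl | rfl | rfl | rfl | rfl | rfl | rfl | rfl | rfl) |
      (rfl | rfl | rfl | rfl | rfl | rfl | rfl | rfl | rfl) <;>
    · ext <;> simp [wp, nx] <;> ring
  pos h := by
    rcases all18 h with (rfl | rfl | rfl | rfl | rfl | rfl | rfl | rfl | rfl) |
      (rfl | rfl | rfl | rfl | rfl | rfl | rfl | rfl | rfl) <;>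
    · simp [wp, nx, det] <;> nlinarith
  glue h := by
    refine ⟨rp h, ?_, ?_⟩
    · rcases all18 h with (rfl | rfl | rfl | rfl | rfl | rfl | rfl | rfl | rfl) |
        (rfl | rfl | rfl | rfl | rfl | rfl | rfl | rfl | rfl) <;> simp [rp]
    · rcases all18 h with (rfl | rfl | rfl | rfl | rfl | rfl | rfl | rfl | rfl) |
        (rfl | rfl | rfl | rfl | rfl | rfl | rfl | rfl | rfl) <;>
      · ext <;> simp [wp, op, rp] <;> ring
  one h h' := by
    refine ⟨cyc h' + (18 - cyc h), ?_⟩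
    rw [Function.iterate_add_apply, cyc2, cyc1]

end Pool.Agent.R193.DS
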