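import Pool.Agent.R193.DS.Defs

set_option autoImplicit false

open Set Filter Topology

namespace Pool.Agent.R193.DS

lemma det_self (a : V2) : det a a = 0 := by unfold det; ring

lemma det_smul_right (r : ℝ) (a b : V2) : det a (r • b) = r * det a b := by
  unfold det; simp; ring

lemma det_smul_left (r : ℝ) (a b : V2) : det (r • a) b = r * det a b := by
  unfold det; simp; ring

lemma det_add_right (a b c : V2) : det a (b + c) = det a b + det a c := by
  unfold det; simp; ring

lemma det_add_left (a b c : V2) : det (a + b) c = det a c + det b c := by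
  unfold det; simp; ring

lemma det_neg_right (a b : V2) : det a (-b) = -det a b := by
  unfold det; simp; ring

lemma det_neg_left (a b : V2) : det (-a) b = -det a b := by
  unfold det; simp; ring

lemma det_swap (a b : V2) : det a b = -det b a := by
  unfold det; ring

/-- expansion in a basis -/
lemma expand {a b : V2} (h : det a b ≠ 0) (z : V2) :
    z = (det z b / det a b) • a + (det a z / det a b) • b := by
  have h1 : a.1 * b.2 - a.2 * b.1 ≠ 0 := h
  ext
  · simp only [det, Prod.fst_add, Prod.smul_fst, smul_eq_mul]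
    rw [div_mul_eq_mul_div, div_mul_eq_mul_div, ← add_div, eq_div_iff h1]
    ring
  · simp only [det, Prod.snd_add, Prod.smul_snd, smul_eq_mul]
    rw [div_mul_eq_mul_div, div_mul_eq_mul_div, ← add_div, eq_div_iff h1]
    ring

/-- scalar product -/
def dt (a b : V2) : ℝ := a.1 * b.1 + a.2 * b.2

lemma dt_add (a b c : V2) : dt a (b + c) = dt a b + dt a c := by unfold dt; simp; ring
lemma dt_sub (a b c : V2) : dt a (b - c) = dt a b - dt a c := by unfold dt; simp; ring
lemma dt_neg (a b : V2) : dt a (-b) = -dt a b := by unfold dt; simp; ring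
lemma dt_smul (a b : V2) (r : ℝ) : dt a (r • b) = r * dt a b := by unfold dt; simp; ring
lemma dt_smul_left (a b : V2) (r : ℝ) : dt (r • a) b = r * dt a b := by unfold dt; simp; ring
lemma dt_zero (a : V2) : dt a 0 = 0 := by unfold dt; simp

namespace Surf

variable (D : Surf)

lemma w_ne (h : E) : D.w h ≠ 0 := by
  intro e
  have := D.pos h
  rw [e] at this
  simp [det] at this

lemma nxt_inj {h k : E} (e : D.nxt h = D.nxt k) : h = k := by
  rw [← D.nxt3 h, ← D.nxt3 k, e]

lemma nn_ne (h : E) : D.nxt (D.nxt h) ≠ h := by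
  intro e
  have := D.nxt3 h
  rw [e] at this
  exact D.nxt_ne h this

lemma w_nn (h : E) : D.w (D.nxt (D.nxt h)) = -(D.w h + D.w (D.nxt h)) := by
  have := D.closed h
  exact eq_neg_of_add_eq_zero_right this

lemma det_nn (h : E) : det (D.w h) (D.w (D.nxt (D.nxt h))) = -det (D.w h) (D.w (D.nxt h)) := by
  rw [D.w_nn, det_neg_right, det_add_right, det_self]; ring

lemma opp_ne_nxt (h : E) : D.opp h ≠ D.nxt h := by
  intro e
  obtain ⟨r, hr, e1⟩ := D.glue h
  have := D.pos h
  rw [← e, e1, det_neg_right, det_smul_right, det_self] at this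
  simp at this

lemma opp_ne_nn (h : E) : D.opp h ≠ D.nxt (D.nxt h) := by
  intro e
  obtain ⟨r, hr, e1⟩ := D.glue h
  have := D.det_nn h
  have h2 := D.pos h
  rw [← e, e1, det_neg_right, det_smul_right, det_self] at this
  simp at this
  linarith

lemma ratio_unique {h : E} {r r' : ℝ} (e : D.w (D.opp h) = -(r • D.w h))
    (e' : D.w (D.opp h) = -(r' • D.w h)) : r = r' := by
  rw [e] at e'
  have h1 : r • D.w h = r' • D.w h := neg_injective e'
  exact smul_left_injective ℝ (D.w_ne h) h1

end Surf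

/-- The closed triangle to the left of the side `h`, drawn with the beginning of `h` at the
origin. -/
def tri (D : Surf) (h : E) : Set V2 :=
  {z | ∃ s t : ℝ, 0 ≤ s ∧ 0 ≤ t ∧ s + t ≤ 1 ∧ z = s • D.w h + t • (D.w h + D.w (D.nxt h))}

section Tri

variable {D : Surf} {h : E}

lemma tri_convex : Convex ℝ (tri D h) := by
  rintro z ⟨s, t, hs, ht, hst, rfl⟩ z' ⟨s', t', hs', ht', hst', rfl⟩ a b ha hb hab
  refine ⟨a * s + b * s', a * t + b * t', by positivity, by positivity, ?_, ?_⟩
  · have h1 := mul_le_mul_of_nonneg_left hst ha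
    have h2 := mul_le_mul_of_nonneg_left hst' hb
    nlinarith
  · module

lemma zero_mem : (0 : V2) ∈ tri D h := ⟨0, 0, le_rfl, le_rfl, by norm_num, by simp⟩

lemma edge_mem {t : ℝ} (h0 : 0 ≤ t) (h1 : t ≤ 1) : t • D.w h ∈ tri D h :=
  ⟨t, 0, h0, le_rfl, by linarith, by simp⟩

lemma w_mem : D.w h ∈ tri D h := by
  have := edge_mem (D := D) (h := h) (t := 1) (by norm_num) le_rfl
  simpa using this

lemma apex_mem : D.w h + D.w (D.nxt h) ∈ tri D h :=
  ⟨0, 1, le_rfl, by norm_num, by norm_num, by simp⟩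

lemma tri_nxt {z : V2} (hz : z ∈ tri D h) : z - D.w h ∈ tri D (D.nxt h) := by
  obtain ⟨s, t, hs, ht, hst, rfl⟩ := hz
  refine ⟨t, 1 - s - t, ht, by linarith, by linarith, ?_⟩
  rw [D.w_nn]
  module

lemma tri_nn {z : V2} (hz : z ∈ tri D h) :
    z - D.w h - D.w (D.nxt h) ∈ tri D (D.nxt (D.nxt h)) := tri_nxt (tri_nxt hz)

lemma tri_prev {z : V2} (hz : z ∈ tri D (D.nxt h)) : z + D.w h ∈ tri D h := by
  have := tri_nxt (tri_nxt hz)
  rw [D.nxt3, D.w_nn] at this
  convert this using 1
  module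

lemma tri_prev2 {z : V2} (hz : z ∈ tri D (D.nxt (D.nxt h))) :
    z + D.w (D.nxt h) + D.w h ∈ tri D h := tri_prev (tri_prev hz)

lemma det_nonneg_of_mem {z : V2} (hz : z ∈ tri D h) : 0 ≤ det (D.w h) z := by
  obtain ⟨s, t, hs, ht, hst, rfl⟩ := hz
  rw [det_add_right, det_smul_right, det_smul_right, det_add_right, det_self]
  have := D.pos h
  have : 0 ≤ t * det (D.w h) (D.w (D.nxt h)) := by positivity
  linarith

/-- points of the triangle on the line of the side `h` are on the side -/
lemma mem_edge_of_det {z : V2} (hz : z ∈ tri D h) (h0 : det (D.w h) z = 0) :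
    ∃ t : ℝ, 0 ≤ t ∧ t ≤ 1 ∧ z = t • D.w h := by
  obtain ⟨s, t, hs, ht, hst, rfl⟩ := hz
  rw [det_add_right, det_smul_right, det_smul_right, det_add_right, det_self] at h0
  have hp := D.pos h
  have : t = 0 := by
    have h1 : t * det (D.w h) (D.w (D.nxt h)) = 0 := by linarith
    rcases mul_eq_zero.1 h1 with h2 | h2
    · exact h2
    · exact absurd h2 hp.ne'
  subst this
  exact ⟨s, hs, by linarith, by simp⟩

/-- small dilates towards an interior point of a side are in the triangle -/
lemma near (D : Surf) (h : E) {t : ℝ} (h0 : 0 < t) (h1 : t < 1) {z : V2}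
    (hz : 0 ≤ det (D.w h) z) :
    ∃ e₀ : ℝ, 0 < e₀ ∧ e₀ ≤ 1 ∧ ∀ e : ℝ, 0 ≤ e → e ≤ e₀ →
      (1 - e) • (t • D.w h) + e • z ∈ tri D h := by
  have hp := D.pos h
  have hd : det (D.w h) (D.w h + D.w (D.nxt h)) = det (D.w h) (D.w (D.nxt h)) := by
    rw [det_add_right, det_self, zero_add]
  have hex := expand (a := D.w h) (b := D.w h + D.w (D.nxt h)) (by rw [hd]; exact hp.ne') z
  rw [hd] at hex
  set α := det z (D.w h + D.w (D.nxt h)) / det (D.w h) (D.w (D.nxt h)) with hα
  set β := det (D.w h) z / det (D.w h) (D.w (D.nxt h)) with hβ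
  have hβ0 : 0 ≤ β := div_nonneg hz hp.le
  refine ⟨min (t / (t + |α|)) ((1 - t) / (1 - t + |α| + β)), ?_, ?_, ?_⟩
  · apply lt_min
    · exact div_pos h0 (by positivity)
    · have : 0 < 1 - t := by linarith
      exact div_pos this (by positivity)
  · apply min_le_of_left_le
    rw [div_le_one (by positivity)]
    linarith [abs_nonneg α]
  · intro e he he'
    have h1t : 0 < 1 - t := by linarith
    have e1 : e * (t + |α|) ≤ t := by
      have := he'.trans (min_le_left _ _)
      rwa [le_div_iff₀ (by positivity)] at this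
    have e2 : e * (1 - t + |α| + β) ≤ 1 - t := by
      have := he'.trans (min_le_right _ _)
      rwa [le_div_iff₀ (by positivity)] at this
    have a1 := neg_abs_le α
    have a2 := le_abs_self α
    refine ⟨(1 - e) * t + e * α, e * β, ?_, by positivity, ?_, ?_⟩
    · have : e * α ≥ -(e * |α|) := by nlinarith
      nlinarith
    · have : e * α ≤ e * |α| := by nlinarith
      nlinarith
    · conv_lhs => rw [hex]
      module

lemma tri_eq_image : tri D h = (fun p : ℝ × ℝ => p.1 • D.w h + p.2 • (D.w h + D.w (D.nxt h))) ''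
    {p : ℝ × ℝ | 0 ≤ p.1 ∧ 0 ≤ p.2 ∧ p.1 + p.2 ≤ 1} := by
  ext z
  constructor
  · rintro ⟨s, t, hs, ht, hst, rfl⟩
    exact ⟨(s, t), ⟨hs, ht, hst⟩, rfl⟩
  · rintro ⟨⟨s, t⟩, ⟨hs, ht, hst⟩, rfl⟩
    exact ⟨s, t, hs, ht, hst, rfl⟩

lemma isCompact_simplex : IsCompact {p : ℝ × ℝ | 0 ≤ p.1 ∧ 0 ≤ p.2 ∧ p.1 + p.2 ≤ 1} := by
  have hc : IsClosed {p : ℝ × ℝ | 0 ≤ p.1 ∧ 0 ≤ p.2 ∧ p.1 + p.2 ≤ 1} := by
    apply IsClosed.inter (isClosed_le continuous_const continuous_fst)
    apply IsClosed.inter (isClosed_le continuous_const continuous_snd)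
    exact isClosed_le (continuous_fst.add continuous_snd) continuous_const
  refine IsCompact.of_isClosed_subset (isCompact_Icc (a := ((0 : ℝ), (0 : ℝ))) (b := (1, 1))) hc ?_
  rintro ⟨s, t⟩ ⟨hs, ht, hst⟩
  simp only at hs ht hst
  exact ⟨⟨hs, ht⟩, ⟨by show s ≤ 1; linarith, by show t ≤ 1; linarith⟩⟩

lemma tri_compact : IsCompact (tri D h) := by
  rw [tri_eq_image]
  refine isCompact_simplex.image ?_
  exact (continuous_fst.smul continuous_const).add (continuous_snd.smul continuous_const)

lemma tri_closed : IsClosed (tri D h) := tri_compact.isClosed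

end Tri

end Pool.Agent.R193.DS
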